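import Pool.Agent.SKF.Defs

/-!
Sol (size 2): solving linear equations with a hermitian matrix.
Proof. Let `T : E n → E n`, `(T β) l = ∑ k, β k * F k l` (linear). If `ρ` is not in the range of `T`
there is a linear functional `φ` on `E n` vanishing on the range with `φ ρ ≠ 0`
(`Submodule.exists_le_ker_of_notMem` or similar); write `φ x = ∑ l, φ_l x l`, put
`c l = conj φ_l`: then `hf F a c = φ (T a) = 0` for all `a` but `∑ l, conj (c l) * ρ l = φ ρ ≠ 0`.
-/

open scoped ContDiff ComplexConjugate Topology
open Complex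

namespace Pool.Agent.SKF

open Pool.Agent.DTW

variable {n : ℕ}

private noncomputable def Sol_T (F : Ix n → Ix n → ℂ) : E n →ₗ[ℂ] E n where
  toFun β := fun l => ∑ k, β k * F k l
  map_add' := by
    intro a b
    funext l
    simp only [Pi.add_apply, add_mul, Finset.sum_add_distrib]
  map_smul' := by
    intro c a
    funext l
    simp only [Pi.smul_apply, smul_eq_mul, RingHom.id_apply, Finset.mul_sum, mul_assoc]

private theorem Sol_hf (F : Ix n → Ix n → ℂ) (a b : E n) :
    hf F a b = ∑ l, conj (b l) * Sol_T F a l := by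
  unfold hf
  rw [Finset.sum_comm]
  refine Finset.sum_congr rfl fun l _ => ?_
  have h : Sol_T F a l = ∑ k, a k * F k l := rfl
  rw [h, Finset.mul_sum]
  refine Finset.sum_congr rfl fun k _ => ?_
  ring

theorem sol (F : Ix n → Ix n → ℂ) (ρ : Ix n → ℂ)
    (h : ∀ c : E n, (∀ a, hf F a c = 0) → ∑ l, conj (c l) * ρ l = 0) :
    ∃ β : E n, ∀ b, hf F β b = ∑ l, conj (b l) * ρ l := by
  by_cases hr : ρ ∈ LinearMap.range (Sol_T F)
  · obtain ⟨β, hβ⟩ := hr
    refine ⟨β, fun b => ?_⟩
    rw [Sol_hf, hβ]
  · exfalso
    obtain ⟨φ, hφ, hle⟩ := Submodule.exists_le_ker_of_notMem hr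
    have hrep : ∀ x : E n, φ x = ∑ l, φ (Pi.single l 1) * x l := by
      intro x
      have hx : x = ∑ l, x l • (Pi.single l (1 : ℂ) : E n) := by
        funext j
        simp [Finset.sum_apply, Pi.single_apply]
      conv_lhs => rw [hx]
      rw [map_sum]
      refine Finset.sum_congr rfl fun l _ => ?_
      rw [map_smul, smul_eq_mul, mul_comm]
    set c : E n := fun l => conj (φ (Pi.single l 1)) with hc
    have hcc : ∀ l, conj (c l) = φ (Pi.single l 1) := by
      intro l
      simp only [hc, Complex.conj_conj]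
    have h1 := h c (fun a => by
      rw [Sol_hf]
      simp only [hcc]
      rw [← hrep]
      have : Sol_T F a ∈ LinearMap.ker φ := hle (LinearMap.mem_range_self _ a)
      exact this)
    simp only [hcc] at h1
    rw [← hrep] at h1
    exact hφ h1

end Pool.Agent.SKF
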