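import Pool.Agent.SKF.Defs

/-!
Jpr (size 4): 2-jets in the direction `v` at `z`: rules for `mx`, and the jets of the coordinates of
the vector field `bb z v b β δ`. Tools: DTW.Base (`d10_mul`, `d01_mul`, `d10_sum`, `d10_congr`,
`contDiffOn_d10`, `contDiffOn_d01`, `diffAt_of`), DTW.Comm (`d01_of_diff`, `d10_of_diff`).
`tau z v` is complex affine: `d10 (tau z v) y a = ∑ conj (v k) a k / ∑ |v k|²`, `d01 (tau z v) y a = 0`.
-/

open scoped ContDiff ComplexConjugate Topology
open Complex

namespace Pool.Agent.SKF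

open Pool.Agent.DTW

variable {n : ℕ} {U : Set (E n)} {f g : E n → ℂ} {z v : E n}

theorem mx_congr (h : f =ᶠ[𝓝 z] g) : mx f z v = mx g z v := by
  unfold mx
  apply d10_congr
  filter_upwards [h.eventuallyEq_nhds] with y hy
  exact d01_congr hy

theorem mx_const (c : ℂ) : mx (fun _ : E n => c) z v = 0 := by
  unfold mx
  have h : (fun y : E n => d01 (fun _ : E n => c) y v) = fun _ => 0 := by
    funext y
    exact d01_const c
  rw [h]
  exact d10_const 0

theorem mx_add (hU : IsOpen U) (hf : ContDiffOn ℝ ∞ f U) (hg : ContDiffOn ℝ ∞ g U) (hz : z ∈ U) :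
    mx (fun y => f y + g y) z v = mx f z v + mx g z v := by
  unfold mx
  have h : (fun y => d01 (fun x => f x + g x) y v) =ᶠ[𝓝 z] fun y => d01 f y v + d01 g y v := by
    filter_upwards [hU.mem_nhds hz] with y hy
    exact d01_add (diffAt_of hU hf hy) (diffAt_of hU hg hy)
  rw [d10_congr h]
  exact d10_add (diffAt_of hU (contDiffOn_d01 hU hf v) hz) (diffAt_of hU (contDiffOn_d01 hU hg v) hz)

theorem mx_mul (hU : IsOpen U) (hf : ContDiffOn ℝ ∞ f U) (hg : ContDiffOn ℝ ∞ g U) (hz : z ∈ U) :
    mx (fun y => f y * g y) z v = mx f z v * g z + d10 f z v * d01 g z v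
      + d01 f z v * d10 g z v + f z * mx g z v := by
  unfold mx
  have h : (fun y => d01 (fun x => f x * g x) y v) =ᶠ[𝓝 z]
      fun y => d01 f y v * g y + f y * d01 g y v := by
    filter_upwards [hU.mem_nhds hz] with y hy
    exact d01_mul (diffAt_of hU hf hy) (diffAt_of hU hg hy)
  have hdf := diffAt_of hU (contDiffOn_d01 hU hf v) hz
  have hdg := diffAt_of hU (contDiffOn_d01 hU hg v) hz
  have hf' := diffAt_of hU hf hz
  have hg' := diffAt_of hU hg hz
  rw [d10_congr h]
  have h1 : d10 (fun y => d01 f y v * g y + f y * d01 g y v) z v =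
      d10 (fun y => d01 f y v * g y) z v + d10 (fun y => f y * d01 g y v) z v :=
    d10_add (hdf.mul hg') (hf'.mul hdg)
  have h2 : d10 (fun y => d01 f y v * g y) z v =
      d10 (fun y => d01 f y v) z v * g z + d01 f z v * d10 g z v := d10_mul hdf hg'
  have h3 : d10 (fun y => f y * d01 g y v) z v =
      d10 f z v * d01 g z v + f z * d10 (fun y => d01 g y v) z v := d10_mul hf' hdg
  rw [h1, h2, h3]
  ring

theorem mx_const_mul (hU : IsOpen U) (hf : ContDiffOn ℝ ∞ f U) (hz : z ∈ U) (c : ℂ) :
    mx (fun y => c * f y) z v = c * mx f z v := by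
  have h := mx_mul (v := v) hU (f := fun _ => c) (g := f) contDiffOn_const hf hz
  rw [h, mx_const, d10_const, d01_const]
  ring

theorem mx_sum {κ : Type*} (s : Finset κ) (G : κ → E n → ℂ) (hU : IsOpen U)
    (hG : ∀ i ∈ s, ContDiffOn ℝ ∞ (G i) U) (hz : z ∈ U) :
    mx (fun y => ∑ i ∈ s, G i y) z v = ∑ i ∈ s, mx (G i) z v := by
  unfold mx
  have h : (fun y => d01 (fun x => ∑ i ∈ s, G i x) y v) =ᶠ[𝓝 z]
      fun y => ∑ i ∈ s, d01 (G i) y v := by
    filter_upwards [hU.mem_nhds hz] with y hy
    exact d01_sum s G (fun i hi => diffAt_of hU (hG i hi) hy)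
  rw [d10_congr h]
  exact d10_sum s (fun i y => d01 (G i) y v)
    (fun i hi => diffAt_of hU (contDiffOn_d01 hU (hG i hi) v) hz)

theorem mx_conj (hU : IsOpen U) (hf : ContDiffOn ℝ ∞ f U) (hz : z ∈ U) :
    mx (fun y => conj (f y)) z v = conj (mx f z v) := by
  unfold mx
  have h : (fun y => d01 (fun x => conj (f x)) y v) =ᶠ[𝓝 z] fun y => conj (d10 f y v) := by
    filter_upwards [hU.mem_nhds hz] with y hy
    exact d01_conj (diffAt_of hU hf hy)
  rw [d10_congr h, d10_d01_comm (hf.contDiffAt (hU.mem_nhds hz)) v v]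
  exact d10_conj (diffAt_of hU (contDiffOn_d10 hU hf v) hz)

theorem smooth_tau (z v : E n) : ContDiff ℝ ∞ (tau z v) := by
  unfold tau
  apply ContDiff.div_const
  apply ContDiff.sum
  intro k _
  exact contDiff_const.mul ((contDiff_apply ℝ ℂ k).sub contDiff_const)

theorem tau_self (z v : E n) : tau z v z = 0 := by
  simp [tau]

theorem bb_self (z v b β δ : E n) : bb z v b β δ z = b := by
  funext k
  simp [bb, tau_self]

private theorem jpr_conj {f : E n → ℂ} (hf : ContDiff ℝ ∞ f) :
    ContDiff ℝ ∞ (fun y => conj (f y)) := by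
  have h : ContDiff ℝ ∞ (fun y => Complex.conjCLE (f y)) := Complex.conjCLE.contDiff.comp hf
  have h2 : (fun y => Complex.conjCLE (f y)) = fun y => conj (f y) := by
    funext y; simp
  rwa [h2] at h

theorem smooth_bb (z v b β δ : E n) (k : Ix n) : ContDiff ℝ ∞ (fun y => bb z v b β δ y k) := by
  unfold bb
  have ht := smooth_tau z v
  exact (contDiff_const.add (ht.mul contDiff_const)).add ((ht.mul (jpr_conj ht)).mul contDiff_const)

private theorem jpr_den (hv : v ≠ 0) : (∑ k, ((Complex.normSq (v k) : ℝ) : ℂ)) ≠ 0 := by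
  obtain ⟨j, hj⟩ : ∃ j, v j ≠ 0 := by
    by_contra h
    push Not at h
    exact hv (funext h)
  have h1 : 0 < ∑ k, Complex.normSq (v k) :=
    Finset.sum_pos' (fun k _ => Complex.normSq_nonneg _) ⟨j, Finset.mem_univ _,
      Complex.normSq_pos.mpr hj⟩
  have h2 : (∑ k, ((Complex.normSq (v k) : ℝ) : ℂ)) = ((∑ k, Complex.normSq (v k) : ℝ) : ℂ) := by
    push_cast
    rfl
  rw [h2]
  exact_mod_cast h1.ne'

private theorem jpr_tau_has (z v y : E n) : HasFDerivAt (𝕜 := ℂ) (tau z v)
    ((∑ k, ((Complex.normSq (v k) : ℝ) : ℂ))⁻¹ •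
      ∑ k, conj (v k) • (ContinuousLinearMap.proj k : E n →L[ℂ] ℂ)) y := by
  have h1 : ∀ k : Ix n, HasFDerivAt (𝕜 := ℂ) (fun x : E n => conj (v k) * (x k - z k))
      (conj (v k) • (ContinuousLinearMap.proj k : E n →L[ℂ] ℂ)) y := by
    intro k
    have h2 : HasFDerivAt (𝕜 := ℂ) (fun x : E n => x k - z k)
        (ContinuousLinearMap.proj k : E n →L[ℂ] ℂ) y :=
      ((ContinuousLinearMap.proj k : E n →L[ℂ] ℂ).hasFDerivAt).sub_const (z k)
    exact h2.const_mul (conj (v k))
  have h3 := HasFDerivAt.fun_sum (u := Finset.univ) (fun k _ => h1 k)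
  have h4 := h3.const_mul ((∑ k, ((Complex.normSq (v k) : ℝ) : ℂ))⁻¹)
  have h5 : tau z v = fun x : E n => (∑ k, ((Complex.normSq (v k) : ℝ) : ℂ))⁻¹ *
      ∑ k, conj (v k) * (x k - z k) := by
    funext x
    unfold tau
    rw [div_eq_mul_inv, mul_comm]
  rw [h5]
  exact h4

private theorem jpr_d10_tau (hv : v ≠ 0) (y : E n) : d10 (tau z v) y v = 1 := by
  rw [d10_of_diff (jpr_tau_has z v y).differentiableAt, (jpr_tau_has z v y).fderiv]
  simp only [smul_apply, sum_apply, ContinuousLinearMap.proj_apply, smul_eq_mul]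
  have h : ∑ k, conj (v k) * v k = ∑ k, ((Complex.normSq (v k) : ℝ) : ℂ) := by
    refine Finset.sum_congr rfl fun k _ => ?_
    exact Complex.normSq_eq_conj_mul_self.symm
  rw [h]
  exact inv_mul_cancel₀ (jpr_den hv)

private theorem jpr_d01_tau (y : E n) : d01 (tau z v) y v = 0 :=
  d01_of_diff (jpr_tau_has z v y).differentiableAt v

private theorem jpr_mx_tau : mx (tau z v) z v = 0 := by
  unfold mx
  have h : (fun y : E n => d01 (tau z v) y v) = fun _ => 0 := by
    funext y
    exact jpr_d01_tau y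
  rw [h]
  exact d10_const 0

private theorem jpr_da (z v y : E n) : DifferentiableAt ℝ (tau z v) y :=
  (smooth_tau z v).contDiffAt.differentiableAt (by simp)

private theorem jpr_dac (z v y : E n) : DifferentiableAt ℝ (fun x => conj (tau z v x)) y :=
  (jpr_conj (smooth_tau z v)).contDiffAt.differentiableAt (by simp)

/-- jets of the coordinates of `bb` -/
theorem jet_bb (hv : v ≠ 0) (b β δ : E n) (k : Ix n) :
    d10 (fun y => bb z v b β δ y k) z v = β k ∧ d01 (fun y => bb z v b β δ y k) z v = 0 ∧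
      mx (fun y => bb z v b β δ y k) z v = δ k := by
  have hs := smooth_tau z v
  have hsc := jpr_conj hs
  have hda := jpr_da z v z
  have hdc := jpr_dac z v z
  have hcz : conj (tau z v z) = 0 := by rw [tau_self]; simp
  have e10c : d10 (fun x => conj (tau z v x)) z v = 0 := by
    rw [d10_conj hda, jpr_d01_tau]; simp
  have e01c : d01 (fun x => conj (tau z v x)) z v = 1 := by
    rw [d01_conj hda, jpr_d10_tau hv]; simp
  have hP : DifferentiableAt ℝ (fun y => tau z v y * conj (tau z v y)) z := hda.mul hdc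
  have p10 : d10 (fun y => tau z v y * conj (tau z v y)) z v = 0 := by
    rw [d10_mul hda hdc, hcz, tau_self]; ring
  have p01 : d01 (fun y => tau z v y * conj (tau z v y)) z v = 0 := by
    rw [d01_mul hda hdc, hcz, tau_self]; ring
  have pmx : mx (fun y => tau z v y * conj (tau z v y)) z v = 1 := by
    rw [mx_mul isOpen_univ hs.contDiffOn hsc.contDiffOn (Set.mem_univ z), jpr_mx_tau,
      jpr_d10_tau hv, e01c, e10c, tau_self]
    ring
  have hL : DifferentiableAt ℝ (fun y => tau z v y * β k) z := hda.mul (differentiableAt_const _)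
  have hQ : DifferentiableAt ℝ (fun y => tau z v y * conj (tau z v y) * δ k) z :=
    hP.mul (differentiableAt_const _)
  have hbL : DifferentiableAt ℝ (fun y => b k + tau z v y * β k) z :=
    (differentiableAt_const _).add hL
  have hfun : (fun y => bb z v b β δ y k) =
      fun y => (b k + tau z v y * β k) + tau z v y * conj (tau z v y) * δ k := rfl
  rw [hfun]
  refine ⟨?_, ?_, ?_⟩
  · have h1 := d10_add (a := v) hbL hQ
    have h2 := d10_add (a := v) (f := fun _ : E n => b k) (differentiableAt_const _) hL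
    have h3 := d10_mul (a := v) (g := fun _ : E n => β k) hda (differentiableAt_const _)
    have h4 := d10_mul (a := v) (g := fun _ : E n => δ k) hP (differentiableAt_const _)
    rw [h1, h2, h3, h4, p10, jpr_d10_tau hv, d10_const, d10_const, d10_const]
    ring
  · have h1 := d01_add (a := v) hbL hQ
    have h2 := d01_add (a := v) (f := fun _ : E n => b k) (differentiableAt_const _) hL
    have h3 := d01_mul (a := v) (g := fun _ : E n => β k) hda (differentiableAt_const _)
    have h4 := d01_mul (a := v) (g := fun _ : E n => δ k) hP (differentiableAt_const _)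
    rw [h1, h2, h3, h4, p01, jpr_d01_tau, d01_const, d01_const, d01_const]
    ring
  · have cL : ContDiff ℝ ∞ (fun y => tau z v y * β k) := hs.mul contDiff_const
    have cP : ContDiff ℝ ∞ (fun y => tau z v y * conj (tau z v y)) := hs.mul hsc
    have cQ : ContDiff ℝ ∞ (fun y => tau z v y * conj (tau z v y) * δ k) := cP.mul contDiff_const
    have cbL : ContDiff ℝ ∞ (fun y => b k + tau z v y * β k) := contDiff_const.add cL
    have h1 := mx_add (v := v) isOpen_univ cbL.contDiffOn cQ.contDiffOn (Set.mem_univ z)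
    have h2 := mx_add (v := v) (f := fun _ : E n => b k) isOpen_univ contDiffOn_const
      cL.contDiffOn (Set.mem_univ z)
    have h3 := mx_mul (v := v) (g := fun _ : E n => β k) isOpen_univ hs.contDiffOn
      contDiffOn_const (Set.mem_univ z)
    have h4 := mx_mul (v := v) (g := fun _ : E n => δ k) isOpen_univ cP.contDiffOn
      contDiffOn_const (Set.mem_univ z)
    rw [h1, h2, h3, h4, pmx, jpr_mx_tau, mx_const, mx_const, mx_const, d10_const, d10_const,
      d01_const, d01_const]
    ring

/-- jets of the conjugates of the coordinates of `bb` -/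
theorem jet_bbc (hv : v ≠ 0) (b β δ : E n) (k : Ix n) :
    d10 (fun y => conj (bb z v b β δ y k)) z v = 0 ∧
      d01 (fun y => conj (bb z v b β δ y k)) z v = conj (β k) ∧
      mx (fun y => conj (bb z v b β δ y k)) z v = conj (δ k) := by
  obtain ⟨h1, h2, h3⟩ := jet_bb (z := z) hv b β δ k
  have hs := smooth_bb z v b β δ k
  have hd : DifferentiableAt ℝ (fun y => bb z v b β δ y k) z :=
    hs.contDiffAt.differentiableAt (by simp)
  refine ⟨?_, ?_, ?_⟩
  · rw [d10_conj hd, h2]; simp
  · rw [d01_conj hd, h1]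
  · rw [mx_conj isOpen_univ hs.contDiffOn (Set.mem_univ z), h3]

end Pool.Agent.SKF
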