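import Pool.Agent.SKF.Sym
import Pool.Agent.SKF.Sol

/-!
Del (size 4): the linear equations for `β`, `γ`, `δ` are solvable. Always `v = XX w z b`.
By `sol` (F = `LM w z`, `levi_eq_sum` identifies `levi w z` and `hf (LM w z)`) a function
`r(l) = ∑ conj (l_k) ρ_k` is of the form `levi w z β l` if it vanishes on the kernel.
* `ex_bet`: `r(l) = - d10 (Lf w a l) z v`, conjugate linear in `l`; on the kernel `Cf_ker`.
* `ex_gam`: `r(m) = d10 (uu2 w a m) z v = Bf w b a m z` (`d10_XX`), on the kernel `Bf_ker` with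
  `Bf_symm12`, `Bf_symm23`.
* `ex_del`: we need `δ` with `levi w z a δ = s(a)`, `s(a) = - mx (Lf w a b) z v - d10 (Lf w a β) z v`
  (linear in `a`), i.e. `levi w z δ a = conj (s a)`: solvable if `s(a) = 0` for `a` in the kernel.
  Proof of that (`a` in the kernel, `β` a solution of `IsBet w z v b β`): apply `∂_a ∂̄_b` to
  `br (ub w b) (ub w v) = 0` (constant vectors `b`, `v`; `br_ub`, `br_d01`, `br_d10`) at `z`:
    `br (∂_a u_bb) (u_v) + br (∂_a u_b) (u_vb) + br (u_bb) (∂_a u_v) + br (u_b) (∂_a u_vb) = 0`.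
  First term 0 since `∂ u_v = F(., v̄) = 0` at `z` (`levi_XX_right`). Third term 0: the differential
  of `∂_a u_v` at `z` is `m ↦ d10 (Lf w a v) z m = conj (third w z v a m) = conj (Bf w b a m z) = 0`.
  Fourth term: `= d10 (fun y => d10 (uu2 w v b) y a) z v = mx (Lf w a b) z v` (commuting
  derivatives; `∂_v ∂_a ∂̄_b ∂̄_v w`). Second term: the differential of `u_vb = ∂̄_b ∂̄_v w` at `z` is
  `m ↦ d01 (Lf w m b) z v = conj (d10 (Lf w b m) z v) = - conj (levi w z β m) = - levi w z m β`,
  minus the differential of `u_β`; so the second term is `- br (∂_a u_b) (u_β) = br (u_β) (∂_a u_b)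
  = d10 (Lf w a b) z (XX w z β) = d10 (Lf w a β) z (XX w z b)` (`Cf_symm`) `= d10 (Lf w a β) z v`.
  So `mx (Lf w a b) z v + d10 (Lf w a β) z v = 0`.
The helper lemma `d10_uu2_bet` (used also in JetA, JetB, JetC) is the statement about the
differential of `u_vb`.
-/

open scoped ContDiff ComplexConjugate Topology
open Complex

namespace Pool.Agent.SKF

open Pool.Agent.DTW

variable {n : ℕ} {U : Set (E n)} {w : E n → ℝ} {z : E n}

private theorem Del_conj_sum (r : E n → ℂ) (hadd : ∀ l l', r (l + l') = r l + r l')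
    (hsmul : ∀ (c : ℂ) (l : E n), r (c • l) = conj c * r l) (l : E n) :
    r l = ∑ k, conj (l k) * r (e k) := by
  have h0 : r 0 = 0 := by
    have := hadd 0 0
    rw [add_zero] at this
    simpa using this
  let T : E n →+ ℂ := { toFun := r, map_zero' := h0, map_add' := hadd }
  have h : T l = ∑ k, T (l k • (e k : E n)) := by
    rw [← map_sum, ← vec_eq_sum l]
  have h2 : ∀ v, T v = r v := fun v => rfl
  rw [h2] at h
  rw [h]
  refine Finset.sum_congr rfl fun k _ => ?_
  rw [h2, hsmul]

private theorem Del_sol (L : Loc w U) (hz : z ∈ U) (r : E n → ℂ)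
    (hadd : ∀ l l', r (l + l') = r l + r l')
    (hsmul : ∀ (c : ℂ) (l : E n), r (c • l) = conj c * r l)
    (hker : ∀ l, (∀ c, levi w z l c = 0) → r l = 0) :
    ∃ β, ∀ l, levi w z β l = r l := by
  have hw : ContDiffAt ℝ ∞ w z := L.sm.contDiffAt (L.op.mem_nhds hz)
  have hhf : ∀ a c, hf (LM w z) a c = levi w z a c := fun a c => (levi_eq_sum hw a c).symm
  obtain ⟨β, hβ⟩ := sol (LM w z) (fun k => r (e k)) (by
    intro c hc
    rw [← Del_conj_sum r hadd hsmul c]
    apply hker
    intro a
    have h1 := hc a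
    rw [hhf] at h1
    have h2 := levi_conj L hz a c
    rw [h1, map_zero] at h2
    exact h2.symm)
  refine ⟨β, fun l => ?_⟩
  rw [← hhf, hβ l, ← Del_conj_sum r hadd hsmul l]

private theorem Del_diff {f : E n → ℂ} (L : Loc w U) (hf : ContDiffOn ℝ ∞ f U) (hz : z ∈ U) :
    DifferentiableAt ℝ f z := diffAt_of L.op hf hz

/-- if `β` solves the equation for `a`, then `∂ (∂̄_a ∂̄_v w) = - ∂ u_β` at `z`. (here `v` arbitrary) -/
theorem d10_uu2_bet (L : Loc w U) (hz : z ∈ U) {v a β : E n} (h : IsBet w z v a β) (m : E n) :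
    d10 (uu2 w v a) z m = -d10 (ub w β) z m ∧ d10 (uu2 w a v) z m = -d10 (ub w β) z m := by
  have h1 : d10 (uu2 w a v) z m = -d10 (ub w β) z m := by
    have h2 : d10 (uu2 w a v) z m = d01 (Lf w m a) z v := d10_d01_ub L hz m v a
    have h3 := conj_d10_Lf L hz a m v
    have h4 : levi w z β m = -d10 (Lf w a m) z v := h m
    have h5 := levi_conj L hz β m
    have h6 : d10 (ub w β) z m = levi w z m β := rfl
    rw [h2, ← h3, h6, ← h5, h4, map_neg, neg_neg]
  refine ⟨?_, h1⟩
  rw [← h1]
  refine d10_congr ?_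
  filter_upwards [L.op.mem_nhds hz] with y hy
  exact uu2_symm L hy v a

theorem ex_bet (L : Loc w U) (hz : z ∈ U) (b a : E n) : ∃ β, IsBet w z (XX w z b) a β := by
  have hd : ∀ l, DifferentiableAt ℝ (Lf w a l) z := fun l => Del_diff L (smooth_Lf L a l) hz
  refine Del_sol L hz (fun l => -d10 (Lf w a l) z (XX w z b)) ?_ ?_ ?_
  · intro l l'
    have h1 : d10 (Lf w a (l + l')) z (XX w z b)
        = d10 (fun y => Lf w a l y + Lf w a l' y) z (XX w z b) := by
      refine d10_congr ?_
      filter_upwards [L.op.mem_nhds hz] with y hy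
      exact levi_add_right L hy a l l'
    have h2 := d10_add (a := XX w z b) (hd l) (hd l')
    show -d10 (Lf w a (l + l')) z (XX w z b)
      = -d10 (Lf w a l) z (XX w z b) + -d10 (Lf w a l') z (XX w z b)
    rw [h1, h2]
    ring
  · intro c l
    have h1 : d10 (Lf w a (c • l)) z (XX w z b)
        = d10 (fun y => conj c * Lf w a l y) z (XX w z b) := by
      refine d10_congr ?_
      filter_upwards [L.op.mem_nhds hz] with y hy
      exact levi_smul_right L hy c a l
    have h2 := d10_const_mul (a := XX w z b) (hd l) (conj c)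
    show -d10 (Lf w a (c • l)) z (XX w z b) = conj c * -d10 (Lf w a l) z (XX w z b)
    rw [h1, h2]
    ring
  · intro l hl
    show -d10 (Lf w a l) z (XX w z b) = 0
    rw [Cf_ker L hz hl b a, neg_zero]

theorem ex_gam (L : Loc w U) (hz : z ∈ U) (b a : E n) : ∃ γ, IsGam w z (XX w z b) a γ := by
  have hw : ContDiffAt ℝ ∞ w z := L.sm.contDiffAt (L.op.mem_nhds hz)
  have hB : ∀ m, d10 (uu2 w a m) z (XX w z b) = Bf w b a m z := fun m =>
    d10_XX hw b (uu2 w a m)
  refine Del_sol L hz (fun m => d10 (uu2 w a m) z (XX w z b)) ?_ ?_ ?_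
  · intro m m'
    show d10 (uu2 w a (m + m')) z (XX w z b)
      = d10 (uu2 w a m) z (XX w z b) + d10 (uu2 w a m') z (XX w z b)
    rw [hB, hB, hB, Bf_add3 L hz]
  · intro c m
    show d10 (uu2 w a (c • m)) z (XX w z b) = conj c * d10 (uu2 w a m) z (XX w z b)
    rw [hB, hB, Bf_smul3 L hz]
  · intro m hm
    show d10 (uu2 w a m) z (XX w z b) = 0
    rw [hB, Bf_symm23 L hz, Bf_symm12 L hz, Bf_ker L hz hm]

private theorem Del_mx_add (L : Loc w U) (hz : z ∈ U) (a a' b v : E n) :
    mx (Lf w (a + a') b) z v = mx (Lf w a b) z v + mx (Lf w a' b) z v := by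
  have hs : ∀ a, ContDiffOn ℝ ∞ (fun y => d01 (Lf w a b) y v) U := fun a =>
    contDiffOn_d01 L.op (smooth_Lf L a b) v
  have h1 : mx (Lf w (a + a') b) z v
      = d10 (fun y => d01 (Lf w a b) y v + d01 (Lf w a' b) y v) z v := by
    refine d10_congr ?_
    filter_upwards [L.op.mem_nhds hz] with y hy
    have h2 : Lf w (a + a') b = fun x => Lf w a b x + Lf w a' b x := by
      funext x
      exact d10_add_vec _ _ _ _
    show d01 (Lf w (a + a') b) y v = d01 (Lf w a b) y v + d01 (Lf w a' b) y v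
    rw [h2]
    exact d01_add (Del_diff L (smooth_Lf L a b) hy) (Del_diff L (smooth_Lf L a' b) hy)
  rw [h1]
  exact d10_add (Del_diff L (hs a) hz) (Del_diff L (hs a') hz)

private theorem Del_mx_smul (L : Loc w U) (hz : z ∈ U) (c : ℂ) (a b v : E n) :
    mx (Lf w (c • a) b) z v = c * mx (Lf w a b) z v := by
  have hs : ∀ a, ContDiffOn ℝ ∞ (fun y => d01 (Lf w a b) y v) U := fun a =>
    contDiffOn_d01 L.op (smooth_Lf L a b) v
  have h1 : mx (Lf w (c • a) b) z v
      = d10 (fun y => c * d01 (Lf w a b) y v) z v := by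
    refine d10_congr ?_
    filter_upwards [L.op.mem_nhds hz] with y hy
    have h2 : Lf w (c • a) b = fun x => c * Lf w a b x := by
      funext x
      exact d10_smul_vec _ _ _ _
    show d01 (Lf w (c • a) b) y v = c * d01 (Lf w a b) y v
    rw [h2]
    exact d01_const_mul (Del_diff L (smooth_Lf L a b) hy) c
  rw [h1]
  exact d10_const_mul (Del_diff L (hs a) hz) c

private theorem Del_Lf_add (L : Loc w U) (hz : z ∈ U) (a a' b v : E n) :
    d10 (Lf w (a + a') b) z v = d10 (Lf w a b) z v + d10 (Lf w a' b) z v := by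
  have h2 : Lf w (a + a') b = fun x => Lf w a b x + Lf w a' b x := by
    funext x
    exact d10_add_vec _ _ _ _
  rw [h2]
  exact d10_add (Del_diff L (smooth_Lf L a b) hz) (Del_diff L (smooth_Lf L a' b) hz)

private theorem Del_Lf_smul (L : Loc w U) (hz : z ∈ U) (c : ℂ) (a b v : E n) :
    d10 (Lf w (c • a) b) z v = c * d10 (Lf w a b) z v := by
  have h2 : Lf w (c • a) b = fun x => c * Lf w a b x := by
    funext x
    exact d10_smul_vec _ _ _ _
  rw [h2]
  exact d10_const_mul (Del_diff L (smooth_Lf L a b) hz) c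

private theorem Del_key (L : Loc w U) (hz : z ∈ U) {b β : E n}
    (hβ : IsBet w z (XX w z b) b β) {a : E n} (ha : ∀ c, levi w z a c = 0) :
    mx (Lf w a b) z (XX w z b) + d10 (Lf w a β) z (XX w z b) = 0 := by
  have hw : ContDiffAt ℝ ∞ w z := L.sm.contDiffAt (L.op.mem_nhds hz)
  set v : E n := XX w z b with hv
  -- the relation on U
  have hR : ∀ y ∈ U, br (uu2 w b b) (ub w v) y + br (ub w b) (uu2 w v b) y = 0 := by
    intro y hy
    have h1 : d01 (br (ub w b) (ub w v)) y b
        = br (uu2 w b b) (ub w v) y + br (ub w b) (uu2 w v b) y :=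
      br_d01 L.op (smooth_ub L b) (smooth_ub L v) hy b
    have h2 : d01 (br (ub w b) (ub w v)) y b = d01 (fun _ : E n => (0 : ℂ)) y b := by
      refine d01_congr ?_
      filter_upwards [L.op.mem_nhds hy] with x hx
      exact br_ub L hx b v
    rw [← h1, h2, d01_const]
  have hs1 : ContDiffOn ℝ ∞ (br (uu2 w b b) (ub w v)) U :=
    smooth_br L.op (smooth_uu2 L b b) (smooth_ub L v)
  have hs2 : ContDiffOn ℝ ∞ (br (ub w b) (uu2 w v b)) U :=
    smooth_br L.op (smooth_ub L b) (smooth_uu2 L v b)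
  have h0 : d10 (fun y => br (uu2 w b b) (ub w v) y + br (ub w b) (uu2 w v b) y) z a = 0 := by
    have h1 : d10 (fun y => br (uu2 w b b) (ub w v) y + br (ub w b) (uu2 w v b) y) z a
        = d10 (fun _ : E n => (0 : ℂ)) z a := by
      refine d10_congr ?_
      filter_upwards [L.op.mem_nhds hz] with y hy
      exact hR y hy
    rw [h1, d10_const]
  rw [d10_add (Del_diff L hs1 hz) (Del_diff L hs2 hz),
    br_d10 L.op (smooth_uu2 L b b) (smooth_ub L v) hz a,
    br_d10 L.op (smooth_ub L b) (smooth_uu2 L v b) hz a] at h0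
  -- first term
  have t1 : br (fun y => d10 (uu2 w b b) y a) (ub w v) z = 0 := by
    refine br_zero_right ?_ _
    intro m
    exact levi_XX_right L hz b m
  -- third term
  have t3 : br (uu2 w b b) (fun y => d10 (ub w v) y a) z = 0 := by
    refine br_zero_right ?_ _
    intro m
    have h1 := conj_d10_Lf L hz a v m
    have h2 : Bf w b a m z = d01 (Lf w v a) z m := Bf_eq L hz b a m
    have h3 : Bf w b a m z = 0 := by rw [Bf_symm12 L hz, Bf_ker L hz ha]
    rw [← h2, h3] at h1
    have h4 : d10 (Lf w a v) z m = 0 := (map_eq_zero _).1 h1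
    exact h4
  -- fourth term
  have t4 : br (ub w b) (fun y => d10 (uu2 w v b) y a) z = mx (Lf w a b) z v := by
    rw [← d10_XX hw b, ← hv]
    refine d10_congr ?_
    filter_upwards [L.op.mem_nhds hz] with y hy
    have h1 : d10 (uu2 w v b) y a = d10 (uu2 w b v) y a := by
      refine d10_congr ?_
      filter_upwards [L.op.mem_nhds hy] with x hx
      exact uu2_symm L hx v b
    show d10 (uu2 w v b) y a = d01 (Lf w a b) y v
    rw [h1]
    exact d10_d01_ub L hy a v b
  -- second term
  have t2 : br (fun y => d10 (ub w b) y a) (uu2 w v b) z = d10 (Lf w a β) z v := by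
    have h1 : br (Lf w a b) (uu2 w v b) z
        = (-1) * br (Lf w a b) (ub w β) z + 0 * br (Lf w a b) (ub w β) z := by
      refine br_right (-1) 0 ?_ _
      intro m
      rw [(d10_uu2_bet L hz hβ m).1]
      ring
    have h2 : br (Lf w a b) (ub w β) z = -br (ub w β) (Lf w a b) z := br_anti _ _ _
    have h3 : d10 (Lf w a b) z (XX w z β) = br (ub w β) (Lf w a b) z := d10_XX hw β _
    have h4 : d10 (Lf w a b) z (XX w z β) = d10 (Lf w a β) z (XX w z b) := Cf_symm L hz β a b
    have h5 : br (fun y => d10 (ub w b) y a) (uu2 w v b) z = br (Lf w a b) (uu2 w v b) z := rfl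
    rw [h5, h1, h2, ← h3, h4, ← hv]
    ring
  rw [t1, t2, t3, t4] at h0
  linear_combination h0

theorem ex_del (L : Loc w U) (hz : z ∈ U) {b β : E n} (hβ : IsBet w z (XX w z b) b β) :
    ∃ δ, IsDel w z (XX w z b) b β δ := by
  obtain ⟨δ, hδ⟩ := Del_sol L hz
    (fun a => conj (-mx (Lf w a b) z (XX w z b) - d10 (Lf w a β) z (XX w z b))) (by
      intro a a'
      show conj (-mx (Lf w (a + a') b) z (XX w z b) - d10 (Lf w (a + a') β) z (XX w z b))
        = conj (-mx (Lf w a b) z (XX w z b) - d10 (Lf w a β) z (XX w z b))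
          + conj (-mx (Lf w a' b) z (XX w z b) - d10 (Lf w a' β) z (XX w z b))
      rw [Del_mx_add L hz, Del_Lf_add L hz, ← map_add]
      congr 1
      ring) (by
      intro c a
      show conj (-mx (Lf w (c • a) b) z (XX w z b) - d10 (Lf w (c • a) β) z (XX w z b))
        = conj c * conj (-mx (Lf w a b) z (XX w z b) - d10 (Lf w a β) z (XX w z b))
      rw [Del_mx_smul L hz, Del_Lf_smul L hz, ← map_mul]
      congr 1
      ring) (by
      intro a ha
      have h1 := Del_key L hz hβ ha
      show conj (-mx (Lf w a b) z (XX w z b) - d10 (Lf w a β) z (XX w z b)) = 0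
      have h2 : -mx (Lf w a b) z (XX w z b) - d10 (Lf w a β) z (XX w z b) = 0 := by
        linear_combination -h1
      rw [h2, map_zero])
  refine ⟨δ, fun a => ?_⟩
  have h1 := hδ a
  have h2 := levi_conj L hz δ a
  rw [← h2, h1, Complex.conj_conj]

end Pool.Agent.SKF
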