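import Pool.Agent.SKF.Del

/-!
JetA (size 4): second derivative of the Levi form in the direction `v = XX w z b`.
Proof. Apply `∂_a ∂̄_a'` to `br (ub w b) (ub w v) = 0` (constant `b`, `v`) at `z`:
  `br (∂_a u_ba') (u_v) + br (∂_a u_b) (u_va') + br (u_ba') (∂_a u_v) + br (u_b) (∂_a u_va') = 0`,
where `u_xy = ∂̄_y u_x`. First term 0 (`∂ u_v = 0` at `z`). Fourth term `= mx (Lf w a a') z v`
(commute the derivatives: `∂_v ∂_a ∂̄_a' ∂̄_v w`). Second term: `∂ u_va' = - ∂ u_β'` (`d10_uu2_bet`,
`β'` for `a'`), so it is `- br (∂_a u_b) (u_β') = br (u_β') (∂_a u_b) = d10 (Lf w a b) z (XX w z β')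
= d10 (Lf w a β') z v` (`Cf_symm`) `= - levi w z β β'` (`IsBet` for `a`). Third term: the differential
of `∂_a u_v` at `z` is `m ↦ ∂_m ∂_a ∂̄_v w = conj (∂̄_m ∂̄_a ∂_v w) = conj (levi w z γ m) = levi w z m γ`
(`IsGam` for `a`), the differential of `u_γ`; so the third term is `br (u_ba') (u_γ)
= - Bf w γ b a' z = - Bf w b a' γ z = - levi w z γ' γ` (`IsGam` for `a'`, symmetries).
-/

open scoped ContDiff ComplexConjugate Topology
open Complex

namespace Pool.Agent.SKF

open Pool.Agent.DTW

variable {n : ℕ} {U : Set (E n)} {w : E n → ℝ} {z : E n}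

theorem jetA (L : Loc w U) (hz : z ∈ U) (b a a' β β' γ γ' : E n)
    (hβ : IsBet w z (XX w z b) a β) (hβ' : IsBet w z (XX w z b) a' β')
    (hγ : IsGam w z (XX w z b) a γ) (hγ' : IsGam w z (XX w z b) a' γ') :
    mx (Lf w a a') z (XX w z b) = levi w z β β' + levi w z γ' γ := by
  have hw : ContDiffAt ℝ ∞ w z := L.sm.contDiffAt (L.op.mem_nhds hz)
  set v : E n := XX w z b with hv
  -- first derivative, on `U`
  have h1 : ∀ y ∈ U, br (uu2 w b a') (ub w v) y + br (ub w b) (uu2 w v a') y = 0 := by
    intro y hy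
    have e := br_d01 L.op (smooth_ub L b) (smooth_ub L v) hy a'
    have e0 : d01 (br (ub w b) (ub w v)) y a' = 0 := by
      have hc : br (ub w b) (ub w v) =ᶠ[𝓝 y] fun _ => 0 := by
        filter_upwards [L.op.mem_nhds hy] with x hx
        exact br_ub L hx b v
      rw [d01_congr hc, d01_const]
    rw [e0] at e
    exact e.symm
  -- second derivative at `z`
  have hs1 := smooth_br L.op (smooth_uu2 L b a') (smooth_ub L v)
  have hs2 := smooth_br L.op (smooth_ub L b) (smooth_uu2 L v a')
  have h2 : d10 (br (uu2 w b a') (ub w v)) z a + d10 (br (ub w b) (uu2 w v a')) z a = 0 := by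
    have hc : (fun y => br (uu2 w b a') (ub w v) y + br (ub w b) (uu2 w v a') y)
        =ᶠ[𝓝 z] fun _ => 0 := by
      filter_upwards [L.op.mem_nhds hz] with x hx
      exact h1 x hx
    rw [← d10_add (diffAt_of L.op hs1 hz) (diffAt_of L.op hs2 hz), d10_congr hc, d10_const]
  rw [br_d10 L.op (smooth_uu2 L b a') (smooth_ub L v) hz a,
    br_d10 L.op (smooth_ub L b) (smooth_uu2 L v a') hz a] at h2
  -- the four terms
  have t1 : br (fun y => d10 (uu2 w b a') y a) (ub w v) z = 0 :=
    br_zero_right (fun m => levi_XX_right L hz b m) _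
  have t4 : br (ub w b) (fun y => d10 (uu2 w v a') y a) z = mx (Lf w a a') z v := by
    rw [← d10_XX hw b]
    have hc : (fun y => d10 (uu2 w v a') y a) =ᶠ[𝓝 z] fun y => d01 (Lf w a a') y v := by
      filter_upwards [L.op.mem_nhds hz] with y hy
      have hc2 : uu2 w v a' =ᶠ[𝓝 y] uu2 w a' v := by
        filter_upwards [L.op.mem_nhds hy] with x hx
        exact uu2_symm L hx v a'
      rw [d10_congr hc2]
      exact d10_d01_ub L hy a v a'
    exact d10_congr hc
  have t2 : br (fun y => d10 (ub w b) y a) (uu2 w v a') z = -levi w z β β' := by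
    have e1 : br (fun y => d10 (ub w b) y a) (uu2 w v a') z
        = (-1) * br (fun y => d10 (ub w b) y a) (ub w β') z
          + 0 * br (fun y => d10 (ub w b) y a) (ub w β') z := by
      refine br_right (-1) 0 ?_ _
      intro m
      rw [(d10_uu2_bet L hz hβ' m).1]
      ring
    have e2 : br (ub w β') (fun y => d10 (ub w b) y a) z
        = d10 (Lf w a b) z (XX w z β') := (d10_XX hw β' (Lf w a b)).symm
    rw [e1, br_anti (fun y => d10 (ub w b) y a) (ub w β'), e2, Cf_symm L hz β' a b]
    have e3 := hβ β'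
    rw [e3]
    ring
  have t3 : br (uu2 w b a') (fun y => d10 (ub w v) y a) z = -levi w z γ' γ := by
    have e0 : ∀ m, d10 (fun y => d10 (ub w v) y a) z m = d10 (ub w γ) z m := by
      intro m
      have c1 : conj (d10 (Lf w a v) z m) = levi w z γ m := by
        rw [conj_d10_Lf L hz a v m, ← d10_d01_ub L hz v m a]
        exact (hγ m).symm
      have c2 : d10 (Lf w a v) z m = levi w z m γ := by
        rw [← levi_conj L hz γ m, ← c1, Complex.conj_conj]
      exact c2
    have e1 : br (uu2 w b a') (fun y => d10 (ub w v) y a) z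
        = 1 * br (uu2 w b a') (ub w γ) z + 0 * br (uu2 w b a') (ub w γ) z := by
      refine br_right 1 0 ?_ _
      intro m
      rw [e0 m]
      ring
    have e2 : br (ub w γ) (uu2 w b a') z = levi w z γ' γ := by
      have f1 : br (ub w γ) (uu2 w b a') z = Bf w γ b a' z := rfl
      have f2 : Bf w b a' γ z = d10 (uu2 w a' γ) z v := (d10_XX hw b (uu2 w a' γ)).symm
      rw [f1, Bf_symm12 L hz γ b a', Bf_symm23 L hz b γ a', f2]
      exact (hγ' γ).symm
    rw [e1, br_anti (uu2 w b a') (ub w γ), e2]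
    ring
  rw [t1, t2, t3, t4] at h2
  linear_combination h2

end Pool.Agent.SKF
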