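import Pool.Agent.SKF.BrA

/-!
LvA (size 4): calculus of `ub`, `uu2`, `Lf`, `Bf`. Everything follows from
DTW.Base / DTW.Comm (`d10_mul`, `d10_sum`, `d10_const_mul`, `d10_d10_comm`, `d10_d01_comm`,
`contDiffOn_d10`, `d10_eq_sum`, `levi_eq_sum`, `sum_sg_anti`, `sum_swap`, `sg_swap`, `sg_sq`).
Note `levi w z a b = d10 (ub w b) z a` and `mx (cx w) z v = levi w z v v` hold by `rfl`.
-/

open scoped ContDiff ComplexConjugate Topology
open Complex

namespace Pool.Agent.SKF

open Pool.Agent.DTW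

variable {n : ℕ} {U : Set (E n)} {g h : E n → ℂ} {w : E n → ℝ} {z : E n}

private theorem LvA_levi_e (hw : ContDiffAt ℝ ∞ w z) (b : E n) (k : Ix n) :
    levi w z (e k) b = ∑ l, LM w z k l * conj (b l) := by
  rw [levi_eq_sum hw, Finset.sum_eq_single k]
  · refine Finset.sum_congr rfl fun j _ => ?_
    simp only [e, Pi.single_eq_same]
    ring
  · intro i _ hi
    refine Finset.sum_eq_zero fun j _ => ?_
    simp [e, Pi.single_eq_of_ne hi]
  · intro h
    exact absurd (Finset.mem_univ _) h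

private theorem LvA_at (L : Loc w U) (hz : z ∈ U) : ContDiffAt ℝ ∞ w z :=
  L.sm.contDiffAt (L.op.mem_nhds hz)

/-- Proof: `XX w z b k = sg k * ∑ j, LM w z k.swap j * conj (b j)` and `levi_eq_sum`. -/
theorem XX_apply (hw : ContDiffAt ℝ ∞ w z) (b : E n) (k : Ix n) :
    XX w z b k = sg k * levi w z (e k.swap) b := by
  rw [LvA_levi_e hw]
  rfl

/-- `X_b h = {u_b, h}` -/
theorem d10_XX (hw : ContDiffAt ℝ ∞ w z) (b : E n) (h : E n → ℂ) :
    d10 h z (XX w z b) = br (ub w b) h z := by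
  rw [d10_eq_sum]
  unfold br
  refine Finset.sum_congr rfl fun k _ => ?_
  rw [XX_apply hw]
  rfl

/-- `{u_b, u_c} = 0`: expand `levi w z (e k) b = ∑ l, conj (b l) * LM w z k l` and use `Iso`. -/
theorem br_ub (L : Loc w U) (hz : z ∈ U) (b c : E n) : br (ub w b) (ub w c) z = 0 := by
  have hw := LvA_at L hz
  have h1 : br (ub w b) (ub w c) z
      = ∑ k : Ix n, sg k * levi w z (e k.swap) b * levi w z (e k) c := rfl
  rw [h1]
  have h2 : ∀ k : Ix n, sg k * levi w z (e k.swap) b * levi w z (e k) c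
      = ∑ i, ∑ j, conj (b i) * conj (c j) * (sg k * LM w z k.swap i * LM w z k j) := by
    intro k
    rw [LvA_levi_e hw, LvA_levi_e hw, mul_assoc, Finset.sum_mul_sum, Finset.mul_sum]
    refine Finset.sum_congr rfl fun i _ => ?_
    rw [Finset.mul_sum]
    refine Finset.sum_congr rfl fun j _ => ?_
    ring
  simp only [h2]
  rw [Finset.sum_comm]
  refine Finset.sum_eq_zero fun i _ => ?_
  rw [Finset.sum_comm]
  refine Finset.sum_eq_zero fun j _ => ?_
  rw [← Finset.mul_sum, L.iso z hz i j, mul_zero]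

theorem smooth_ub (L : Loc w U) (b : E n) : ContDiffOn ℝ ∞ (ub w b) U := contDiffOn_d01 L.op (contDiffOn_cx L.sm) b

theorem smooth_uu2 (L : Loc w U) (c d : E n) : ContDiffOn ℝ ∞ (uu2 w c d) U := contDiffOn_d01 L.op (smooth_ub L c) d

theorem smooth_Lf (L : Loc w U) (a b : E n) : ContDiffOn ℝ ∞ (Lf w a b) U := contDiffOn_d10 L.op (smooth_ub L b) a

theorem smooth_Bf (L : Loc w U) (b c d : E n) : ContDiffOn ℝ ∞ (Bf w b c d) U := smooth_br L.op (smooth_ub L b) (smooth_uu2 L c d)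

/-- hermitian: `LM_conj` and `levi_eq_sum` -/
theorem levi_conj (L : Loc w U) (hz : z ∈ U) (a b : E n) :
    conj (levi w z a b) = levi w z b a := by
  have hw := LvA_at L hz
  rw [levi_eq_sum hw, levi_eq_sum hw, Finset.sum_comm]
  simp only [map_sum, map_mul, Complex.conj_conj, LM_conj L.op L.sm hz]
  refine Finset.sum_congr rfl fun k _ => Finset.sum_congr rfl fun l _ => ?_
  ring

theorem levi_add_left (L : Loc w U) (hz : z ∈ U) (a a' b : E n) :
    levi w z (a + a') b = levi w z a b + levi w z a' b := d10_add_vec _ _ _ _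

theorem levi_smul_left (L : Loc w U) (hz : z ∈ U) (c : ℂ) (a b : E n) :
    levi w z (c • a) b = c * levi w z a b := d10_smul_vec _ _ _ _

theorem levi_add_right (L : Loc w U) (hz : z ∈ U) (a b b' : E n) :
    levi w z a (b + b') = levi w z a b + levi w z a b' := by
  rw [← levi_conj L hz, levi_add_left L hz, map_add, levi_conj L hz, levi_conj L hz]

theorem levi_smul_right (L : Loc w U) (hz : z ∈ U) (c : ℂ) (a b : E n) :
    levi w z a (c • b) = conj c * levi w z a b := by
  rw [← levi_conj L hz, levi_smul_left L hz, map_mul, levi_conj L hz]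

/-- `w_(a c̄ d̄)` computed in the other order -/
theorem d10_uu2 (L : Loc w U) (hz : z ∈ U) (c d a : E n) :
    d10 (uu2 w c d) z a = third w z a c d := d10_d01_comm ((smooth_ub L c).contDiffAt (L.op.mem_nhds hz)) a d

/-- `Bf w b c d z = w_(X_b c̄ d̄)` -/
theorem Bf_eq (L : Loc w U) (hz : z ∈ U) (b c d : E n) :
    Bf w b c d z = third w z (XX w z b) c d := by
  rw [← d10_uu2 L hz, d10_XX (LvA_at L hz)]
  rfl

theorem uu2_symm (L : Loc w U) (hz : z ∈ U) (c d : E n) : uu2 w c d z = uu2 w d c z := d01_d01_comm ((contDiffOn_cx L.sm).contDiffAt (L.op.mem_nhds hz)) d c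

/-- on `U`: `∂_a u_b = w_(a b̄)` (`rfl`) and `∂_v (w_(a l̄)) = ∂_a (w_(v l̄))` -/
theorem d10_Lf_symm (L : Loc w U) (hz : z ∈ U) (a v l : E n) :
    d10 (Lf w a l) z v = d10 (Lf w v l) z a := d10_d10_comm ((smooth_ub L l).contDiffAt (L.op.mem_nhds hz)) v a

/-- `∂_a (∂̄_v u_b) = ∂̄_v (w_(a b̄))` -/
theorem d10_d01_ub (L : Loc w U) (hz : z ∈ U) (a v b : E n) :
    d10 (fun y => d01 (ub w b) y v) z a = d01 (Lf w a b) z v := d10_d01_comm ((smooth_ub L b).contDiffAt (L.op.mem_nhds hz)) a v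

/-- conjugation: `conj (∂_v w_(a b̄)) = ∂̄_v w_(b ā)` -/
theorem conj_d10_Lf (L : Loc w U) (hz : z ∈ U) (a b v : E n) :
    conj (d10 (Lf w a b) z v) = d01 (Lf w b a) z v := by
  have h1 : DifferentiableAt ℝ (Lf w a b) z := diffAt_of L.op (smooth_Lf L a b) hz
  rw [← d01_conj h1]
  refine d01_congr ?_
  filter_upwards [L.op.mem_nhds hz] with y hy
  exact levi_conj L hy a b

/-- conjugation of the mixed second derivative -/
theorem conj_mx_Lf (L : Loc w U) (hz : z ∈ U) (a b v : E n) :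
    conj (mx (Lf w a b) z v) = mx (Lf w b a) z v := by
  have h1 : DifferentiableAt ℝ (fun y => d01 (Lf w a b) y v) z :=
    diffAt_of L.op (contDiffOn_d01 L.op (smooth_Lf L a b) v) hz
  unfold mx
  rw [← d01_conj h1, d10_d01_comm ((smooth_Lf L b a).contDiffAt (L.op.mem_nhds hz)) v v]
  refine d01_congr ?_
  filter_upwards [L.op.mem_nhds hz] with y hy
  have h2 : DifferentiableAt ℝ (Lf w a b) y := diffAt_of L.op (smooth_Lf L a b) hy
  rw [← d10_conj h2]
  refine d10_congr ?_
  filter_upwards [L.op.mem_nhds hy] with x hx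
  exact levi_conj L hx a b

end Pool.Agent.SKF
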