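import Pool.Agent.SKF.Sym

/-!
Inv (size 5): the Levi form and the cubic form are the same in all charts.
Setting: `B : Bundle A`, `z ∈ Uo A i j` (overlap in the coordinates of chart `i`), `φ = ph A i j`,
`z' = φ z`, `T_y = fderiv ℂ φ y` (`= TT φ y` as a matrix, `TT_apply`).
`inv_levi`: `chg_wt` (DTW.Glo) and `levi_eq_sum`.
`inv_XX`: `S (XX w z b) a' = levi w z a' b` (`S_XX` with `t = 1`). `S (T XX_i b) (T a') = S (XX_i b) a'
= levi_i a' b = levi_j (T a') (T b) = S (XX_j (T b)) (T a')`; `T` is surjective (symplectic, or a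
left inverse exists because `S` is nondegenerate, dimension), `S` nondegenerate: `S_single`.
`inv_Bf`: on the overlap `levi (B.wt i) y a c = ∑_pq (T_y a)_p conj ((T_y c)_q) LM (B.wt j) (φ y) p q`.
Apply `∂̄_d` at `z`: `T_y` is holomorphic in `y`, so `∂̄_d ((T_y a)_p) = 0` and
`∂̄_d (conj ((T_y c)_q)) = conj (∂_d ((T_y c)_q))`, and `d01_comp` for the last factor. Result:
`third (B.wt i) z a c d = levi (B.wt j) z' (T a) (∂_d T_y c) + third (B.wt j) z' (T a) (T c) (T d)`.
For `a = XX (B.wt i) z b`, `T a = XX (B.wt j) z' (T b)` is in the kernel (`levi_XX_left`).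
-/

open scoped ContDiff ComplexConjugate Topology
open Complex

namespace Pool.Agent.SKF

open Pool.Agent.DTW

variable {n : ℕ} {X : Type*} [TopologicalSpace X] {ι : Type*} {A : Atlas n X ι}

private theorem inv_S_ext {a a' : E n} (h : ∀ b, S a b = S a' b) : a = a' := by
  funext k
  have h3 := h (e k.swap)
  rw [S_single, S_single, Sum.swap_swap, sg_swap, neg_neg] at h3
  have h4 : sg k ≠ 0 := by
    intro h0
    have := sg_sq k
    rw [h0] at this
    simp at this
  exact mul_left_cancel₀ h4 h3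

private theorem inv_S_zero (b : E n) : S (0 : E n) b = 0 := by
  unfold S
  simp

private theorem inv_smi (B : Bundle A) {i j : ι} {z : E n} (hz : z ∈ Uo A i j) :
    ContDiffAt ℝ ∞ (B.wt i) z :=
  ContDiffOn.contDiffAt (B.smooth i) ((A.c i).open_target.mem_nhds hz.1)

private theorem inv_smj (B : Bundle A) {i j : ι} {z : E n} (hz : z ∈ Uo A i j) :
    ContDiffAt ℝ ∞ (B.wt j) (ph A i j z) :=
  ContDiffOn.contDiffAt (B.smooth j) ((A.c j).open_target.mem_nhds (ph_mem hz))

theorem inv_levi (B : Bundle A) {i j : ι} {z : E n} (hz : z ∈ Uo A i j) (a b : E n) :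
    levi (B.wt i) z a b = levi (B.wt j) (ph A i j z) (fderiv ℂ (ph A i j) z a)
      (fderiv ℂ (ph A i j) z b) := by
  rw [levi_eq_sum (inv_smi B hz), levi_eq_sum (inv_smj B hz)]
  have h1 : ∀ k l, a k * conj (b l) * LM (B.wt i) z k l
      = ∑ p, ∑ q, a k * conj (b l) * (TT (ph A i j) z p k * conj (TT (ph A i j) z q l)
      * LM (B.wt j) (ph A i j z) p q) := by
    intro k l
    rw [chg_wt B hz, Finset.mul_sum]
    refine Finset.sum_congr rfl fun p _ => ?_
    rw [Finset.mul_sum]
  simp only [h1]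
  rw [sum4]
  refine Finset.sum_congr rfl fun p _ => Finset.sum_congr rfl fun q _ => ?_
  rw [TT_apply, TT_apply, map_sum, Finset.sum_mul_sum, Finset.sum_mul]
  refine Finset.sum_congr rfl fun k _ => ?_
  rw [Finset.sum_mul]
  refine Finset.sum_congr rfl fun l _ => ?_
  rw [map_mul]
  ring

private theorem inv_inj {i j : ι} {z : E n} (hz : z ∈ Uo A i j) :
    Function.Injective (fderiv ℂ (ph A i j) z) := by
  intro a a' h
  refine inv_S_ext fun b => ?_
  have h1 := A.symp i j z hz.1 hz.2 a b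
  have h2 := A.symp i j z hz.1 hz.2 a' b
  have h3 : fderiv ℂ (A.c j ∘ (A.c i).symm) z a = fderiv ℂ (A.c j ∘ (A.c i).symm) z a' := h
  rw [← h1, ← h2, h3]

/-- the derivative of a change of charts is bijective -/
theorem inv_bij {i j : ι} {z : E n} (hz : z ∈ Uo A i j) :
    Function.Bijective (fderiv ℂ (ph A i j) z) := by
  refine ⟨inv_inj hz, ?_⟩
  have h1 : Function.Injective ((fderiv ℂ (ph A i j) z : E n →L[ℂ] E n) : E n →ₗ[ℂ] E n) :=
    inv_inj hz
  exact LinearMap.injective_iff_surjective.1 h1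

private theorem inv_XX (B : Bundle A) {i j : ι} {z : E n} (hz : z ∈ Uo A i j) (b : E n) :
    fderiv ℂ (ph A i j) z (XX (B.wt i) z b)
      = XX (B.wt j) (ph A i j z) (fderiv ℂ (ph A i j) z b) := by
  refine inv_S_ext fun v => ?_
  obtain ⟨a', rfl⟩ := (inv_bij hz).2 v
  have h1 := A.symp i j z hz.1 hz.2 (XX (B.wt i) z b) a'
  have h2 := S_XX (inv_smi B hz) 1 b a'
  have h3 := S_XX (inv_smj B hz) 1 (fderiv ℂ (ph A i j) z b) (fderiv ℂ (ph A i j) z a')
  rw [one_smul, one_mul] at h2 h3
  rw [h3, ← inv_levi B hz, ← h2]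
  exact h1

private theorem inv_diffT {i j : ι} {z : E n} (hz : z ∈ Uo A i j) (a : E n) (p : Ix n) :
    DifferentiableAt ℂ (fun y => fderiv ℂ (ph A i j) y a p) z := by
  have h2 : ContDiffAt ℂ ∞ (fderiv ℂ (ph A i j)) z :=
    ((contDiffOn_ph A i j).contDiffAt ((isOpen_Uo A i j).mem_nhds hz)).fderiv_right
      (m := ∞) (by simp)
  have h3 : DifferentiableAt ℂ (fun y => fderiv ℂ (ph A i j) y a) z :=
    (h2.clm_apply contDiffAt_const).differentiableAt (by simp)
  exact differentiableAt_pi.1 h3 p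

private theorem inv_third_sum {w : E n → ℝ} {U : Set (E n)} (hU : IsOpen U)
    (hw : ContDiffOn ℝ ∞ w U) {z : E n} (hz : z ∈ U) (a c d : E n) :
    third w z a c d = ∑ p, ∑ q, a p * conj (c q) * d01 (fun y => LM w y p q) z d := by
  unfold third
  have h1 : (fun y => levi w y a c) =ᶠ[𝓝 z]
      fun y => ∑ p, ∑ q, a p * conj (c q) * LM w y p q := by
    filter_upwards [hU.mem_nhds hz] with y hy
    exact levi_eq_sum (hw.contDiffAt (hU.mem_nhds hy)) a c
  have hd : ∀ p q, DifferentiableAt ℝ (fun y => LM w y p q) z := fun p q =>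
    diffAt_of hU (contDiffOn_LM hU hw p q) hz
  rw [d01_congr h1]
  have h2 := d01_sum (z := z) (a := d) Finset.univ
    (fun p y => ∑ q, a p * conj (c q) * LM w y p q)
    (fun p _ => DifferentiableAt.fun_sum fun q _ => (hd p q).const_mul _)
  rw [h2]
  refine Finset.sum_congr rfl fun p _ => ?_
  have h3 := d01_sum (z := z) (a := d) Finset.univ
    (fun q y => a p * conj (c q) * LM w y p q)
    (fun q _ => (hd p q).const_mul _)
  rw [h3]
  refine Finset.sum_congr rfl fun q _ => ?_
  exact d01_const_mul (hd p q) _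

private theorem inv_third (B : Bundle A) {i j : ι} {z : E n} (hz : z ∈ Uo A i j)
    (a c d : E n) :
    third (B.wt i) z a c d
      = levi (B.wt j) (ph A i j z) (fderiv ℂ (ph A i j) z a)
          (fun q => d10 (fun y => fderiv ℂ (ph A i j) y c q) z d)
        + third (B.wt j) (ph A i j z) (fderiv ℂ (ph A i j) z a) (fderiv ℂ (ph A i j) z c)
          (fderiv ℂ (ph A i j) z d) := by
  have hwj : ContDiffOn ℝ ∞ (B.wt j) (A.c j).target := B.smooth j
  rw [inv_third_sum (A.c j).open_target hwj (ph_mem hz), levi_eq_sum (inv_smj B hz)]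
  unfold third
  have h1 : (fun y => levi (B.wt i) y a c) =ᶠ[𝓝 z]
      fun y => ∑ p, ∑ q, fderiv ℂ (ph A i j) y a p * conj (fderiv ℂ (ph A i j) y c q)
        * LM (B.wt j) (ph A i j y) p q := by
    filter_upwards [(isOpen_Uo A i j).mem_nhds hz] with y hy
    rw [inv_levi B hy, levi_eq_sum (inv_smj B hy)]
  have hφ : DifferentiableAt ℂ (ph A i j) z :=
    ((contDiffOn_ph A i j).contDiffAt ((isOpen_Uo A i j).mem_nhds hz)).differentiableAt
      (by simp)
  have hL : ∀ p q, DifferentiableAt ℝ (fun y => LM (B.wt j) y p q) (ph A i j z) := fun p q =>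
    diffAt_of (A.c j).open_target (contDiffOn_LM (A.c j).open_target (B.smooth j) p q)
      (ph_mem hz)
  have hLc : ∀ p q, DifferentiableAt ℝ (fun y => LM (B.wt j) (ph A i j y) p q) z := fun p q =>
    DifferentiableAt.comp (g := fun y => LM (B.wt j) y p q) z (hL p q)
      (hφ.restrictScalars ℝ)
  have hTa : ∀ (v : E n) p, DifferentiableAt ℝ (fun y => fderiv ℂ (ph A i j) y v p) z :=
    fun v p => (inv_diffT hz v p).restrictScalars ℝ
  have hpq : ∀ p q, DifferentiableAt ℝ (fun y => fderiv ℂ (ph A i j) y a p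
      * conj (fderiv ℂ (ph A i j) y c q) * LM (B.wt j) (ph A i j y) p q) z := fun p q =>
    ((hTa a p).mul (conjd (hTa c q))).mul (hLc p q)
  rw [d01_congr h1]
  have h2 := d01_sum (z := z) (a := d) Finset.univ
    (fun p y => ∑ q, fderiv ℂ (ph A i j) y a p * conj (fderiv ℂ (ph A i j) y c q)
        * LM (B.wt j) (ph A i j y) p q)
    (fun p _ => DifferentiableAt.fun_sum fun q _ => hpq p q)
  rw [h2, ← Finset.sum_add_distrib]
  refine Finset.sum_congr rfl fun p _ => ?_
  have h3 := d01_sum (z := z) (a := d) Finset.univ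
    (fun q y => fderiv ℂ (ph A i j) y a p * conj (fderiv ℂ (ph A i j) y c q)
        * LM (B.wt j) (ph A i j y) p q)
    (fun q _ => hpq p q)
  rw [h3, ← Finset.sum_add_distrib]
  refine Finset.sum_congr rfl fun q _ => ?_
  have h4 := d01_mul (z := z) (a := d) ((hTa a p).mul (conjd (hTa c q))) (hLc p q)
  have h5 := d01_mul (z := z) (a := d) (hTa a p) (conjd (hTa c q))
  have h6 := d01_conj (z := z) (a := d) (hTa c q)
  have h7 := d01_of_diff (inv_diffT hz a p) d
  have h8 := d01_comp (G := fun y => LM (B.wt j) y p q) hφ (hL p q) d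
  have h4' : d01 (fun y => fderiv ℂ (ph A i j) y a p * conj (fderiv ℂ (ph A i j) y c q)
      * LM (B.wt j) (ph A i j y) p q) z d
      = d01 (fun y => fderiv ℂ (ph A i j) y a p * conj (fderiv ℂ (ph A i j) y c q)) z d
        * LM (B.wt j) (ph A i j z) p q
        + fderiv ℂ (ph A i j) z a p * conj (fderiv ℂ (ph A i j) z c q)
        * d01 (fun y => LM (B.wt j) (ph A i j y) p q) z d := h4
  rw [h4', h5, h6, h7, h8]
  ring

theorem inv_Bf (B : Bundle A) (L : ∀ i, Loc (B.wt i) (A.c i).target) {i j : ι} {z : E n}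
    (hz : z ∈ Uo A i j) (b c d : E n) :
    Bf (B.wt i) b c d z = Bf (B.wt j) (fderiv ℂ (ph A i j) z b) (fderiv ℂ (ph A i j) z c)
      (fderiv ℂ (ph A i j) z d) (ph A i j z) := by
  rw [Bf_eq (L i) hz.1, Bf_eq (L j) (ph_mem hz), inv_third B hz, inv_XX B hz,
    levi_XX_left (L j) (ph_mem hz), zero_add]

end Pool.Agent.SKF
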