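import Pool.Agent.SKF.Defs

/-!
Spc (size 5): pure linear algebra. `F` positive semidefinite, `B` a symmetric function of three
vectors, conjugate linear in each, with `‖B b c d‖ ≤ K ‖F b̄‖ ‖c‖ sqrt (F(d,d̄))`; then
`‖B b b b‖² ≤ K² (2n)³ F(b,b̄)³`.
Proof. Norms of `E n` are sup norms. Spectral theorem for the hermitian matrix `F`
(`Matrix.IsHermitian.eigenvectorBasis`, see `Psd.matrix`): a basis `f_i`, `i : Ix n`, of `E n`,
orthonormal for `∑ conj x_k y_k` (so sup norm `≤ 1`), with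
`∑_l F k l conj (f_i l) = λ_i conj (f_i k)` after possibly conjugating the eigenvectors, `λ_i ≥ 0`,
so that `hf F f_i f_j = λ_i δ_ij` and the vector `k ↦ hf F (e k) f_i` has sup norm `≤ λ_i`.
So `‖B f_p f_j f_l‖ ≤ K λ_p sqrt λ_l`, and by symmetry the same with any order of the indices:
with `λ_p ≤ λ_j ≤ λ_l` after reordering, `‖B f_p f_j f_l‖ ≤ K λ_p sqrt λ_j ≤ K sqrt (λ_p λ_j λ_l)`.
For `b = ∑ β_i f_i`: `hf F b b = ∑ λ_i |β_i|²` and `‖B b b b‖ ≤ ∑_pjl |β_p β_j β_l| K sqrt(λ_p λ_j λ_l)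
= K (∑ |β_i| sqrt λ_i)³ ≤ K ((2n) ∑ |β_i|² λ_i)^(3/2)` (Cauchy-Schwarz).
-/

open scoped ContDiff ComplexConjugate Topology
open Complex

namespace Pool.Agent.SKF

open Pool.Agent.DTW

variable {n : ℕ} {F : Ix n → Ix n → ℂ}

private theorem spc_hf_add_left (F : Ix n → Ix n → ℂ) (a a' b : E n) :
    hf F (a + a') b = hf F a b + hf F a' b := by
  unfold hf
  rw [← Finset.sum_add_distrib]
  refine Finset.sum_congr rfl fun k _ => ?_
  rw [← Finset.sum_add_distrib]
  refine Finset.sum_congr rfl fun l _ => ?_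
  simp only [Pi.add_apply]
  ring

private theorem spc_hf_sum_left (F : Ix n → Ix n → ℂ) (t : Ix n → ℂ) (f : Ix n → E n) (b : E n) :
    hf F (∑ i, t i • f i) b = ∑ i, t i * hf F (f i) b := by
  unfold hf
  have h1 : ∀ i, t i * (∑ k, ∑ l, f i k * conj (b l) * F k l)
      = ∑ k, ∑ l, t i * (f i k * conj (b l) * F k l) := by
    intro i
    rw [Finset.mul_sum]
    exact Finset.sum_congr rfl fun k _ => Finset.mul_sum _ _ _
  simp only [h1]
  conv_rhs => rw [Finset.sum_comm]
  refine Finset.sum_congr rfl fun k _ => ?_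
  conv_rhs => rw [Finset.sum_comm]
  refine Finset.sum_congr rfl fun l _ => ?_
  rw [Finset.sum_apply, Finset.sum_mul, Finset.sum_mul]
  refine Finset.sum_congr rfl fun i _ => ?_
  simp only [Pi.smul_apply, smul_eq_mul]
  ring

private theorem spc_hf_sum_right (F : Ix n → Ix n → ℂ) (t : Ix n → ℂ) (f : Ix n → E n) (a : E n) :
    hf F a (∑ i, t i • f i) = ∑ i, conj (t i) * hf F a (f i) := by
  unfold hf
  have h1 : ∀ i, conj (t i) * (∑ k, ∑ l, a k * conj (f i l) * F k l)
      = ∑ k, ∑ l, conj (t i) * (a k * conj (f i l) * F k l) := by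
    intro i
    rw [Finset.mul_sum]
    exact Finset.sum_congr rfl fun k _ => Finset.mul_sum _ _ _
  simp only [h1]
  conv_rhs => rw [Finset.sum_comm]
  refine Finset.sum_congr rfl fun k _ => ?_
  conv_rhs => rw [Finset.sum_comm]
  refine Finset.sum_congr rfl fun l _ => ?_
  rw [Finset.sum_apply, map_sum, Finset.mul_sum, Finset.sum_mul]
  refine Finset.sum_congr rfl fun i _ => ?_
  simp only [Pi.smul_apply, smul_eq_mul, map_mul]
  ring

open scoped ComplexOrder in
/-- spectral theorem -/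
private theorem spc_basis (hF : Psd F) :
    ∃ (μ : Ix n → ℝ) (f : Ix n → E n), (∀ i, 0 ≤ μ i) ∧ (∀ i, ‖f i‖ ≤ 1) ∧
      (∀ i, ‖fun k : Ix n => hf F (e k) (f i)‖ ≤ μ i ^ 2) ∧
      (∀ i j, hf F (f i) (f j) = if i = j then ((μ i ^ 2 : ℝ) : ℂ) else 0) ∧
      ∀ b : E n, ∃ β : Ix n → ℂ, b = ∑ i, β i • f i := by
  classical
  have hP := hF.matrix
  have hH := hP.isHermitian
  set A : Matrix (Ix n) (Ix n) ℂ := Matrix.of F with hA
  have hlam : ∀ i, 0 ≤ hH.eigenvalues i := fun i => hP.eigenvalues_nonneg i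
  let v : Ix n → Ix n → ℂ := fun i k => hH.eigenvectorBasis i k
  have hev : ∀ i k, ∑ l, F k l * v i l = hH.eigenvalues i * v i k := by
    intro i k
    have h := congrFun (hH.mulVec_eigenvectorBasis i) k
    simpa [Matrix.mulVec, dotProduct, hA, v] using h
  have horth : ∀ i j, ∑ k, conj (v i k) * v j k = if i = j then 1 else 0 := by
    intro i j
    have h := (orthonormal_iff_ite.1 hH.eigenvectorBasis.orthonormal) i j
    rw [← h, PiLp.inner_apply]
    refine Finset.sum_congr rfl fun k _ => ?_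
    simp [v, RCLike.inner_apply, mul_comm]
  have hv1 : ∀ i k, ‖v i k‖ ≤ 1 := by
    intro i k
    have h : ‖hH.eigenvectorBasis i‖ = 1 := hH.eigenvectorBasis.orthonormal.1 i
    calc ‖v i k‖ ≤ ‖hH.eigenvectorBasis i‖ := PiLp.norm_apply_le _ _
      _ = 1 := h
  refine ⟨fun i => √(hH.eigenvalues i), fun i k => conj (v i k), fun i => Real.sqrt_nonneg _,
    ?_, ?_, ?_, ?_⟩
  · intro i
    refine (pi_norm_le_iff_of_nonneg zero_le_one).2 fun k => ?_
    rw [RCLike.norm_conj]
    exact hv1 i k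
  · intro i
    rw [Real.sq_sqrt (hlam i)]
    refine (pi_norm_le_iff_of_nonneg (hlam i)).2 fun k => ?_
    have h : hf F (e k) (fun k => conj (v i k)) = hH.eigenvalues i * v i k := by
      rw [← hev]
      unfold hf e
      rw [Finset.sum_eq_single k]
      · refine Finset.sum_congr rfl fun l _ => ?_
        simp [mul_comm]
      · intro j _ hj
        simp [Pi.single_eq_of_ne hj]
      · intro h
        exact absurd (Finset.mem_univ k) h
    rw [h, norm_mul, Complex.norm_real, Real.norm_of_nonneg (hlam i)]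
    exact mul_le_of_le_one_right (hlam i) (hv1 i k)
  · intro i j
    rw [Real.sq_sqrt (hlam i)]
    have h : hf F (fun k => conj (v i k)) (fun k => conj (v j k))
        = ∑ k, conj (v i k) * ∑ l, F k l * v j l := by
      unfold hf
      refine Finset.sum_congr rfl fun k _ => ?_
      rw [Finset.mul_sum]
      refine Finset.sum_congr rfl fun l _ => ?_
      rw [Complex.conj_conj]
      ring
    rw [h]
    simp only [hev]
    have h2 : ∑ k, conj (v i k) * ((hH.eigenvalues j : ℂ) * v j k)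
        = (hH.eigenvalues j : ℂ) * ∑ k, conj (v i k) * v j k := by
      rw [Finset.mul_sum]
      exact Finset.sum_congr rfl fun k _ => by ring
    rw [h2, horth]
    by_cases hij : i = j
    · subst hij
      simp
    · simp [hij]
  · intro b
    let w : EuclideanSpace ℂ (Ix n) := WithLp.toLp 2 fun k => conj (b k)
    refine ⟨fun i => conj (hH.eigenvectorBasis.repr w i), ?_⟩
    have h := hH.eigenvectorBasis.sum_repr w
    funext k
    have h2 : (∑ i, hH.eigenvectorBasis.repr w i • hH.eigenvectorBasis i) k = w k := by rw [h]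
    have h3 : ∑ i, hH.eigenvectorBasis.repr w i * v i k = conj (b k) := by
      have hw : w k = conj (b k) := rfl
      rw [← hw, ← h2]
      simp [v]
    have h4 := congrArg conj h3
    rw [Complex.conj_conj] at h4
    rw [← h4, map_sum, Finset.sum_apply]
    refine Finset.sum_congr rfl fun i _ => ?_
    simp

private theorem spc_sum (B : E n → E n → E n → ℂ)
    (add1 : ∀ b b' c d, B (b + b') c d = B b c d + B b' c d)
    (smul1 : ∀ (t : ℂ) b c d, B (t • b) c d = conj t * B b c d)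
    (t : Ix n → ℂ) (f : Ix n → E n) (c d : E n) :
    B (∑ i, t i • f i) c d = ∑ i, conj (t i) * B (f i) c d := by
  classical
  have h0 : B 0 c d = 0 := by
    have := smul1 0 0 c d
    simpa using this
  have h : ∀ s : Finset (Ix n), B (∑ i ∈ s, t i • f i) c d = ∑ i ∈ s, conj (t i) * B (f i) c d := by
    intro s
    induction s using Finset.induction_on with
    | empty => simpa using h0
    | insert a s ha ih => rw [Finset.sum_insert ha, Finset.sum_insert ha, add1, smul1, ih]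
  exact h Finset.univ

theorem spc (hF : Psd F) (B : E n → E n → E n → ℂ) (K : ℝ) (hK : 0 ≤ K)
    (s12 : ∀ b c d, B b c d = B c b d) (s23 : ∀ b c d, B b c d = B b d c)
    (add1 : ∀ b b' c d, B (b + b') c d = B b c d + B b' c d)
    (smul1 : ∀ (t : ℂ) b c d, B (t • b) c d = conj t * B b c d)
    (bd : ∀ b c d, ‖B b c d‖ ≤ K * ‖fun k : Ix n => hf F (e k) b‖ * ‖c‖ * √(hf F d d).re)
    (b : E n) :
    Complex.normSq (B b b b) ≤ K ^ 2 * (2 * n) ^ 3 * (hf F b b).re ^ 3 := by
  obtain ⟨μ, f, hμ, hf1, hf2, hf3, hf4⟩ := spc_basis hF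
  obtain ⟨β, hβ⟩ := hf4 b
  have hdd : ∀ i, √(hf F (f i) (f i)).re = μ i := by
    intro i
    rw [hf3, if_pos rfl, Complex.ofReal_re, Real.sqrt_sq (hμ i)]
  have hone : ∀ p j l, ‖B (f p) (f j) (f l)‖ ≤ K * (μ p ^ 2 * μ l) := by
    intro p j l
    refine (bd _ _ _).trans ?_
    rw [hdd]
    have h1 : K * ‖fun k : Ix n => hf F (e k) (f p)‖ * ‖f j‖ ≤ K * μ p ^ 2 * 1 :=
      mul_le_mul (mul_le_mul_of_nonneg_left (hf2 p) hK) (hf1 j) (norm_nonneg _)
        (mul_nonneg hK (sq_nonneg _))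
    calc K * ‖fun k : Ix n => hf F (e k) (f p)‖ * ‖f j‖ * μ l ≤ K * μ p ^ 2 * 1 * μ l :=
          mul_le_mul_of_nonneg_right h1 (hμ l)
      _ = K * (μ p ^ 2 * μ l) := by ring
  have hthree : ∀ p j l, ‖B (f p) (f j) (f l)‖ ≤ K * (μ p * μ j * μ l) := by
    intro p j l
    have h1 : ‖B (f p) (f j) (f l)‖ ≤ K * (μ p ^ 2 * μ j) := by
      rw [s23]
      exact hone p l j
    have h2 : ‖B (f p) (f j) (f l)‖ ≤ K * (μ j ^ 2 * μ l) := by
      rw [s12]
      exact hone j p l
    have h3 : ‖B (f p) (f j) (f l)‖ ≤ K * (μ l ^ 2 * μ p) := by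
      rw [s23, s12]
      have := hone l j p
      rwa [s23] at this
    have hx := norm_nonneg (B (f p) (f j) (f l))
    have h4 : ‖B (f p) (f j) (f l)‖ ^ 3 ≤ (K * (μ p * μ j * μ l)) ^ 3 := by
      calc ‖B (f p) (f j) (f l)‖ ^ 3
          = ‖B (f p) (f j) (f l)‖ * ‖B (f p) (f j) (f l)‖ * ‖B (f p) (f j) (f l)‖ := by ring
        _ ≤ (K * (μ p ^ 2 * μ j)) * (K * (μ j ^ 2 * μ l)) * (K * (μ l ^ 2 * μ p)) := by
            refine mul_le_mul (mul_le_mul h1 h2 hx ?_) h3 hx ?_
            · exact mul_nonneg hK (mul_nonneg (sq_nonneg _) (hμ j))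
            · exact mul_nonneg (mul_nonneg hK (mul_nonneg (sq_nonneg _) (hμ j)))
                (mul_nonneg hK (mul_nonneg (sq_nonneg _) (hμ l)))
        _ = (K * (μ p * μ j * μ l)) ^ 3 := by ring
    exact (pow_le_pow_iff_left₀ hx
      (mul_nonneg hK (mul_nonneg (mul_nonneg (hμ p) (hμ j)) (hμ l))) (by norm_num)).1 h4
  have hsum1 := spc_sum B add1 smul1 β f
  have hexp : B b b b = ∑ p, ∑ j, ∑ l, conj (β p) * (conj (β j) * (conj (β l) *
      B (f p) (f j) (f l))) := by
    conv_lhs => rw [hβ]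
    rw [hsum1]
    refine Finset.sum_congr rfl fun p _ => ?_
    rw [s12, hsum1, Finset.mul_sum]
    refine Finset.sum_congr rfl fun j _ => ?_
    rw [s23, s12, hsum1, Finset.mul_sum, Finset.mul_sum]
    refine Finset.sum_congr rfl fun l _ => ?_
    have h5 : B (f l) (f j) (f p) = B (f p) (f j) (f l) := by
      rw [s23, s12, s23]
    rw [h5]
  set S : ℝ := ∑ i, ‖β i‖ * μ i with hS
  have hS0 : 0 ≤ S := Finset.sum_nonneg fun i _ => mul_nonneg (norm_nonneg _) (hμ i)
  have hnorm : ‖B b b b‖ ≤ K * S ^ 3 := by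
    have h6 : K * S ^ 3 = ∑ p, ∑ j, ∑ l, ‖β p‖ * (‖β j‖ * (‖β l‖ * (K * (μ p * μ j * μ l)))) := by
      have h7 : K * S ^ 3 = K * (S * (S * S)) := by ring
      rw [h7]
      conv_lhs => rw [hS, Finset.sum_mul_sum, Finset.sum_mul_sum, Finset.mul_sum]
      refine Finset.sum_congr rfl fun p _ => ?_
      rw [Finset.mul_sum]
      refine Finset.sum_congr rfl fun j _ => ?_
      rw [Finset.mul_sum, Finset.mul_sum]
      refine Finset.sum_congr rfl fun l _ => ?_
      ring
    rw [h6, hexp]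
    refine (norm_sum_le _ _).trans (Finset.sum_le_sum fun p _ => ?_)
    refine (norm_sum_le _ _).trans (Finset.sum_le_sum fun j _ => ?_)
    refine (norm_sum_le _ _).trans (Finset.sum_le_sum fun l _ => ?_)
    rw [norm_mul, norm_mul, norm_mul, RCLike.norm_conj, RCLike.norm_conj, RCLike.norm_conj]
    refine mul_le_mul_of_nonneg_left ?_ (norm_nonneg _)
    refine mul_le_mul_of_nonneg_left ?_ (norm_nonneg _)
    exact mul_le_mul_of_nonneg_left (hthree p j l) (norm_nonneg _)
  have hbb : (hf F b b).re = ∑ i, (‖β i‖ * μ i) ^ 2 := by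
    have h8 : hf F b b = ∑ i, β i * (conj (β i) * ((μ i ^ 2 : ℝ) : ℂ)) := by
      conv_lhs => rw [hβ]
      rw [spc_hf_sum_left]
      refine Finset.sum_congr rfl fun i _ => ?_
      rw [spc_hf_sum_right]
      simp only [hf3]
      rw [Finset.sum_eq_single i]
      · rw [if_pos rfl]
      · intro j _ hj
        rw [if_neg (Ne.symm hj), mul_zero]
      · intro h
        exact absurd (Finset.mem_univ i) h
    rw [h8, Complex.re_sum]
    refine Finset.sum_congr rfl fun i _ => ?_
    rw [← mul_assoc, Complex.mul_conj, ← Complex.ofReal_mul, Complex.ofReal_re,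
      Complex.normSq_eq_norm_sq, mul_pow]
  have hcs : S ^ 2 ≤ 2 * n * (hf F b b).re := by
    have h9 := sq_sum_le_card_mul_sum_sq (s := (Finset.univ : Finset (Ix n)))
      (f := fun i => ‖β i‖ * μ i)
    rw [Finset.card_univ, Fintype.card_sum, Fintype.card_fin] at h9
    rw [hbb, hS]
    refine h9.trans (le_of_eq ?_)
    push_cast
    ring
  calc Complex.normSq (B b b b) = ‖B b b b‖ ^ 2 := Complex.normSq_eq_norm_sq _
    _ ≤ (K * S ^ 3) ^ 2 := pow_le_pow_left₀ (norm_nonneg _) hnorm 2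
    _ = K ^ 2 * (S ^ 2) ^ 3 := by ring
    _ ≤ K ^ 2 * (2 * n * (hf F b b).re) ^ 3 :=
        mul_le_mul_of_nonneg_left (pow_le_pow_left₀ (sq_nonneg _) hcs 3) (sq_nonneg _)
    _ = K ^ 2 * (2 * n) ^ 3 * (hf F b b).re ^ 3 := by ring

end Pool.Agent.SKF
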