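import Pool.Agent.SKF.Csd
import Pool.Agent.SKF.Spc

/-!
Bnd (size 4): uniform bounds on a compact set `Q ⊆ U`.
`bnd_K`: `levi w x a a = ∑_kl a_k conj a_l LM w x k l` (`levi_eq_sum`, on `U`), so the second derivative
at `z` in the direction `u` is a finite sum of products `u_i u_j a_k a_l *` (second derivatives of
`LM w . k l`), continuous on `U`, hence bounded on `Q`; `|u_i| ≤ ‖u‖`, `|a_k| ≤ ‖a‖`.
`bnd_X`: `‖XX w z b‖ = sup_k |levi w z (e k) b|` (`XX_apply`) and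
`|levi w z (e k) b|² ≤ levi (e k) (e k) levi b b` (`levi_cs`), `levi w z (e k) (e k)` bounded on `Q`.
`bnd_A`: `spc` with `F = LM w z`, `B b c d = Bf w b c d z = third w z (XX w z b) c d` (`Bf_eq`):
by `csd` (with the roles `d ↦ c`... use the symmetry `Bf_symm23` so that the square root is at `d`)
`‖Bf w b c d z‖ ≤ √K ‖XX w z b‖ ‖c‖ √(levi d d)` and `‖XX w z b‖ = ‖fun k => hf F (e k) b‖`.
-/

open scoped ContDiff ComplexConjugate Topology
open Complex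

namespace Pool.Agent.SKF

open Pool.Agent.DTW

variable {n : ℕ} {U : Set (E n)} {w : E n → ℝ}

private theorem Bnd_fd {κ : Type*} [Fintype κ] (c : κ → ℂ) (g : κ → E n → ℂ) {y : E n}
    (hg : ∀ i, DifferentiableAt ℝ (g i) y) (v : E n) :
    fderiv ℝ (fun x => (∑ i, c i * g i x).re) y v = (∑ i, c i * fderiv ℝ (g i) y v).re := by
  have h1 : HasFDerivAt (fun x => ∑ i, c i * g i x) (∑ i, c i • fderiv ℝ (g i) y) y :=
    HasFDerivAt.fun_sum fun i _ => (hg i).hasFDerivAt.const_mul (c i)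
  have h2 := Complex.reCLM.hasFDerivAt.comp y h1
  have h3 : (fun x => (∑ i, c i * g i x).re) = (Complex.reCLM ∘ fun x => ∑ i, c i * g i x) := rfl
  rw [h3, h2.fderiv]
  simp

private theorem Bnd_bd {V F : Type*} [NormedAddCommGroup V] [NormedAddCommGroup F] {Q : Set V}
    {f : V → F} (hQ : IsCompact Q) (hf : ContinuousOn f Q) : ∃ C : ℝ, ∀ z ∈ Q, ‖f z‖ ≤ C :=
  hQ.exists_bound_of_continuousOn hf

private theorem Bnd_gen {V W : Type*} [NormedAddCommGroup V] [NormedSpace ℝ V]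
    [NormedAddCommGroup W] [NormedSpace ℝ W] {U Q : Set V} (hU : IsOpen U) {g : V → W}
    (hg : ContDiffOn ℝ ∞ g U) (hQ : IsCompact Q) (hQU : Q ⊆ U) :
    ∃ C : ℝ, 0 ≤ C ∧ ∀ z ∈ Q, ∀ u : V,
      ‖fderiv ℝ (fun y => fderiv ℝ g y u) z u‖ ≤ C * ‖u‖ ^ 2 := by
  have h1 : ContDiffOn ℝ ∞ (fderiv ℝ g) U := hg.fderiv_of_isOpen hU (by simp)
  have h2 : ContDiffOn ℝ ∞ (fderiv ℝ (fderiv ℝ g)) U := h1.fderiv_of_isOpen hU (by simp)
  have h9 := h2.continuousOn.mono hQU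
  obtain ⟨C, hC⟩ := Bnd_bd hQ h9
  refine ⟨max C 0, le_max_right _ _, fun z hz u => ?_⟩
  have h3 : DifferentiableAt ℝ (fderiv ℝ g) z :=
    (h1.contDiffAt (hU.mem_nhds (hQU hz))).differentiableAt (by simp)
  have h4 : fderiv ℝ (fun y => fderiv ℝ g y u) z u = fderiv ℝ (fderiv ℝ g) z u u := by
    have h5 := h3.hasFDerivAt.clm_apply (hasFDerivAt_const u z)
    rw [h5.fderiv]
    simp
  rw [h4]
  have h6 : ‖fderiv ℝ (fderiv ℝ g) z‖ ≤ max C 0 := (hC z hz).trans (le_max_left _ _)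
  calc ‖fderiv ℝ (fderiv ℝ g) z u u‖ ≤ ‖fderiv ℝ (fderiv ℝ g) z u‖ * ‖u‖ :=
        ContinuousLinearMap.le_opNorm _ _
    _ ≤ (‖fderiv ℝ (fderiv ℝ g) z‖ * ‖u‖) * ‖u‖ := by
        gcongr
        exact ContinuousLinearMap.le_opNorm _ _
    _ ≤ (max C 0 * ‖u‖) * ‖u‖ := by gcongr
    _ = max C 0 * ‖u‖ ^ 2 := by ring

private theorem Bnd_d2 {Q : Set (E n)} (hU : IsOpen U) {g : E n → ℂ} (hg : ContDiffOn ℝ ∞ g U)
    (hQ : IsCompact Q) (hQU : Q ⊆ U) :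
    ∃ C : ℝ, 0 ≤ C ∧ ∀ z ∈ Q, ∀ u : E n,
      ‖fderiv ℝ (fun y => fderiv ℝ g y u) z u‖ ≤ C * ‖u‖ ^ 2 :=
  Bnd_gen hU hg hQ hQU

theorem bnd_K (L : Loc w U) {Q : Set (E n)} (hQ : IsCompact Q) (hQU : Q ⊆ U) :
    ∃ K : ℝ, 0 ≤ K ∧ ∀ z ∈ Q, ∀ u a : E n,
      |fderiv ℝ (fun y => fderiv ℝ (fun x => (levi w x a a).re) y u) z u|
        ≤ K * ‖u‖ ^ 2 * ‖a‖ ^ 2 := by
  classical
  have hG : ∀ i : Ix n × Ix n, ContDiffOn ℝ ∞ (fun y => LM w y i.1 i.2) U := fun i =>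
    contDiffOn_pk L.op (contDiffOn_pb L.op (contDiffOn_cx L.sm) i.2) i.1
  choose C hC0 hC using fun i => Bnd_d2 L.op (hG i) hQ hQU
  refine ⟨∑ i, C i, Finset.sum_nonneg fun i _ => hC0 i, fun z hz u a => ?_⟩
  have hzU := hQU hz
  have h1 : ∀ y ∈ U, (levi w y a a).re =
      (∑ i : Ix n × Ix n, (a i.1 * conj (a i.2)) * LM w y i.1 i.2).re := by
    intro y hy
    rw [levi_eq_sum (L.sm.contDiffAt (L.op.mem_nhds hy)), Fintype.sum_prod_type]
  have h2 : ∀ y ∈ U, fderiv ℝ (fun x => (levi w x a a).re) y u =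
      (∑ i : Ix n × Ix n, (a i.1 * conj (a i.2)) *
        fderiv ℝ (fun x => LM w x i.1 i.2) y u).re := by
    intro y hy
    rw [← Bnd_fd (fun i : Ix n × Ix n => a i.1 * conj (a i.2)) (fun i x => LM w x i.1 i.2)
      (fun i => diffAt_of L.op (hG i) hy) u]
    have h : (fun x => (levi w x a a).re) =ᶠ[𝓝 y] fun x =>
        (∑ i : Ix n × Ix n, (a i.1 * conj (a i.2)) * LM w x i.1 i.2).re := by
      filter_upwards [L.op.mem_nhds hy] with x hx
      exact h1 x hx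
    rw [h.fderiv_eq]
  have hG2 : ∀ i : Ix n × Ix n,
      DifferentiableAt ℝ (fun y => fderiv ℝ (fun x => LM w x i.1 i.2) y u) z := by
    intro i
    have h : ContDiffOn ℝ ∞ (fderiv ℝ (fun x => LM w x i.1 i.2)) U :=
      (hG i).fderiv_of_isOpen L.op (by simp)
    have h' : ContDiffOn ℝ ∞ (fun y => fderiv ℝ (fun x => LM w x i.1 i.2) y u) U :=
      h.clm_apply contDiffOn_const
    exact (h'.contDiffAt (L.op.mem_nhds hzU)).differentiableAt (by simp)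
  have h3 : fderiv ℝ (fun y => fderiv ℝ (fun x => (levi w x a a).re) y u) z u =
      (∑ i : Ix n × Ix n, (a i.1 * conj (a i.2)) *
        fderiv ℝ (fun y => fderiv ℝ (fun x => LM w x i.1 i.2) y u) z u).re := by
    rw [← Bnd_fd (fun i : Ix n × Ix n => a i.1 * conj (a i.2))
      (fun i y => fderiv ℝ (fun x => LM w x i.1 i.2) y u) hG2 u]
    have h : (fun y => fderiv ℝ (fun x => (levi w x a a).re) y u) =ᶠ[𝓝 z] fun y =>
        (∑ i : Ix n × Ix n, (a i.1 * conj (a i.2)) *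
          fderiv ℝ (fun x => LM w x i.1 i.2) y u).re := by
      filter_upwards [L.op.mem_nhds hzU] with y hy
      exact h2 y hy
    rw [h.fderiv_eq]
  rw [h3]
  refine (Complex.abs_re_le_norm _).trans ((norm_sum_le _ _).trans ?_)
  rw [Finset.sum_mul, Finset.sum_mul]
  refine Finset.sum_le_sum fun i _ => ?_
  rw [norm_mul, norm_mul, RCLike.norm_conj]
  have h4 : ‖a i.1‖ ≤ ‖a‖ := norm_le_pi_norm a i.1
  have h5 : ‖a i.2‖ ≤ ‖a‖ := norm_le_pi_norm a i.2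
  have h6 := hC i z hz u
  calc ‖a i.1‖ * ‖a i.2‖ * ‖fderiv ℝ (fun y => fderiv ℝ (fun x => LM w x i.1 i.2) y u) z u‖
      ≤ ‖a‖ * ‖a‖ * (C i * ‖u‖ ^ 2) := by gcongr
    _ = C i * ‖u‖ ^ 2 * ‖a‖ ^ 2 := by ring

private theorem Bnd_sg (k : Ix n) : ‖sg k‖ = 1 := by
  cases k <;> simp [sg]

private theorem Bnd_XX (L : Loc w U) {z : E n} (hz : z ∈ U) (b : E n) (k : Ix n) :
    ‖XX w z b k‖ = ‖levi w z (e k.swap) b‖ := by
  rw [XX_apply (L.sm.contDiffAt (L.op.mem_nhds hz)), norm_mul, Bnd_sg, one_mul]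

theorem bnd_X (L : Loc w U) {Q : Set (E n)} (hQ : IsCompact Q) (hQU : Q ⊆ U) :
    ∃ C : ℝ, 0 ≤ C ∧ ∀ z ∈ Q, ∀ b : E n, ‖XX w z b‖ ^ 2 ≤ C * (levi w z b b).re := by
  classical
  have h1 : ∀ k : Ix n, ∃ C : ℝ, ∀ z ∈ Q, ‖LM w z k k‖ ≤ C := by
    intro k
    have hG : ContDiffOn ℝ ∞ (fun y => LM w y k k) U :=
      contDiffOn_pk L.op (contDiffOn_pb L.op (contDiffOn_cx L.sm) k) k
    exact hQ.exists_bound_of_continuousOn (hG.continuousOn.mono hQU)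
  choose C hC using h1
  have hS : 0 ≤ ∑ k, |C k| := Finset.sum_nonneg fun _ _ => abs_nonneg _
  refine ⟨∑ k, |C k|, hS, fun z hz b => ?_⟩
  have hzU := hQU hz
  have hb := (levi_self L hzU b).2
  have h2 : ‖XX w z b‖ ≤ √((∑ k, |C k|) * (levi w z b b).re) := by
    refine (pi_norm_le_iff_of_nonneg (Real.sqrt_nonneg _)).2 fun k => ?_
    rw [Bnd_XX L hzU]
    refine Real.le_sqrt_of_sq_le ?_
    rw [← Complex.normSq_eq_norm_sq]
    refine (levi_cs L hzU _ _).trans (mul_le_mul_of_nonneg_right ?_ hb)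
    have h3 : (levi w z (e k.swap) (e k.swap)).re ≤ C k.swap :=
      (Complex.re_le_norm _).trans (hC k.swap z hz)
    refine h3.trans ((le_abs_self _).trans ?_)
    exact Finset.single_le_sum (f := fun k => |C k|) (fun _ _ => abs_nonneg _)
      (Finset.mem_univ k.swap)
  calc ‖XX w z b‖ ^ 2 ≤ √((∑ k, |C k|) * (levi w z b b).re) ^ 2 := by gcongr
    _ = (∑ k, |C k|) * (levi w z b b).re := Real.sq_sqrt (mul_nonneg hS hb)

theorem bnd_A (L : Loc w U) {Q : Set (E n)} (hQ : IsCompact Q) (hQU : Q ⊆ U) :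
    ∃ C : ℝ, 0 ≤ C ∧ ∀ z ∈ Q, ∀ b : E n, Complex.normSq (Bf w b b b z) ≤
      C * (levi w z b b).re ^ 3 := by
  obtain ⟨K, hK, h2⟩ := bnd_K L hQ hQU
  refine ⟨√K ^ 2 * (2 * n) ^ 3, by positivity, fun z hz b => ?_⟩
  have hzU := hQU hz
  have hh : ∀ a b : E n, hf (LM w z) a b = levi w z a b := fun a b =>
    (levi_eq_sum (L.sm.contDiffAt (L.op.mem_nhds hzU)) a b).symm
  have h := spc (L.psd z hzU) (fun b c d => Bf w b c d z) (√K) (Real.sqrt_nonneg _)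
    (fun b c d => Bf_symm12 L hzU b c d) (fun b c d => Bf_symm23 L hzU b c d)
    (fun b b' c d => Bf_add1 L hzU b b' c d) (fun t b c d => Bf_smul1 L hzU t b c d) ?_ b
  · rw [hh] at h
    exact h
  · intro b c d
    have h3 := csd L hzU K hK (h2 z hz) (XX w z b) (fun c => levi_XX_left L hzU b c) d c
    have h4 : ‖XX w z b‖ ≤ ‖fun k : Ix n => hf (LM w z) (e k) b‖ := by
      refine (pi_norm_le_iff_of_nonneg (norm_nonneg _)).2 fun k => ?_
      rw [Bnd_XX L hzU, ← hh]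
      exact norm_le_pi_norm (fun k : Ix n => hf (LM w z) (e k) b) k.swap
    rw [hh]
    show ‖Bf w b c d z‖ ≤ _
    rw [Bf_symm23 L hzU, Bf_eq L hzU]
    refine h3.trans ?_
    gcongr

end Pool.Agent.SKF
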