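import Pool.Agent.SKF.Sym

/-!
Knl (size 3): the kernel of the Levi form where its rank is `n`.
`knl`: the map `b ↦ XX w z (conj b)` is complex linear (`XX w z b k = sg k * ∑ j, LM w z k.swap j * conj (b j)`),
its kernel is the conjugate of `kerL w z` (`XX_apply`, hermitian symmetry `levi_conj`), so by rank-nullity
its range has dimension `2n - n = n`; it is contained in `kerL w z` (`levi_XX_left`), which has
dimension `n`, hence equal to it.
`lag`: `S (XX w z b) a' = levi w z a' b = 0` (`S_XX` of DTW.Main with `t = 1`).
`knl_ge`: isotropy: the range of that map is contained in `kerL w z`: `2n - k ≤ k`, `k = finrank kerL`.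
-/

open scoped ContDiff ComplexConjugate Topology
open Complex

namespace Pool.Agent.SKF

open Pool.Agent.DTW

variable {n : ℕ} {U : Set (E n)} {w : E n → ℝ}

/-- the linear map `b ↦ XX w z (conj b)` -/
private noncomputable def knlPhi (w : E n → ℝ) (z : E n) : E n →ₗ[ℂ] E n where
  toFun b := fun k => sg k * ∑ j : Ix n, LM w z k.swap j * b j
  map_add' b b' := by
    funext k
    simp only [Pi.add_apply, mul_add, Finset.sum_add_distrib]
  map_smul' c b := by
    funext k
    simp only [Pi.smul_apply, smul_eq_mul, RingHom.id_apply, Finset.mul_sum]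
    exact Finset.sum_congr rfl fun j _ => by ring

private theorem knlPhi_eq (w : E n → ℝ) (z b : E n) :
    knlPhi w z b = XX w z (fun k => conj (b k)) := by
  funext k
  show sg k * ∑ j : Ix n, LM w z k.swap j * b j =
    sg k * ∑ j : Ix n, LM w z k.swap j * conj (conj (b j))
  simp only [Complex.conj_conj]

private theorem knl_sg_ne (k : Ix n) : sg k ≠ 0 := by
  intro h
  have := sg_sq k
  rw [h] at this
  simp at this

private theorem knl_rank (L : Loc w U) {z : E n} (hz : z ∈ U) :
    Module.finrank ℂ (LinearMap.range (knlPhi w z)) + Module.finrank ℂ (kerL w z) = n + n := by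
  have hw : ContDiffAt ℝ ∞ w z := L.sm.contDiffAt (L.op.mem_nhds hz)
  have hcard : Module.finrank ℂ (E n) = n + n := by
    rw [Module.finrank_fintype_fun_eq_card, Fintype.card_sum, Fintype.card_fin]
  let M : Matrix (Ix n) (Ix n) ℂ := Matrix.of (LM w z)
  -- the kernel of the Levi form
  have hk : LinearMap.ker (M.transpose.mulVecLin) = kerL w z := by
    ext a
    rw [LinearMap.mem_ker, mem_kerL, Matrix.mulVecLin_apply]
    constructor
    · intro h b
      rw [levi_eq_sum hw, Finset.sum_comm]
      refine Finset.sum_eq_zero fun l _ => ?_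
      have h1 : ∑ k : Ix n, LM w z k l * a k = 0 := congrFun h l
      calc ∑ k : Ix n, a k * conj (b l) * LM w z k l
          = conj (b l) * ∑ k : Ix n, LM w z k l * a k := by
            rw [Finset.mul_sum]
            exact Finset.sum_congr rfl fun k _ => by ring
        _ = 0 := by rw [h1, mul_zero]
    · intro h
      funext l
      have h1 := h (e l)
      rw [levi_eq_sum hw, Finset.sum_comm] at h1
      rw [Finset.sum_eq_single l] at h1
      · show ∑ k : Ix n, LM w z k l * a k = 0
        rw [← h1]
        refine Finset.sum_congr rfl fun k _ => ?_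
        simp [e, mul_comm]
      · intro j _ hj
        refine Finset.sum_eq_zero fun k _ => ?_
        simp [e, Pi.single_eq_of_ne hj]
      · intro hl
        exact absurd (Finset.mem_univ l) hl
  -- the kernel of Phi
  have hp : LinearMap.ker (knlPhi w z) = LinearMap.ker M.mulVecLin := by
    ext b
    rw [LinearMap.mem_ker, LinearMap.mem_ker, Matrix.mulVecLin_apply]
    constructor
    · intro h
      funext k
      have h1 : sg k.swap * ∑ j : Ix n, LM w z k.swap.swap j * b j = 0 := congrFun h k.swap
      rw [Sum.swap_swap] at h1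
      exact (mul_eq_zero.mp h1).resolve_left (knl_sg_ne _)
    · intro h
      funext k
      have h1 : ∑ j : Ix n, LM w z k.swap j * b j = 0 := congrFun h k.swap
      show sg k * ∑ j : Ix n, LM w z k.swap j * b j = 0
      rw [h1, mul_zero]
  have e1 := LinearMap.finrank_range_add_finrank_ker (knlPhi w z)
  have e2 := LinearMap.finrank_range_add_finrank_ker M.mulVecLin
  have e3 := LinearMap.finrank_range_add_finrank_ker M.transpose.mulVecLin
  have e4 : M.transpose.rank = M.rank := Matrix.rank_transpose M
  unfold Matrix.rank at e4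
  have f1 : Module.finrank ℂ (LinearMap.range (knlPhi w z)) +
      Module.finrank ℂ (LinearMap.ker M.mulVecLin) = n + n := by
    rw [← hp, ← hcard]
    exact e1
  have f2 : Module.finrank ℂ (LinearMap.range M.mulVecLin) +
      Module.finrank ℂ (LinearMap.ker M.mulVecLin) = n + n := by
    rw [← hcard]
    exact e2
  have f3 : Module.finrank ℂ (LinearMap.range M.transpose.mulVecLin) +
      Module.finrank ℂ (kerL w z) = n + n := by
    rw [← hk, ← hcard]
    exact e3
  have f4 : Module.finrank ℂ (LinearMap.range M.transpose.mulVecLin) =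
      Module.finrank ℂ (LinearMap.range M.mulVecLin) := e4
  omega

private theorem knl_range_le (L : Loc w U) {z : E n} (hz : z ∈ U) :
    LinearMap.range (knlPhi w z) ≤ kerL w z := by
  rintro _ ⟨b, rfl⟩
  intro c
  rw [knlPhi_eq]
  exact levi_XX_left L hz _ c

theorem knl (L : Loc w U) {z : E n} (hz : z ∈ U) (hr : Module.finrank ℂ (kerL w z) = n) {a : E n}
    (ha : a ∈ kerL w z) : ∃ b, a = XX w z b := by
  have h1 := knl_rank L hz
  have h2 : LinearMap.range (knlPhi w z) = kerL w z :=
    Submodule.eq_of_le_of_finrank_eq (knl_range_le L hz) (by omega)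
  rw [← h2] at ha
  obtain ⟨b, rfl⟩ := ha
  exact ⟨_, knlPhi_eq w z b⟩

theorem lag (L : Loc w U) {z : E n} (hz : z ∈ U) (hr : Module.finrank ℂ (kerL w z) = n) {a a' : E n}
    (ha : a ∈ kerL w z) (ha' : a' ∈ kerL w z) : S a a' = 0 := by
  have hw : ContDiffAt ℝ ∞ w z := L.sm.contDiffAt (L.op.mem_nhds hz)
  obtain ⟨b, rfl⟩ := knl L hz hr ha
  have h1 := S_XX hw 1 b a'
  rw [one_smul, one_mul] at h1
  rw [h1]
  exact ha' b

theorem knl_ge (L : Loc w U) {z : E n} (hz : z ∈ U) : n ≤ Module.finrank ℂ (kerL w z) := by
  have h1 := knl_rank L hz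
  have h2 := Submodule.finrank_mono (knl_range_le L hz)
  omega

end Pool.Agent.SKF
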