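import Pool.Agent.SKF.LvA

/-!
BfL (size 3): `Bf` is conjugate linear in each argument (use `Bf_eq`, or `br_left`/`br_right`,
`d01_add_vec`, `d01_smul_vec`, `d10_add`, `d10_const_mul`). Tools:
DTW.Base / DTW.Comm (`d10_mul`, `d10_sum`, `d10_const_mul`, `d10_d10_comm`, `d10_d01_comm`,
`contDiffOn_d10`, `d10_eq_sum`, `levi_eq_sum`, `sum_sg_anti`, `sum_swap`, `sg_swap`, `sg_sq`).
Note `levi w z a b = d10 (ub w b) z a` and `mx (cx w) z v = levi w z v v` hold by `rfl`.
-/

open scoped ContDiff ComplexConjugate Topology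
open Complex

namespace Pool.Agent.SKF

open Pool.Agent.DTW

variable {n : ℕ} {U : Set (E n)} {g h : E n → ℂ} {w : E n → ℝ} {z : E n}

private theorem BfL_x (L : Loc w U) (hz : z ∈ U) (b c d : E n) :
    Bf w b c d z = ∑ k : Ix n, sg k * levi w z (e k.swap) b * third w z (e k) c d := by
  unfold Bf br
  refine Finset.sum_congr rfl fun k _ => ?_
  rw [d10_uu2 L hz c d (e k)]
  rfl

private theorem BfL_ev (L : Loc w U) (hz : z ∈ U) : ∀ᶠ y in nhds z, y ∈ U := L.op.mem_nhds hz

private theorem BfL_c (L : Loc w U) (hz : z ∈ U) (a c c' d : E n) :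
    third w z a (c + c') d = third w z a c d + third w z a c' d := by
  unfold third
  have h : (fun y => levi w y a (c + c')) =ᶠ[nhds z] fun y => Lf w a c y + Lf w a c' y := by
    filter_upwards [BfL_ev L hz] with y hy
    exact levi_add_right L hy a c c'
  rw [d01_congr h, d01_add (diffAt_of L.op (smooth_Lf L a c) hz) (diffAt_of L.op (smooth_Lf L a c') hz)]
  rfl

private theorem BfL_cs (L : Loc w U) (hz : z ∈ U) (a : E n) (t : ℂ) (c d : E n) :
    third w z a (t • c) d = conj t * third w z a c d := by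
  unfold third
  have h : (fun y => levi w y a (t • c)) =ᶠ[nhds z] fun y => conj t * Lf w a c y := by
    filter_upwards [BfL_ev L hz] with y hy
    exact levi_smul_right L hy t a c
  rw [d01_congr h, d01_const_mul (diffAt_of L.op (smooth_Lf L a c) hz)]
  rfl

/-- `Bf` is conjugate linear in each argument -/
theorem Bf_add1 (L : Loc w U) (hz : z ∈ U) (b b' c d : E n) :
    Bf w (b + b') c d z = Bf w b c d z + Bf w b' c d z := by
  rw [BfL_x L hz, BfL_x L hz, BfL_x L hz, ← Finset.sum_add_distrib]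
  refine Finset.sum_congr rfl fun k _ => ?_
  rw [levi_add_right L hz]
  ring

theorem Bf_smul1 (L : Loc w U) (hz : z ∈ U) (t : ℂ) (b c d : E n) :
    Bf w (t • b) c d z = conj t * Bf w b c d z := by
  rw [BfL_x L hz, BfL_x L hz, Finset.mul_sum]
  refine Finset.sum_congr rfl fun k _ => ?_
  rw [levi_smul_right L hz]
  ring

theorem Bf_add2 (L : Loc w U) (hz : z ∈ U) (b c c' d : E n) :
    Bf w b (c + c') d z = Bf w b c d z + Bf w b c' d z := by
  rw [BfL_x L hz, BfL_x L hz, BfL_x L hz, ← Finset.sum_add_distrib]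
  refine Finset.sum_congr rfl fun k _ => ?_
  rw [BfL_c L hz]
  ring

theorem Bf_smul2 (L : Loc w U) (hz : z ∈ U) (t : ℂ) (b c d : E n) :
    Bf w b (t • c) d z = conj t * Bf w b c d z := by
  rw [BfL_x L hz, BfL_x L hz, Finset.mul_sum]
  refine Finset.sum_congr rfl fun k _ => ?_
  rw [BfL_cs L hz]
  ring

theorem Bf_add3 (L : Loc w U) (hz : z ∈ U) (b c d d' : E n) :
    Bf w b c (d + d') z = Bf w b c d z + Bf w b c d' z := by
  rw [BfL_x L hz, BfL_x L hz, BfL_x L hz, ← Finset.sum_add_distrib]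
  refine Finset.sum_congr rfl fun k _ => ?_
  have h : third w z (e k) c (d + d') = third w z (e k) c d + third w z (e k) c d' :=
    d01_add_vec _ _ _ _
  rw [h]
  ring

theorem Bf_smul3 (L : Loc w U) (hz : z ∈ U) (t : ℂ) (b c d : E n) :
    Bf w b c (t • d) z = conj t * Bf w b c d z := by
  rw [BfL_x L hz, BfL_x L hz, Finset.mul_sum]
  refine Finset.sum_congr rfl fun k _ => ?_
  have h : third w z (e k) c (t • d) = conj t * third w z (e k) c d :=
    d01_smul_vec _ _ _ _
  rw [h]
  ring

end Pool.Agent.SKF
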