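import Pool.Agent.SKF.Defs

/-!
BrA (size 3): calculus of the bracket `br`. Everything follows from
DTW.Base / DTW.Comm (`d10_mul`, `d10_sum`, `d10_const_mul`, `d10_d10_comm`, `d10_d01_comm`,
`contDiffOn_d10`, `d10_eq_sum`, `levi_eq_sum`, `sum_sg_anti`, `sum_swap`, `sg_swap`, `sg_sq`).
Note `levi w z a b = d10 (ub w b) z a` and `mx (cx w) z v = levi w z v v` hold by `rfl`.
-/

open scoped ContDiff ComplexConjugate Topology
open Complex

namespace Pool.Agent.SKF

open Pool.Agent.DTW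

variable {n : ℕ} {U : Set (E n)} {g h : E n → ℂ} {w : E n → ℝ} {z : E n}

/-- Proof: `d10_eq_sum`-type bookkeeping: both sides are sums over `k`, product rule, `d10_d10_comm`. -/
theorem br_d10 (hU : IsOpen U) (hg : ContDiffOn ℝ ∞ g U) (hh : ContDiffOn ℝ ∞ h U) (hz : z ∈ U)
    (a : E n) :
    d10 (br g h) z a = br (fun y => d10 g y a) h z + br g (fun y => d10 h y a) z := by
  have hga : ContDiffAt ℝ ∞ g z := hg.contDiffAt (hU.mem_nhds hz)
  have hha : ContDiffAt ℝ ∞ h z := hh.contDiffAt (hU.mem_nhds hz)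
  have hdg : ∀ b : E n, DifferentiableAt ℝ (fun y => d10 g y b) z := fun b =>
    diffAt_of hU (contDiffOn_d10 hU hg b) hz
  have hdh : ∀ b : E n, DifferentiableAt ℝ (fun y => d10 h y b) z := fun b =>
    diffAt_of hU (contDiffOn_d10 hU hh b) hz
  have e1 : br g h = fun y => ∑ k : Ix n, sg k * d10 g y (e k.swap) * d10 h y (e k) := rfl
  rw [e1, d10_sum Finset.univ (fun k y => sg k * d10 g y (e k.swap) * d10 h y (e k))
    (fun k _ => ((hdg _).const_mul _).mul (hdh _))]
  unfold br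
  rw [← Finset.sum_add_distrib]
  refine Finset.sum_congr rfl (fun k _ => ?_)
  rw [d10_mul ((hdg _).const_mul _) (hdh _), d10_const_mul (hdg _), d10_d10_comm hga,
    d10_d10_comm hha a (e k)]

theorem br_d01 (hU : IsOpen U) (hg : ContDiffOn ℝ ∞ g U) (hh : ContDiffOn ℝ ∞ h U) (hz : z ∈ U)
    (a : E n) :
    d01 (br g h) z a = br (fun y => d01 g y a) h z + br g (fun y => d01 h y a) z := by
  have hga : ContDiffAt ℝ ∞ g z := hg.contDiffAt (hU.mem_nhds hz)
  have hha : ContDiffAt ℝ ∞ h z := hh.contDiffAt (hU.mem_nhds hz)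
  have hdg : ∀ b : E n, DifferentiableAt ℝ (fun y => d10 g y b) z := fun b =>
    diffAt_of hU (contDiffOn_d10 hU hg b) hz
  have hdh : ∀ b : E n, DifferentiableAt ℝ (fun y => d10 h y b) z := fun b =>
    diffAt_of hU (contDiffOn_d10 hU hh b) hz
  have e1 : br g h = fun y => ∑ k : Ix n, sg k * d10 g y (e k.swap) * d10 h y (e k) := rfl
  rw [e1, d01_sum Finset.univ (fun k y => sg k * d10 g y (e k.swap) * d10 h y (e k))
    (fun k _ => ((hdg _).const_mul _).mul (hdh _))]
  unfold br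
  rw [← Finset.sum_add_distrib]
  refine Finset.sum_congr rfl (fun k _ => ?_)
  rw [d01_mul ((hdg _).const_mul _) (hdh _), d01_const_mul (hdg _), ← d10_d01_comm hga,
    ← d10_d01_comm hha (e k) a]

theorem smooth_br (hU : IsOpen U) (hg : ContDiffOn ℝ ∞ g U) (hh : ContDiffOn ℝ ∞ h U) :
    ContDiffOn ℝ ∞ (br g h) U := by
  have e1 : br g h = fun y => ∑ k : Ix n, sg k * d10 g y (e k.swap) * d10 h y (e k) := rfl
  rw [e1]
  exact ContDiffOn.sum (fun k _ => (contDiffOn_const.mul (contDiffOn_d10 hU hg _)).mul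
    (contDiffOn_d10 hU hh _))

theorem br_anti (g h : E n → ℂ) (z : E n) : br g h z = -br h g z := by
  unfold br
  rw [← Finset.sum_neg_distrib, ← Equiv.sum_comp (Equiv.sumComm (Fin n) (Fin n))]
  refine Finset.sum_congr rfl (fun k _ => ?_)
  have h1 : (Equiv.sumComm (Fin n) (Fin n)) k = k.swap := rfl
  rw [h1, Sum.swap_swap, sg_swap]
  ring

/-- linearity in the first argument, only the differential at the point matters -/
theorem br_left {g1 g2 : E n → ℂ} (c1 c2 : ℂ)
    (hg : ∀ a, d10 g z a = c1 * d10 g1 z a + c2 * d10 g2 z a) (h : E n → ℂ) :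
    br g h z = c1 * br g1 h z + c2 * br g2 h z := by
  unfold br
  rw [Finset.mul_sum, Finset.mul_sum, ← Finset.sum_add_distrib]
  refine Finset.sum_congr rfl (fun k _ => ?_)
  rw [hg]
  ring

theorem br_right {h1 h2 : E n → ℂ} (c1 c2 : ℂ)
    (hh : ∀ a, d10 h z a = c1 * d10 h1 z a + c2 * d10 h2 z a) (g : E n → ℂ) :
    br g h z = c1 * br g h1 z + c2 * br g h2 z := by
  unfold br
  rw [Finset.mul_sum, Finset.mul_sum, ← Finset.sum_add_distrib]
  refine Finset.sum_congr rfl (fun k _ => ?_)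
  rw [hh]
  ring

theorem br_zero_left (hg : ∀ a, d10 g z a = 0) (h : E n → ℂ) : br g h z = 0 := by
  unfold br
  exact Finset.sum_eq_zero (fun k _ => by rw [hg]; ring)

theorem br_zero_right (hh : ∀ a, d10 h z a = 0) (g : E n → ℂ) : br g h z = 0 := by
  unfold br
  exact Finset.sum_eq_zero (fun k _ => by rw [hh]; ring)

/-- the differential of `h` only matters through its germ -/
theorem br_congr {g' h' : E n → ℂ} (hg : g =ᶠ[𝓝 z] g') (hh : h =ᶠ[𝓝 z] h') :
    br g h z = br g' h' z := by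
  unfold br
  refine Finset.sum_congr rfl (fun k _ => ?_)
  rw [d10_congr hg, d10_congr hh]

end Pool.Agent.SKF
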