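import Pool.Agent.SKF.Defs

/-!
Cov (size 4): a finite cover by charts with bump functions, and a bound for the changes of charts.
`ex_cover`: for `x : X` let `i = ix A x` (`mem_ix`), `z = A.c i x`; there is a smooth bump function
`θ_x : E n → ℝ` (`ContDiffBump` or `exists_contDiff_tsupport_subset`/`exists_smooth_...`) with values in `[0,1]`, compact
support contained in the open set `(A.c i).target` and `θ_x = 1` near `z`. The sets
`{x' ∈ (A.c i).source | θ_x (A.c i x') = 1}` are neighbourhoods of `x`; by compactness finitely many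
cover `X` (`CompactSpace.elim_nhds_subcover`); number them by `Fin m`.
`ex_trb`: for fixed `q, q'` the set `Q = {z ∈ tsupport (θ q) | (A.c (s q)).symm z ∈ (A.c (s q')).symm ''
(tsupport (θ q'))}` is compact (`(A.c ..).symm '' tsupport` is compact, hence closed in the
Hausdorff space `X`; `z ↦ (A.c (s q)).symm z` is continuous on the compact set `tsupport (θ q)`),
contained in `Uo A (s q) (s q')`, where `z ↦ fderiv ℂ (ph A (s q) (s q')) z` is continuous
(`contDiffOn_ph`), hence bounded on `Q`. Maximum over the finitely many pairs, and at least 1.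
-/

open scoped ContDiff ComplexConjugate Topology
open Complex

namespace Pool.Agent.SKF

open Pool.Agent.DTW

variable {n : ℕ} {X : Type*} [TopologicalSpace X] [T2Space X] {ι : Type*}

theorem ex_cover [CompactSpace X] (A : Atlas n X ι) : ∃ m : ℕ, Nonempty (Cover A m) := by
  classical
  have h1 : ∀ x : X, ∃ θ : E n → ℝ, ContDiff ℝ ∞ θ ∧ HasCompactSupport θ ∧
      tsupport θ ⊆ (A.c (ix A x)).target ∧ (∀ z, 0 ≤ θ z) ∧ (∀ z, θ z ≤ 1) ∧
      ∀ᶠ z in 𝓝 (A.c (ix A x) x), θ z = 1 := by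
    intro x
    have hx := mem_ix A x
    have ht : (A.c (ix A x)).target ∈ 𝓝 (A.c (ix A x) x) :=
      (A.c (ix A x)).open_target.mem_nhds ((A.c (ix A x)).map_source hx)
    obtain ⟨r, hr, hsub⟩ := Metric.nhds_basis_closedBall.mem_iff.1 ht
    let f : ContDiffBump (A.c (ix A x) x) := ⟨r / 2, r, by positivity, by linarith⟩
    refine ⟨f, f.contDiff, f.hasCompactSupport, ?_, fun z => f.nonneg, fun z => f.le_one, ?_⟩
    · rw [f.tsupport_eq]
      exact hsub
    · filter_upwards [f.eventuallyEq_one] with z hz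
      simpa using hz
  choose θ h2 h3 h4 h5 h6 h7 using h1
  have h8 : ∀ x : X, {x' | x' ∈ (A.c (ix A x)).source ∧ θ x (A.c (ix A x) x') = 1} ∈ 𝓝 x := by
    intro x
    have hx := mem_ix A x
    have hc : ContinuousAt (A.c (ix A x)) x := (A.c (ix A x)).continuousAt hx
    filter_upwards [(A.c (ix A x)).open_source.mem_nhds hx, hc.eventually (h7 x)] with x' h h'
    exact ⟨h, h'⟩
  obtain ⟨t, ht⟩ := CompactSpace.elim_nhds_subcover _ h8
  let eq := t.equivFin.symm
  refine ⟨t.card, ⟨{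
    s := fun q => ix A (eq q)
    θ := fun q => θ (eq q)
    smooth := fun q => h2 _
    nonneg := fun q z => h5 _ z
    le_one := fun q z => h6 _ z
    compact := fun q => h3 _
    sub := fun q => h4 _
    cover := ?_ }⟩⟩
  intro x
  have hx : x ∈ ⋃ y ∈ t, {x' | x' ∈ (A.c (ix A y)).source ∧ θ y (A.c (ix A y) x') = 1} := by
    rw [ht]; trivial
  simp only [Set.mem_iUnion] at hx
  obtain ⟨y, hy, h9⟩ := hx
  refine ⟨eq.symm ⟨y, hy⟩, ?_⟩
  simpa using h9

theorem ex_trb (A : Atlas n X ι) {m : ℕ} (C : Cover A m) :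
    ∃ R : ℝ, 1 ≤ R ∧ ∀ q q' : Fin m, ∀ z ∈ tsupport (C.θ q), z ∈ Uo A (C.s q) (C.s q') →
      ph A (C.s q) (C.s q') z ∈ tsupport (C.θ q') →
      ∀ a : E n, ‖fderiv ℂ (ph A (C.s q) (C.s q')) z a‖ ≤ R * ‖a‖ := by
  classical
  have h1 : ∀ q q' : Fin m, ∃ R : ℝ, ∀ z ∈ tsupport (C.θ q), z ∈ Uo A (C.s q) (C.s q') →
      ph A (C.s q) (C.s q') z ∈ tsupport (C.θ q') →
      ‖fderiv ℂ (ph A (C.s q) (C.s q')) z‖ ≤ R := by
    intro q q'
    have hK : IsCompact (tsupport (C.θ q)) := C.compact q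
    have hK' : IsCompact (tsupport (C.θ q')) := C.compact q'
    have hS : IsCompact ((A.c (C.s q')).symm '' tsupport (C.θ q')) :=
      hK'.image_of_continuousOn ((A.c (C.s q')).continuousOn_symm.mono (C.sub q'))
    have hQc : IsClosed (tsupport (C.θ q) ∩ (A.c (C.s q)).symm ⁻¹'
        ((A.c (C.s q')).symm '' tsupport (C.θ q'))) :=
      ((A.c (C.s q)).continuousOn_symm.mono (C.sub q)).preimage_isClosed_of_isClosed
        (isClosed_tsupport _) hS.isClosed
    have hQ := hK.of_isClosed_subset hQc Set.inter_subset_left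
    have hsub : tsupport (C.θ q) ∩ (A.c (C.s q)).symm ⁻¹'
        ((A.c (C.s q')).symm '' tsupport (C.θ q')) ⊆ Uo A (C.s q) (C.s q') := by
      rintro z ⟨hz, z', hz', hzz⟩
      refine ⟨C.sub q hz, ?_⟩
      rw [← hzz]
      exact (A.c (C.s q')).map_target (C.sub q' hz')
    have hc : ContinuousOn (fderiv ℂ (ph A (C.s q) (C.s q'))) (Uo A (C.s q) (C.s q')) :=
      ((contDiffOn_ph A (C.s q) (C.s q')).fderiv_of_isOpen (m := ∞)
        (isOpen_Uo A (C.s q) (C.s q')) (by simp)).continuousOn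
    obtain ⟨R, hR⟩ := hQ.exists_bound_of_continuousOn (hc.mono hsub)
    refine ⟨R, fun z hz hzU hzp => hR z ⟨hz, ?_⟩⟩
    refine ⟨ph A (C.s q) (C.s q') z, hzp, ?_⟩
    exact (A.c (C.s q')).left_inv hzU.2
  choose R hR using h1
  refine ⟨1 + ∑ q, ∑ q', |R q q'|, ?_, ?_⟩
  · have : 0 ≤ ∑ q, ∑ q', |R q q'| :=
      Finset.sum_nonneg fun q _ => Finset.sum_nonneg fun q' _ => abs_nonneg _
    linarith
  · intro q q' z hz hzU hzp a
    refine (ContinuousLinearMap.le_opNorm _ a).trans ?_
    refine mul_le_mul_of_nonneg_right ?_ (norm_nonneg a)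
    refine (hR q q' z hz hzU hzp).trans ((le_abs_self _).trans ?_)
    have h2 : |R q q'| ≤ ∑ q'', |R q q''| :=
      Finset.single_le_sum (f := fun q'' => |R q q''|) (fun _ _ => abs_nonneg _)
        (Finset.mem_univ q')
    have h3 : ∑ q'', |R q q''| ≤ ∑ q, ∑ q', |R q q'| :=
      Finset.single_le_sum (f := fun q => ∑ q', |R q q'|)
        (fun _ _ => Finset.sum_nonneg fun _ _ => abs_nonneg _) (Finset.mem_univ q)
    linarith

end Pool.Agent.SKF
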