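import Pool.Agent.DTW.Main

/-!
SKF: the kernel of the curvature of a semipositive parabolic line bundle on a compact holomorphic
symplectic manifold is a holomorphic foliation. Definitions of the local objects.
Everything is built on Pool.Agent.DTW (Darboux charts `E n = ℂ^(2n)`, `levi`, `LM`, `XX`, ...).
-/

open scoped ContDiff ComplexConjugate Topology
open Complex

namespace Pool.Agent.SKF

open Pool.Agent.DTW

variable {n : ℕ}

/-- `u_b = ∂̄_b w` -/
noncomputable def ub (w : E n → ℝ) (b : E n) : E n → ℂ := fun y => d01 (cx w) y b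

/-- `u_cd = ∂̄_d ∂̄_c w` -/
noncomputable def uu2 (w : E n → ℝ) (c d : E n) : E n → ℂ := fun y => d01 (ub w c) y d

/-- The holomorphic Poisson bracket of two smooth functions. -/
noncomputable def br (g h : E n → ℂ) (z : E n) : ℂ :=
  ∑ k : Ix n, sg k * d10 g z (e k.swap) * d10 h z (e k)

/-- the Levi form as a function of the point -/
noncomputable def Lf (w : E n → ℝ) (a b : E n) : E n → ℂ := fun y => levi w y a b

/-- The third derivative `w_(a c̄ d̄)` at `z`: linear in `a`, conjugate linear in `c`, `d`. -/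
noncomputable def third (w : E n → ℝ) (z a c d : E n) : ℂ := d01 (fun y => levi w y a c) z d

/-- The cubic form `B(b,c,d) = {u_b, u_cd}`, conjugate linear in `b`, `c`, `d`. -/
noncomputable def Bf (w : E n → ℝ) (b c d : E n) : E n → ℂ := br (ub w b) (uu2 w c d)

/-- mixed second derivative `∂_v ∂̄_v g` -/
noncomputable def mx (g : E n → ℂ) (z v : E n) : ℂ := d10 (fun y => d01 g y v) z v

/-- local data: `w` smooth on the open set `U` with positive semidefinite isotropic Levi form -/
structure Loc (w : E n → ℝ) (U : Set (E n)) : Prop where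
  op : IsOpen U
  sm : ContDiffOn ℝ ∞ w U
  psd : ∀ z ∈ U, Psd (LM w z)
  iso : ∀ z ∈ U, Iso (LM w z)

/-- `β` solves `F(β, l̄) = - w_(a v l̄)` for all `l` -/
def IsBet (w : E n → ℝ) (z v a β : E n) : Prop := ∀ l : E n, levi w z β l = -d10 (Lf w a l) z v

/-- `γ` solves `F(γ, m̄) = w_(v ā m̄)` for all `m` -/
def IsGam (w : E n → ℝ) (z v a γ : E n) : Prop := ∀ m : E n, levi w z γ m = d10 (uu2 w a m) z v

/-- `δ` solves `F(a, δ̄) = - w_(a v b̄ v̄) - w_(a v β̄)` for all `a` -/
def IsDel (w : E n → ℝ) (z v b β δ : E n) : Prop :=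
  ∀ a : E n, levi w z a δ = -mx (Lf w a b) z v - d10 (Lf w a β) z v

/-- hermitian form of a matrix: linear in `a`, conjugate linear in `b` -/
noncomputable def hf (F : Ix n → Ix n → ℂ) (a b : E n) : ℂ :=
  ∑ k, ∑ l, a k * conj (b l) * F k l

/-- linear function with `tau z v (z + v) = 1`, `tau z v z = 0` -/
noncomputable def tau (z v y : E n) : ℂ :=
  (∑ k, conj (v k) * (y k - z k)) / (∑ k, ((Complex.normSq (v k) : ℝ) : ℂ))

/-- the vector field `b + τ β + |τ|² δ` -/
noncomputable def bb (z v b β δ y : E n) : E n := fun k =>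
  b k + tau z v y * β k + tau z v y * conj (tau z v y) * δ k

/-- Gram matrix of the Levi form -/
noncomputable def gm {r : ℕ} (w : E n → ℝ) (y : E n) (bs : Fin r → E n) :
    Matrix (Fin r) (Fin r) ℂ := Matrix.of fun i j => levi w y (bs i) (bs j)

/-- Gram determinant -/
noncomputable def gd {r : ℕ} (w : E n → ℝ) (y : E n) (bs : Fin r → E n) : ℝ :=
  (gm w y bs).det.re

/-- linear combination -/
def lc {r : ℕ} (t : Fin r → ℂ) (bs : Fin r → E n) : E n := ∑ i, t i • bs i

/-- the quotient `|B(b,b,b)|² / F(b,b̄)³` -/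
noncomputable def Af (w : E n → ℝ) (z b : E n) : ℝ :=
  Complex.normSq (Bf w b b b z) / (levi w z b b).re ^ 3

/-- the kernel of the Levi form -/
noncomputable def kerL (w : E n → ℝ) (z : E n) : Submodule ℂ (E n) where
  carrier := {a | ∀ b, levi w z a b = 0}
  add_mem' := by
    intro a a' ha ha' b
    have h : levi w z (a + a') b = levi w z a b + levi w z a' b := d10_add_vec _ _ _ _
    rw [h, ha b, ha' b, add_zero]
  zero_mem' := fun b => d10_zero_vec _ _
  smul_mem' := by
    intro c a ha b
    have h : levi w z (c • a) b = c * levi w z a b := d10_smul_vec _ _ _ _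
    rw [h, ha b, mul_zero]

theorem mem_kerL {w : E n → ℝ} {z a : E n} : a ∈ kerL w z ↔ ∀ b, levi w z a b = 0 := Iff.rfl

/-- finitely many charts with bump functions covering `X` -/
structure Cover {X : Type*} [TopologicalSpace X] {ι : Type*} (A : Atlas n X ι) (m : ℕ) where
  s : Fin m → ι
  θ : Fin m → E n → ℝ
  smooth : ∀ q, ContDiff ℝ ∞ (θ q)
  nonneg : ∀ q z, 0 ≤ θ q z
  le_one : ∀ q z, θ q z ≤ 1
  compact : ∀ q, HasCompactSupport (θ q)
  sub : ∀ q, tsupport (θ q) ⊆ (A.c (s q)).target
  cover : ∀ x : X, ∃ q, x ∈ (A.c (s q)).source ∧ θ q (A.c (s q) x) = 1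

end Pool.Agent.SKF
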