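import Pool.Agent.SKF.Lhs
import Pool.Agent.SKF.LvA

/-!
Gdb (size 3): uniform bound for Gram determinants.
Proof. `gd (w q) z bs` is the real part of a polynomial in the numbers `levi (w q) z (bs i) (bs j)
= ∑_kl (bs i)_k conj ((bs j)_l) LM (w q) z k l` (`levi_eq_sum`), whose absolute values are bounded on the
compact set `tsupport (θ q)` for `‖bs i‖ ≤ 1` (`LM (w q) . k l` continuous on `U q`): by `Matrix.det_le` or
Leibniz formula `|det M| ≤ r! c^r` for entries bounded by `c`. Maximum over the finitely many `q`.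
-/

open scoped ContDiff ComplexConjugate Topology
open Complex

namespace Pool.Agent.SKF

open Pool.Agent.DTW

variable {n : ℕ}

private theorem gdb_one {r : ℕ} (w : E n → ℝ) (U : Set (E n)) (θ : E n → ℝ)
    (L : Loc w U) (hc : HasCompactSupport θ) (hs : tsupport θ ⊆ U) :
    ∃ G : ℝ, 0 ≤ G ∧ ∀ (z : E n) (bs : Fin r → E n), z ∈ tsupport θ →
      (∀ i, ‖bs i‖ ≤ 1) → |gd w z bs| ≤ G := by
  classical
  have hb : ∀ k l : Ix n, ∃ c : ℝ, ∀ z ∈ tsupport θ, ‖LM w z k l‖ ≤ c := by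
    intro k l
    have h1 : ContinuousOn (fun z => LM w z k l) (tsupport θ) :=
      (contDiffOn_LM L.op L.sm k l).continuousOn.mono hs
    exact hc.isCompact.exists_bound_of_continuousOn h1
  choose c hcb using hb
  let A : ℝ := ∑ k, ∑ l, |c k l|
  have hA0 : 0 ≤ A := Finset.sum_nonneg fun k _ => Finset.sum_nonneg fun l _ => abs_nonneg _
  refine ⟨(Nat.factorial r : ℝ) * A ^ r, by positivity, ?_⟩
  intro z bs hz hbs
  have hzU := hs hz
  have hcd : ContDiffAt ℝ ∞ w z := L.sm.contDiffAt (L.op.mem_nhds hzU)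
  have hlev : ∀ i j, ‖levi w z (bs i) (bs j)‖ ≤ A := by
    intro i j
    rw [levi_eq_sum hcd]
    refine (norm_sum_le _ _).trans (Finset.sum_le_sum fun k _ => ?_)
    refine (norm_sum_le _ _).trans (Finset.sum_le_sum fun l _ => ?_)
    rw [norm_mul, norm_mul, RCLike.norm_conj]
    have e1 : ‖bs i k‖ ≤ 1 := (norm_le_pi_norm (bs i) k).trans (hbs i)
    have e2 : ‖bs j l‖ ≤ 1 := (norm_le_pi_norm (bs j) l).trans (hbs j)
    have e3 : ‖LM w z k l‖ ≤ |c k l| := (hcb k l z hz).trans (le_abs_self _)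
    have e4 : ‖bs i k‖ * ‖bs j l‖ ≤ 1 := mul_le_one₀ e1 (norm_nonneg _) e2
    calc ‖bs i k‖ * ‖bs j l‖ * ‖LM w z k l‖ ≤ 1 * |c k l| :=
          mul_le_mul e4 e3 (norm_nonneg _) zero_le_one
      _ = |c k l| := one_mul _
  have hdet : ‖(gm w z bs).det‖ ≤ (Nat.factorial r : ℝ) * A ^ r := by
    have h1 := Matrix.det_le (A := gm w z bs)
      (abv := IsAbsoluteValue.toAbsoluteValue (norm : ℂ → ℝ)) (x := A) (fun i j => hlev i j)
    rw [Fintype.card_fin, nsmul_eq_mul] at h1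
    exact h1
  unfold gd
  exact (Complex.abs_re_le_norm _).trans hdet

theorem gdb {m r : ℕ} (w : Fin m → E n → ℝ) (U : Fin m → Set (E n)) (θ : Fin m → E n → ℝ)
    (L : ∀ q, Loc (w q) (U q)) (h0 : ∀ q z, 0 ≤ θ q z) (h1 : ∀ q z, θ q z ≤ 1)
    (hc : ∀ q, HasCompactSupport (θ q)) (hs : ∀ q, tsupport (θ q) ⊆ U q) :
    ∃ G : ℝ, 1 ≤ G ∧ ∀ (q : Fin m) (z : E n) (bs : Fin r → E n), z ∈ tsupport (θ q) →
      (∀ i, ‖bs i‖ ≤ 1) → θ q z * gd (w q) z bs ≤ G := by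
  have h2 : ∀ q, ∃ G : ℝ, 0 ≤ G ∧ ∀ (z : E n) (bs : Fin r → E n), z ∈ tsupport (θ q) →
      (∀ i, ‖bs i‖ ≤ 1) → |gd (w q) z bs| ≤ G := fun q =>
    gdb_one (w q) (U q) (θ q) (L q) (hc q) (hs q)
  choose G hG0 hG using h2
  have hsum : 0 ≤ ∑ q, G q := Finset.sum_nonneg fun q _ => hG0 q
  refine ⟨1 + ∑ q, G q, by linarith, ?_⟩
  intro q z bs hz hbs
  have e1 := hG q z bs hz hbs
  have e2 : G q ≤ ∑ q, G q := Finset.single_le_sum (fun q _ => hG0 q) (Finset.mem_univ q)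
  have e3 : θ q z * gd (w q) z bs ≤ θ q z * |gd (w q) z bs| :=
    mul_le_mul_of_nonneg_left (le_abs_self _) (h0 q z)
  have e4 : θ q z * |gd (w q) z bs| ≤ 1 * |gd (w q) z bs| :=
    mul_le_mul_of_nonneg_right (h1 q z) (abs_nonneg _)
  linarith

end Pool.Agent.SKF
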