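import Pool.Agent.SKF.Defs

/-!
Gex (size 4): Gram determinants of a positive semidefinite hermitian form `hf F`.
`gps_nonneg`: the Gram matrix is positive semidefinite (`Matrix.PosSemidef.det_nonneg`).
`gps_pd`: positive semidefinite with nonzero determinant = positive definite.
`gps_card`: nonzero Gram determinant implies linear independence, so `r ≤ 2n`.
`gex`: choose `x ≠ 0` with `x ᵥ* M' = 0` for the Gram matrix `M'` of `Fin.snoc bs b`
(`Matrix.exists_vecMul_eq_zero_iff`); `a = ∑ x i • (Fin.snoc bs b) i` satisfies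
`hf F a (bs' j) = 0` for all `j`, hence `hf F a a = 0`, hence `hf F a c = 0` for all `c`
(`Psd.ker`). If the last coordinate of `x` were 0 the Gram matrix of `bs` would be singular.
Divide by the last coordinate.
-/

open scoped ContDiff ComplexConjugate Topology
open Complex

namespace Pool.Agent.SKF

open Pool.Agent.DTW

variable {n : ℕ} {F : Ix n → Ix n → ℂ} {r : ℕ}

/-- the linear functions of a Gram decomposition -/
private noncomputable def gexT {m : ℕ} (v : Fin m → Ix n → ℂ) (a : E n) (p : Fin m) : ℂ :=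
  ∑ k, v p k * a k

private theorem gex_hf {m : ℕ} {v : Fin m → Ix n → ℂ}
    (hv : ∀ k l, F k l = ∑ p, v p k * conj (v p l)) (a b : E n) :
    hf F a b = ∑ p, gexT v a p * conj (gexT v b p) := by
  have h1 : ∀ p, gexT v a p * conj (gexT v b p)
      = ∑ k, ∑ l, a k * conj (b l) * (v p k * conj (v p l)) := by
    intro p
    unfold gexT
    rw [map_sum, Finset.sum_mul_sum]
    refine Finset.sum_congr rfl fun k _ => Finset.sum_congr rfl fun l _ => ?_
    rw [map_mul]
    ring
  simp only [h1]
  unfold hf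
  symm
  rw [Finset.sum_comm]
  refine Finset.sum_congr rfl fun k _ => ?_
  rw [Finset.sum_comm]
  refine Finset.sum_congr rfl fun l _ => ?_
  rw [← Finset.mul_sum, hv]

private theorem gexT_lc {m : ℕ} (v : Fin m → Ix n → ℂ) {s : ℕ} (t : Fin s → ℂ)
    (bs : Fin s → E n) (p : Fin m) : gexT v (lc t bs) p = ∑ i, t i * gexT v (bs i) p := by
  unfold gexT lc
  simp only [Finset.sum_apply, Pi.smul_apply, smul_eq_mul, Finset.mul_sum]
  rw [Finset.sum_comm]
  refine Finset.sum_congr rfl fun i _ => Finset.sum_congr rfl fun k _ => ?_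
  ring

private theorem gex_sum_zero {m : ℕ} (f : Fin m → ℂ) (h : (∑ p, f p * conj (f p)).re ≤ 0)
    (p : Fin m) : f p = 0 := by
  simp only [Complex.mul_conj, Complex.re_sum, Complex.ofReal_re] at h
  have h0 : ∑ p, Complex.normSq (f p) = 0 :=
    le_antisymm h (Finset.sum_nonneg fun p _ => Complex.normSq_nonneg _)
  exact Complex.normSq_eq_zero.1
    ((Finset.sum_eq_zero_iff_of_nonneg (fun p _ => Complex.normSq_nonneg _)).1 h0 p
      (Finset.mem_univ p))

private theorem gex_vecMul {m : ℕ} {v : Fin m → Ix n → ℂ}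
    (hv : ∀ k l, F k l = ∑ p, v p k * conj (v p l)) {s : ℕ} (t : Fin s → ℂ)
    (bs : Fin s → E n) (j : Fin s) :
    Matrix.vecMul t (Matrix.of fun i j => hf F (bs i) (bs j)) j
      = ∑ p, gexT v (lc t bs) p * conj (gexT v (bs j) p) := by
  simp only [Matrix.vecMul, dotProduct, Matrix.of_apply]
  simp only [gex_hf hv, gexT_lc, Finset.mul_sum, Finset.sum_mul]
  rw [Finset.sum_comm]
  refine Finset.sum_congr rfl fun p _ => Finset.sum_congr rfl fun i _ => ?_
  ring

private theorem gex_gram {m : ℕ} {v : Fin m → Ix n → ℂ}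
    (hv : ∀ k l, F k l = ∑ p, v p k * conj (v p l)) {s : ℕ} (bs : Fin s → E n) :
    (Matrix.of fun i j => hf F (bs i) (bs j)) =
      (Matrix.of fun (i : Fin s) (p : Fin m) => gexT v (bs i) p) *
        (Matrix.of fun (i : Fin s) (p : Fin m) => gexT v (bs i) p).conjTranspose := by
  ext i j
  simp only [Matrix.of_apply, Matrix.mul_apply, Matrix.conjTranspose_apply]
  rw [gex_hf hv]
  rfl

open scoped ComplexOrder in
theorem gps_nonneg (hF : Psd F) (bs : Fin r → E n) :
    0 ≤ (Matrix.of fun i j => hf F (bs i) (bs j)).det.re ∧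
      (Matrix.of fun i j => hf F (bs i) (bs j)).det.im = 0 := by
  obtain ⟨m, v, hv⟩ := hF.gram
  have hps : (Matrix.of fun i j => hf F (bs i) (bs j)).PosSemidef := by
    rw [gex_gram hv bs]
    exact Matrix.posSemidef_self_mul_conjTranspose _
  have h := hps.det_nonneg
  rw [Complex.le_def] at h
  exact ⟨by simpa using h.1, by simpa using h.2.symm⟩

theorem gps_pd (hF : Psd F) (bs : Fin r → E n)
    (h : (Matrix.of fun i j => hf F (bs i) (bs j)).det.re ≠ 0) (t : Fin r → ℂ) (ht : t ≠ 0) :
    0 < (hf F (lc t bs) (lc t bs)).re := by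
  obtain ⟨m, v, hv⟩ := hF.gram
  by_contra hcon
  rw [gex_hf hv] at hcon
  have hz := gex_sum_zero (fun p => gexT v (lc t bs) p) (not_lt.1 hcon)
  apply h
  have hdet : (Matrix.of fun i j => hf F (bs i) (bs j)).det = 0 := by
    rw [← Matrix.exists_vecMul_eq_zero_iff]
    refine ⟨t, ht, ?_⟩
    funext j
    rw [gex_vecMul hv t bs j]
    simp only [hz, zero_mul, Finset.sum_const_zero, Pi.zero_apply]
  rw [hdet, Complex.zero_re]

theorem gps_card (hF : Psd F) (bs : Fin r → E n)
    (h : (Matrix.of fun i j => hf F (bs i) (bs j)).det.re ≠ 0) : r ≤ 2 * n := by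
  have hli : LinearIndependent ℂ bs := by
    rw [Fintype.linearIndependent_iff]
    intro t ht
    by_contra hcon
    have ht0 : t ≠ 0 := by
      intro h0
      apply hcon
      intro i
      rw [h0, Pi.zero_apply]
    have h1 := gps_pd hF bs h t ht0
    have h2 : lc t bs = 0 := ht
    rw [h2] at h1
    simp [hf] at h1
  have h3 := hli.fintype_card_le_finrank
  simp only [Fintype.card_fin, Module.finrank_fintype_fun_eq_card, Fintype.card_sum] at h3
  omega

theorem gex (hF : Psd F) (bs : Fin r → E n) (b : E n)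
    (h1 : (Matrix.of fun i j => hf F (bs i) (bs j)).det.re ≠ 0)
    (h2 : (Matrix.of fun i j => hf F (Fin.snoc (α := fun _ => E n) bs b i)
      (Fin.snoc (α := fun _ => E n) bs b j)).det.re = 0) :
    ∃ t : Fin r → ℂ, ∀ c, hf F (b - lc t bs) c = 0 := by
  obtain ⟨m, v, hv⟩ := hF.gram
  have h3 := (gps_nonneg hF (Fin.snoc (α := fun _ => E n) bs b)).2
  have hdet : (Matrix.of fun i j => hf F (Fin.snoc (α := fun _ => E n) bs b i)
      (Fin.snoc (α := fun _ => E n) bs b j)).det = 0 := Complex.ext h2 h3
  rw [← Matrix.exists_vecMul_eq_zero_iff] at hdet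
  obtain ⟨x, hx0, hx⟩ := hdet
  -- the combination `a`
  have hz : ∀ p, gexT v (lc x (Fin.snoc (α := fun _ => E n) bs b)) p = 0 := by
    apply gex_sum_zero (fun p => gexT v (lc x (Fin.snoc (α := fun _ => E n) bs b)) p)
    have e1 : ∑ p, gexT v (lc x (Fin.snoc (α := fun _ => E n) bs b)) p *
        conj (gexT v (lc x (Fin.snoc (α := fun _ => E n) bs b)) p) = 0 := by
      have e2 : ∀ p, gexT v (lc x (Fin.snoc (α := fun _ => E n) bs b)) p *
          conj (gexT v (lc x (Fin.snoc (α := fun _ => E n) bs b)) p)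
          = ∑ j, conj (x j) * (gexT v (lc x (Fin.snoc (α := fun _ => E n) bs b)) p *
              conj (gexT v (Fin.snoc (α := fun _ => E n) bs b j) p)) := by
        intro p
        rw [gexT_lc v x (Fin.snoc (α := fun _ => E n) bs b) p, map_sum, Finset.mul_sum]
        refine Finset.sum_congr rfl fun j _ => ?_
        rw [map_mul]
        ring
      simp only [e2]
      rw [Finset.sum_comm]
      refine Finset.sum_eq_zero fun j _ => ?_
      rw [← Finset.mul_sum, ← gex_vecMul hv x (Fin.snoc (α := fun _ => E n) bs b) j, hx,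
        Pi.zero_apply, mul_zero]
    rw [e1, Complex.zero_re]
  have hsplit : lc x (Fin.snoc (α := fun _ => E n) bs b)
      = lc (fun i => x (Fin.castSucc i)) bs + x (Fin.last r) • b := by
    unfold lc
    rw [Fin.sum_univ_castSucc]
    simp only [Fin.snoc_castSucc, Fin.snoc_last]
  have hlast : x (Fin.last r) ≠ 0 := by
    intro h0
    rw [h0, zero_smul, add_zero] at hsplit
    have hne : (fun i => x (Fin.castSucc i)) ≠ (0 : Fin r → ℂ) := by
      intro hx1
      apply hx0
      funext i
      refine Fin.lastCases ?_ (fun i => ?_) i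
      · exact h0
      · exact congrFun hx1 i
    have h4 := gps_pd hF bs h1 _ hne
    rw [← hsplit, gex_hf hv] at h4
    simp only [hz, zero_mul, Finset.sum_const_zero, Complex.zero_re, lt_irrefl] at h4
  refine ⟨fun i => -(x (Fin.castSucc i) / x (Fin.last r)), fun c => ?_⟩
  have hT : ∀ p, gexT v (b - lc (fun i => -(x (Fin.castSucc i) / x (Fin.last r))) bs) p = 0 := by
    intro p
    have e3 : b - lc (fun i => -(x (Fin.castSucc i) / x (Fin.last r))) bs
        = (x (Fin.last r))⁻¹ • lc x (Fin.snoc (α := fun _ => E n) bs b) := by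
      rw [hsplit, smul_add, smul_smul, inv_mul_cancel₀ hlast, one_smul]
      unfold lc
      rw [Finset.smul_sum, sub_eq_add_neg, ← Finset.sum_neg_distrib, add_comm]
      congr 1
      refine Finset.sum_congr rfl fun i _ => ?_
      rw [← neg_smul, neg_neg, smul_smul, div_eq_inv_mul]
    have e4 : ∀ (c : ℂ) (a : E n), gexT v (c • a) p = c * gexT v a p := by
      intro c a
      unfold gexT
      rw [Finset.mul_sum]
      refine Finset.sum_congr rfl fun k _ => ?_
      rw [Pi.smul_apply, smul_eq_mul]
      ring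
    rw [e3, e4, hz, mul_zero]
  rw [gex_hf hv]
  simp only [hT, zero_mul, Finset.sum_const_zero]

end Pool.Agent.SKF
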