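import Pool.Agent.SKF.Jpr

/-!
Lgn (size 4): Levi form of logarithms.
`lgn`: `exp (log N) = N` near `z`: with `ℓ = cx (log N)` (smooth near z), `d01 (cx N) y v
= cx N y * d01 ℓ y v` (`d01_exp`), so `mx (cx N) z v = N mx ℓ + d10 (cx N) z v * d01 ℓ z v`.
`lgt`: apply `lgn` to `N = normSq (f y) = f y * conj (f y)`; jets of `f`: `(f, f10, 0, 0)`, of `conj f`:
`(f̄, 0, conj f10, 0)`; so `mx N = |f10|²`, `d10 N = f10 f̄`, `d01 N = f conj f10` and the result is 0.
`lgr`: Levi form of sums and real multiples.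
-/

open scoped ContDiff ComplexConjugate Topology
open Complex

namespace Pool.Agent.SKF

open Pool.Agent.DTW

variable {n : ℕ} {U : Set (E n)} {z v : E n}

theorem lgn (hU : IsOpen U) {N : E n → ℝ} (hN : ContDiffOn ℝ ∞ N U) (hp : ∀ y ∈ U, 0 < N y)
    (hz : z ∈ U) :
    ContDiffOn ℝ ∞ (fun y => Real.log (N y)) U ∧
    levi (fun y => Real.log (N y)) z v v
      = mx (cx N) z v / (N z : ℂ) - d10 (cx N) z v * d01 (cx N) z v / (N z : ℂ) ^ 2 := by
  have hlog : ContDiffOn ℝ ∞ (fun y => Real.log (N y)) U := hN.log (fun y hy => (hp y hy).ne')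
  refine ⟨hlog, ?_⟩
  have hcN : ContDiffOn ℝ ∞ (cx N) U := contDiffOn_cx hN
  have hcl : ContDiffOn ℝ ∞ (cx (fun y => Real.log (N y))) U := contDiffOn_cx hlog
  have hd01 : ∀ y ∈ U, d01 (cx N) y v = cx N y * d01 (cx (fun y => Real.log (N y))) y v := by
    intro y hy
    have h1 : cx N =ᶠ[𝓝 y] fun x => cexp (cx (fun y => Real.log (N y)) x) := by
      filter_upwards [hU.mem_nhds hy] with x hx
      show ((N x : ℝ) : ℂ) = cexp ((Real.log (N x) : ℝ) : ℂ)
      rw [← Complex.ofReal_exp, Real.exp_log (hp x hx)]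
    rw [d01_congr h1, d01_exp (diffAt_of hU hcl hy)]
    congr 1
    show cexp ((Real.log (N y) : ℝ) : ℂ) = ((N y : ℝ) : ℂ)
    rw [← Complex.ofReal_exp, Real.exp_log (hp y hy)]
  have hN0 : (N z : ℂ) ≠ 0 := by
    exact_mod_cast (hp z hz).ne'
  have hcx : cx N z = (N z : ℂ) := rfl
  have hmx : mx (cx N) z v = d10 (cx N) z v * d01 (cx (fun y => Real.log (N y))) z v
      + cx N z * mx (cx (fun y => Real.log (N y))) z v := by
    unfold mx
    have h2 : (fun y => d01 (cx N) y v) =ᶠ[𝓝 z]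
        fun y => cx N y * d01 (cx (fun y => Real.log (N y))) y v := by
      filter_upwards [hU.mem_nhds hz] with y hy
      exact hd01 y hy
    rw [d10_congr h2, d10_mul (diffAt_of hU hcN hz)
      (diffAt_of hU (contDiffOn_d01 hU hcl v) hz)]
  have hz1 := hd01 z hz
  have hlev : levi (fun y => Real.log (N y)) z v v = mx (cx (fun y => Real.log (N y))) z v := rfl
  rw [hlev]
  rw [hcx] at hmx hz1
  have e1 : d01 (cx (fun y => Real.log (N y))) z v = d01 (cx N) z v / (N z : ℂ) := by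
    rw [hz1]; field_simp
  rw [e1] at hmx
  have e2 : mx (cx (fun y => Real.log (N y))) z v
      = (mx (cx N) z v - d10 (cx N) z v * (d01 (cx N) z v / (N z : ℂ))) / (N z : ℂ) := by
    rw [hmx]; field_simp; ring
  rw [e2]
  field_simp

theorem lgt (hU : IsOpen U) {f : E n → ℂ} (hf : ContDiffOn ℝ ∞ f U) (hp : ∀ y ∈ U, f y ≠ 0)
    (hz : z ∈ U) (h1 : d01 f z v = 0) (h2 : mx f z v = 0) :
    ContDiffOn ℝ ∞ (fun y => Real.log (Complex.normSq (f y))) U ∧
    levi (fun y => Real.log (Complex.normSq (f y))) z v v = 0 := by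
  have hfc : ContDiffOn ℝ ∞ (fun y => conj (f y)) U :=
    Complex.conjCLE.contDiff.comp_contDiffOn hf
  have hN : ContDiffOn ℝ ∞ (fun y => Complex.normSq (f y)) U := by
    have h : ContDiffOn ℝ ∞ (fun y => Complex.reCLM (f y * conj (f y))) U :=
      Complex.reCLM.contDiff.comp_contDiffOn (hf.mul hfc)
    refine h.congr (fun y _ => ?_)
    show Complex.normSq (f y) = (f y * conj (f y)).re
    rw [Complex.mul_conj, Complex.ofReal_re]
  have hpos : ∀ y ∈ U, 0 < Complex.normSq (f y) := fun y hy => Complex.normSq_pos.mpr (hp y hy)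
  obtain ⟨hs, hl⟩ := lgn (v := v) hU hN hpos hz
  refine ⟨hs, ?_⟩
  rw [hl]
  have hcx : cx (fun y => Complex.normSq (f y)) = fun y => f y * conj (f y) := by
    funext y
    show ((Complex.normSq (f y) : ℝ) : ℂ) = f y * conj (f y)
    rw [Complex.mul_conj]
  have hdf := diffAt_of hU hf hz
  have hdc := diffAt_of hU hfc hz
  have em : mx (cx (fun y => Complex.normSq (f y))) z v = d10 f z v * conj (d10 f z v) := by
    rw [hcx, mx_mul hU hf hfc hz, h1, h2, mx_conj hU hf hz, h2, d01_conj hdf]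
    simp
  have e10 : d10 (cx (fun y => Complex.normSq (f y))) z v = d10 f z v * conj (f z) := by
    rw [hcx, d10_mul hdf hdc, d10_conj hdf, h1]
    simp
  have e01 : d01 (cx (fun y => Complex.normSq (f y))) z v = f z * conj (d10 f z v) := by
    rw [hcx, d01_mul hdf hdc, d01_conj hdf, h1]
    simp
  rw [em, e10, e01, ← Complex.mul_conj]
  have hf0 : f z ≠ 0 := hp z hz
  have hc0 : conj (f z) ≠ 0 := (map_ne_zero _).mpr hf0
  field_simp
  ring

theorem lgr (hU : IsOpen U) {f g : E n → ℝ} (hf : ContDiffOn ℝ ∞ f U) (hg : ContDiffOn ℝ ∞ g U)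
    (hz : z ∈ U) (c d : ℝ) :
    levi (fun y => c * f y + d * g y) z v v = c * levi f z v v + d * levi g z v v := by
  have hcf : ContDiffOn ℝ ∞ (cx f) U := contDiffOn_cx hf
  have hcg : ContDiffOn ℝ ∞ (cx g) U := contDiffOn_cx hg
  have e1 : levi (fun y => c * f y + d * g y) z v v
      = mx (fun y => (c : ℂ) * cx f y + (d : ℂ) * cx g y) z v := by
    have h : cx (fun y => c * f y + d * g y) = fun y => (c : ℂ) * cx f y + (d : ℂ) * cx g y := by
      funext y
      simp [cx]
    show mx (cx (fun y => c * f y + d * g y)) z v = _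
    rw [h]
  have e2 : levi f z v v = mx (cx f) z v := rfl
  have e3 : levi g z v v = mx (cx g) z v := rfl
  rw [e1, e2, e3, mx_add hU (contDiffOn_const.mul hcf) (contDiffOn_const.mul hcg) hz,
    mx_const_mul hU hcf hz, mx_const_mul hU hcg hz]

end Pool.Agent.SKF
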