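import Pool.Agent.SKF.Sym

/-!
Lhs (size 3): the hermitian form `levi w z` and the quotient `Af`.
`levi_self`: `levi_conj` gives the real value, `Psd.pos` and `levi_eq_sum` the sign.
`levi_cs`: Cauchy-Schwarz for a positive semidefinite hermitian form (take the Gram
representation `Psd.gram` of DTW.Alg, or the discriminant argument with `levi (a + t b) (a + t b) >= 0`).
`Af_ker`: by `levi` linear and hermitian, `Bf_add1/2/3` and `Bf_ker` (with `Bf_symm12`, `Bf_symm23`).
`Af_smul`: numerator and denominator are multiplied by `|t|^6`.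
-/

open scoped ContDiff ComplexConjugate Topology
open Complex

namespace Pool.Agent.SKF

open Pool.Agent.DTW

variable {n : ℕ} {U : Set (E n)} {w : E n → ℝ} {z : E n}

private theorem Lhs_gram (L : Loc w U) (hz : z ∈ U) :
    ∃ (m : ℕ) (v : Fin m → Ix n → ℂ), ∀ a b : E n,
      levi w z a b = ∑ p, (∑ k, a k * v p k) * conj (∑ k, b k * v p k) := by
  have hw : ContDiffAt ℝ ∞ w z := L.sm.contDiffAt (L.op.mem_nhds hz)
  obtain ⟨m, v, hv⟩ := (L.psd z hz).gram
  refine ⟨m, v, fun a b => ?_⟩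
  rw [levi_eq_sum hw]
  have h1 : ∀ p : Fin m, (∑ k, a k * v p k) * conj (∑ k, b k * v p k)
      = ∑ k, ∑ l, a k * conj (b l) * (v p k * conj (v p l)) := by
    intro p
    rw [map_sum, Finset.sum_mul_sum]
    refine Finset.sum_congr rfl fun k _ => Finset.sum_congr rfl fun l _ => ?_
    rw [map_mul]
    ring
  simp only [h1]
  symm
  rw [Finset.sum_comm]
  refine Finset.sum_congr rfl fun k _ => ?_
  rw [Finset.sum_comm]
  refine Finset.sum_congr rfl fun l _ => ?_
  rw [hv, Finset.mul_sum]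

private theorem Lhs_self {m : ℕ} {v : Fin m → Ix n → ℂ}
    (hv : ∀ a b : E n, levi w z a b = ∑ p, (∑ k, a k * v p k) * conj (∑ k, b k * v p k))
    (a : E n) : (levi w z a a).re = ∑ p, ‖∑ k, a k * v p k‖ ^ 2 := by
  rw [hv, Complex.re_sum]
  refine Finset.sum_congr rfl fun p _ => ?_
  rw [Complex.mul_conj, Complex.ofReal_re, Complex.normSq_eq_norm_sq]

/-- `levi w z b b` is real and nonnegative -/
theorem levi_self (L : Loc w U) (hz : z ∈ U) (b : E n) :
    levi w z b b = (((levi w z b b).re : ℝ) : ℂ) ∧ 0 ≤ (levi w z b b).re := by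
  have hw : ContDiffAt ℝ ∞ w z := L.sm.contDiffAt (L.op.mem_nhds hz)
  refine ⟨?_, ?_⟩
  · exact (Complex.conj_eq_iff_re.mp (levi_conj L hz b b)).symm
  · rw [levi_eq_sum hw]
    exact (L.psd z hz).pos b

/-- Cauchy-Schwarz -/
theorem levi_cs (L : Loc w U) (hz : z ∈ U) (a b : E n) :
    Complex.normSq (levi w z a b) ≤ (levi w z a a).re * (levi w z b b).re := by
  obtain ⟨m, v, hv⟩ := Lhs_gram L hz
  rw [Lhs_self hv, Lhs_self hv, Complex.normSq_eq_norm_sq, hv]
  have h1 : ‖∑ p, (∑ k, a k * v p k) * conj (∑ k, b k * v p k)‖ ≤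
      ∑ p, ‖∑ k, a k * v p k‖ * ‖∑ k, b k * v p k‖ := by
    refine (norm_sum_le _ _).trans (le_of_eq ?_)
    refine Finset.sum_congr rfl fun p _ => ?_
    rw [norm_mul, Complex.norm_conj]
  calc ‖∑ p, (∑ k, a k * v p k) * conj (∑ k, b k * v p k)‖ ^ 2
      ≤ (∑ p, ‖∑ k, a k * v p k‖ * ‖∑ k, b k * v p k‖) ^ 2 :=
        pow_le_pow_left₀ (norm_nonneg _) h1 2
    _ ≤ _ := Finset.sum_mul_sq_le_sq_mul_sq _ _ _

/-- isotropic vectors are in the kernel -/
theorem ker_of_self (L : Loc w U) (hz : z ∈ U) {b : E n} (hb : (levi w z b b).re = 0) (c : E n) :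
    levi w z b c = 0 := by
  have h := levi_cs L hz b c
  rw [hb, zero_mul] at h
  exact Complex.normSq_eq_zero.mp (le_antisymm h (Complex.normSq_nonneg _))

/-- `levi`, `Bf` and hence `Af` depend only on `b` modulo the kernel -/
theorem Af_ker (L : Loc w U) (hz : z ∈ U) {b b' : E n} (h : ∀ c, levi w z (b - b') c = 0) :
    Af w z b = Af w z b' ∧ (levi w z b b).re = (levi w z b' b').re ∧
      Bf w b b b z = Bf w b' b' b' z := by
  have hb : b = b' + (b - b') := by abel
  have hr : ∀ a, levi w z a (b - b') = 0 := fun a => by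
    rw [← levi_conj L hz (b - b') a, h a, map_zero]
  have hl : levi w z b b = levi w z b' b' := by
    have h1 : levi w z b b = levi w z b' b := by
      conv_lhs => rw [hb]
      rw [levi_add_left L hz, ← hb, h b, add_zero]
    have h2 : levi w z b' b = levi w z b' b' := by
      conv_lhs => rw [hb]
      rw [levi_add_right L hz, hr, add_zero]
    rw [h1, h2]
  have hB : ∀ c d, Bf w b c d z = Bf w b' c d z := by
    intro c d
    conv_lhs => rw [hb]
    rw [Bf_add1 L hz, Bf_ker L hz h, add_zero]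
  have hBB : Bf w b b b z = Bf w b' b' b' z := by
    rw [hB, Bf_symm12 L hz, hB, Bf_symm23 L hz, Bf_symm12 L hz, hB]
  refine ⟨?_, by rw [hl], hBB⟩
  unfold Af
  rw [hBB, hl]

/-- homogeneity of degree zero -/
theorem Af_smul (L : Loc w U) (hz : z ∈ U) {t : ℂ} (ht : t ≠ 0) (b : E n) :
    Af w z (t • b) = Af w z b := by
  have ht2 : Complex.normSq t ≠ 0 := fun h0 => ht (Complex.normSq_eq_zero.mp h0)
  have h1 : (levi w z (t • b) (t • b)).re = Complex.normSq t * (levi w z b b).re := by
    rw [levi_smul_left L hz, levi_smul_right L hz, ← mul_assoc, Complex.mul_conj,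
      Complex.re_ofReal_mul]
  have h2 : Complex.normSq (Bf w (t • b) (t • b) (t • b) z) =
      Complex.normSq t ^ 3 * Complex.normSq (Bf w b b b z) := by
    rw [Bf_smul1 L hz, Bf_smul2 L hz, Bf_smul3 L hz]
    simp only [map_mul, Complex.normSq_conj]
    ring
  unfold Af
  rw [h1, h2, mul_pow]
  exact mul_div_mul_left _ _ (pow_ne_zero 3 ht2)

end Pool.Agent.SKF
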