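import Pool.Agent.SKF.Rh
import Pool.Agent.SKF.Lgn
import Pool.Agent.SKF.JetA
import Pool.Agent.SKF.Gex
import Pool.Agent.SKF.Lhs

/-!
Grm (size 5): the logarithm of a Gram determinant of maximal size is plurisubharmonic in the
directions `v = XX w z b`.
Proof. The Gram matrix `M0 = gm w z bs` is hermitian positive definite (`gps_pd`), so there is an
invertible matrix `P` with `P M0 Pᴴ = 1` (e.g. a `CFC`/Cholesky/spectral square root, or
`Matrix.PosDef`: choose an orthonormal basis); put `bs' i = ∑ j, P i j • bs j`. Then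
`gm w y bs' = P (gm w y bs) Pᴴ` for all `y`, so `gd w y bs' = |det P|² gd w y bs`, the logarithms
differ by a constant near `z`, and we may assume `gm w z bs = 1`.
Choose `β_i` (`ex_bet` for `a = bs i`) and `γ_i` (`ex_gam`); by the span condition and since `IsBet`
determines `β_i` modulo the kernel we may take `β_i = ∑ j, A' i j • bs j`; then
`A i j := d10 (Lf w (bs i) (bs j)) z v = - levi w z β_i (bs j) = - A' i j`,
`B i j := d01 (Lf w (bs i) (bs j)) z v = conj (A j i)` (`conj_d10_Lf`), i.e. `B = Aᴴ`, and by `jetA`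
`C i j := mx (Lf w (bs i) (bs j)) z v = levi β_i β_j + levi γ_j γ_i = (A Aᴴ) i j + levi γ_j γ_i`.
By `rh` and `lgn` (`N y = gd w y bs`, the determinant is real: `gps_nonneg`)
`levi (log gd) z v v = tr C + tr A tr B - tr (A B) - tr A tr B = ∑ i, levi w z γ_i γ_i ≥ 0`.
-/

open scoped ContDiff ComplexConjugate Topology
open Complex

namespace Pool.Agent.SKF

open Pool.Agent.DTW

variable {n : ℕ} {U : Set (E n)} {w : E n → ℝ} {z : E n}

private theorem grm_smooth_levi (L : Loc w U) (a b : E n) :
    ContDiffOn ℝ ∞ (fun y => levi w y a b) U :=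
  contDiffOn_d10 L.op (contDiffOn_d01 L.op (contDiffOn_cx L.sm) b) a

private theorem grm_smooth_det (L : Loc w U) {r : ℕ} (bs : Fin r → E n) :
    ContDiffOn ℝ ∞ (fun y => (gm w y bs).det) U := by
  simp only [Matrix.det_apply']
  refine ContDiffOn.sum fun σ _ => ?_
  refine contDiffOn_const.mul ?_
  refine contDiffOn_prod fun i _ => ?_
  exact grm_smooth_levi L _ _

theorem smooth_gd (L : Loc w U) {r : ℕ} (bs : Fin r → E n) :
    ContDiffOn ℝ ∞ (fun y => gd w y bs) U :=
  Complex.reCLM.contDiff.comp_contDiffOn (grm_smooth_det L bs)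

private theorem grm_left (L : Loc w U) (hz : z ∈ U) {r : ℕ} (s : Fin r → ℂ) (g : Fin r → E n)
    (c : E n) : levi w z (lc s g) c = ∑ k, s k * levi w z (g k) c := by
  unfold lc
  have h : ∀ S : Finset (Fin r), levi w z (∑ i ∈ S, s i • g i) c =
      ∑ k ∈ S, s k * levi w z (g k) c := by
    intro S
    induction S using Finset.induction_on with
    | empty =>
      have h0 : levi w z 0 c = 0 := d10_zero_vec _ _
      rw [Finset.sum_empty, Finset.sum_empty]
      exact h0
    | insert a S ha ih =>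
      rw [Finset.sum_insert ha, Finset.sum_insert ha, levi_add_left L hz, levi_smul_left L hz, ih]
  exact h Finset.univ

private theorem grm_right (L : Loc w U) (hz : z ∈ U) {r : ℕ} (s : Fin r → ℂ) (g : Fin r → E n)
    (c : E n) : levi w z c (lc s g) = ∑ k, conj (s k) * levi w z c (g k) := by
  rw [← levi_conj L hz, grm_left L hz, map_sum]
  refine Finset.sum_congr rfl fun k _ => ?_
  rw [map_mul, levi_conj L hz]

open scoped ComplexOrder in
private theorem grm_psd (L : Loc w U) (hz : z ∈ U) {r : ℕ} (bs : Fin r → E n) :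
    (gm w z bs).PosSemidef := by
  refine Matrix.PosSemidef.of_dotProduct_mulVec_nonneg ?_ fun x => ?_
  · ext i j
    rw [Matrix.conjTranspose_apply]
    exact levi_conj L hz (bs j) (bs i)
  · have h1 : star x ⬝ᵥ ((gm w z bs).mulVec x) =
        levi w z (lc (fun i => conj (x i)) bs) (lc (fun i => conj (x i)) bs) := by
      rw [grm_left L hz]
      simp only [dotProduct, Matrix.mulVec, Pi.star_apply]
      refine Finset.sum_congr rfl fun i _ => ?_
      rw [grm_right L hz]
      have h2 : ∀ k : Fin r, conj (conj (x k)) * levi w z (bs i) (bs k) =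
          gm w z bs i k * x k := by
        intro k
        rw [Complex.conj_conj, mul_comm]
        rfl
      rw [Finset.sum_congr rfl fun k _ => h2 k]
      rfl
    rw [h1, Complex.nonneg_iff]
    have h2 := levi_self L hz (lc (fun i => conj (x i)) bs)
    refine ⟨h2.2, ?_⟩
    rw [h2.1]
    simp

open scoped ComplexOrder in
private theorem grm_det (L : Loc w U) (hz : z ∈ U) {r : ℕ} (bs : Fin r → E n) :
    0 ≤ gd w z bs ∧ (gm w z bs).det = ((gd w z bs : ℝ) : ℂ) := by
  have h := (grm_psd L hz bs).det_nonneg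
  rw [Complex.nonneg_iff] at h
  refine ⟨h.1, ?_⟩
  apply Complex.ext
  · simp [gd]
  · simp [← h.2]

theorem gd_nonneg (L : Loc w U) {r : ℕ} (bs : Fin r → E n) (hz : z ∈ U) : 0 ≤ gd w z bs :=
  (grm_det L hz bs).1

open scoped ComplexOrder in
/-- the trace of a product of two positive semidefinite Gram matrices -/
private theorem grm_tr (L : Loc w U) (hz : z ∈ U) {r : ℕ} {Q : Matrix (Fin r) (Fin r) ℂ}
    (hQ : Q.PosSemidef) (g : Fin r → E n) :
    0 ≤ (Q * Matrix.of (fun k j => levi w z (g j) (g k))).trace.re := by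
  obtain ⟨m, v, hv⟩ := Matrix.posSemidef_iff_eq_sum_vecMulVec.1 hQ
  have h1 : (Q * Matrix.of (fun k j => levi w z (g j) (g k))).trace =
      ∑ p, levi w z (lc (v p) g) (lc (v p) g) := by
    have h2 : ∀ p, levi w z (lc (v p) g) (lc (v p) g) =
        ∑ k, ∑ j, (v p k * conj (v p j)) * levi w z (g k) (g j) := by
      intro p
      rw [grm_left L hz]
      refine Finset.sum_congr rfl fun k _ => ?_
      rw [grm_right L hz, Finset.mul_sum]
      refine Finset.sum_congr rfl fun j _ => ?_
      ring
    rw [Finset.sum_congr rfl fun p _ => h2 p, Finset.sum_comm]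
    simp only [Matrix.trace, Matrix.diag, Matrix.mul_apply, Matrix.of_apply]
    refine Finset.sum_congr rfl fun k _ => ?_
    rw [Finset.sum_comm]
    refine Finset.sum_congr rfl fun j _ => ?_
    have h3 : Q k j = ∑ p, v p k * conj (v p j) := by
      have := congrFun (congrFun hv k) j
      simpa [Matrix.sum_apply, Matrix.vecMulVec_apply] using this
    rw [h3, Finset.sum_mul]
  rw [h1, Complex.re_sum]
  exact Finset.sum_nonneg fun p _ => (levi_self L hz _).2

open scoped ComplexOrder in
private theorem grm_tr' (L : Loc w U) (hz : z ∈ U) {r : ℕ} (bs g : Fin r → E n) :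
    0 ≤ ((gm w z bs)⁻¹ * Matrix.of (fun k j => levi w z (g j) (g k))).trace.re :=
  grm_tr L hz (grm_psd L hz bs).inv g

theorem grm (L : Loc w U) (hz : z ∈ U) (b : E n) {r : ℕ} (bs : Fin r → E n)
    (h0 : 0 < gd w z bs)
    (hs : ∀ a : E n, ∃ t : Fin r → ℂ, ∀ c, levi w z (a - lc t bs) c = 0) :
    0 ≤ (levi (fun y => Real.log (gd w y bs)) z (XX w z b) (XX w z b)).re := by
  classical
  set v : E n := XX w z b with hv
  set c : ℝ := gd w z bs with hc
  set M0 : Matrix (Fin r) (Fin r) ℂ := gm w z bs with hM0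
  have hcc : (c : ℂ) ≠ 0 := by exact_mod_cast h0.ne'
  have hdet0 : M0.det = (c : ℂ) := (grm_det L hz bs).2
  have hunit : IsUnit M0.det := by rw [hdet0]; exact isUnit_iff_ne_zero.2 hcc
  set Q : Matrix (Fin r) (Fin r) ℂ := M0⁻¹ with hQ
  have hQM : Q * M0 = 1 := Matrix.nonsing_inv_mul M0 hunit
  have hMQ : M0 * Q = 1 := Matrix.mul_nonsing_inv M0 hunit
  have hQd : Q.det = (c : ℂ)⁻¹ := by
    have h1 : Q.det * M0.det = 1 := by rw [← Matrix.det_mul, hQM, Matrix.det_one]
    rw [hdet0] at h1
    exact eq_inv_of_mul_eq_one_left h1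
  -- the first and second jets
  set A : Matrix (Fin r) (Fin r) ℂ := Matrix.of fun k j => d10 (Lf w (bs k) (bs j)) z v with hA
  set B : Matrix (Fin r) (Fin r) ℂ := Matrix.of fun k j => d01 (Lf w (bs k) (bs j)) z v with hB
  set C : Matrix (Fin r) (Fin r) ℂ := Matrix.of fun k j => mx (Lf w (bs k) (bs j)) z v with hC
  have sL : ∀ i j, ContDiffOn ℝ ∞ (Lf w (bs i) (bs j)) U := fun i j => smooth_Lf L _ _
  have dL : ∀ i j, DifferentiableAt ℝ (Lf w (bs i) (bs j)) z := fun i j =>
    diffAt_of L.op (sL i j) hz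
  set G : Fin r → Fin r → Fin r → E n → ℂ := fun i j k y => Q i k * Lf w (bs k) (bs j) y with hG
  have sG : ∀ i j k, ContDiffOn ℝ ∞ (G i j k) U := fun i j k => contDiffOn_const.mul (sL k j)
  have dG : ∀ i j k, DifferentiableAt ℝ (G i j k) z := fun i j k => diffAt_of L.op (sG i j k) hz
  have hMe : ∀ i j, (fun y => (Q * gm w y bs) i j) = fun y => ∑ k ∈ Finset.univ, G i j k y := by
    intro i j
    funext y
    rw [Matrix.mul_apply]
    rfl
  have hA' : ∀ i j, d10 (fun y => (Q * gm w y bs) i j) z v = (Q * A) i j := by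
    intro i j
    have h1 := d10_sum (z := z) (a := v) Finset.univ (G i j) (fun k _ => dG i j k)
    rw [hMe i j, h1, Matrix.mul_apply]
    exact Finset.sum_congr rfl fun k _ => d10_const_mul (dL k j) (Q i k)
  have hB' : ∀ i j, d01 (fun y => (Q * gm w y bs) i j) z v = (Q * B) i j := by
    intro i j
    have h1 := d01_sum (z := z) (a := v) Finset.univ (G i j) (fun k _ => dG i j k)
    rw [hMe i j, h1, Matrix.mul_apply]
    exact Finset.sum_congr rfl fun k _ => d01_const_mul (dL k j) (Q i k)
  have hC' : ∀ i j, mx (fun y => (Q * gm w y bs) i j) z v = (Q * C) i j := by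
    intro i j
    have h1 := mx_sum (z := z) (v := v) Finset.univ (G i j) L.op (fun k _ => sG i j k) hz
    rw [hMe i j, h1, Matrix.mul_apply]
    exact Finset.sum_congr rfl fun k _ => mx_const_mul L.op (sL k j) hz (Q i k)
  have hrh := rh (z := z) (v := v) L.op hz (fun y => Q * gm w y bs) (by
      intro i j
      have h1 := hMe i j
      rw [h1]
      exact ContDiffOn.sum fun k _ => sG i j k) hQM (Q * A) (Q * B) (Q * C) hA' hB' hC'
  obtain ⟨sN, j10, j01, jmx⟩ := hrh
  set N : E n → ℂ := fun y => (Q * gm w y bs).det with hN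
  -- `cx gd = c * N` on `U`
  have hgN : ∀ y ∈ U, cx (fun y => gd w y bs) y = (c : ℂ) * N y := by
    intro y hy
    have h1 := (grm_det L hy bs).2
    rw [hN]
    simp only [Matrix.det_mul]
    rw [hQd, h1, ← mul_assoc, mul_inv_cancel₀ hcc, one_mul]
    rfl
  have hev : cx (fun y => gd w y bs) =ᶠ[𝓝 z] fun y => (c : ℂ) * N y := by
    filter_upwards [L.op.mem_nhds hz] with y hy
    exact hgN y hy
  have dN : DifferentiableAt ℝ N z := diffAt_of L.op sN hz
  have g10 : d10 (cx (fun y => gd w y bs)) z v = (c : ℂ) * (Q * A).trace := by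
    rw [d10_congr hev, d10_const_mul dN, j10]
  have g01 : d01 (cx (fun y => gd w y bs)) z v = (c : ℂ) * (Q * B).trace := by
    rw [d01_congr hev, d01_const_mul dN, j01]
  have gmx : mx (cx (fun y => gd w y bs)) z v = (c : ℂ) * ((Q * C).trace +
      (Q * A).trace * (Q * B).trace - (Q * A * (Q * B)).trace) := by
    rw [mx_congr hev, mx_const_mul L.op sN hz, jmx]
  -- the logarithm
  have hU' : IsOpen (U ∩ (fun y => gd w y bs) ⁻¹' Set.Ioi 0) :=
    (smooth_gd L bs).continuousOn.isOpen_inter_preimage L.op isOpen_Ioi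
  have hlg := (lgn (z := z) (v := v) hU' ((smooth_gd L bs).mono Set.inter_subset_left)
    (fun y hy => hy.2) ⟨hz, h0⟩).2
  rw [gmx, g10, g01] at hlg
  have hlg2 : levi (fun y => Real.log (gd w y bs)) z v v =
      (Q * C).trace - (Q * A * (Q * B)).trace := by
    rw [hlg]
    have h1 : ((gd w z bs : ℝ) : ℂ) = (c : ℂ) := rfl
    rw [h1]
    field_simp
    ring
  -- the second jets
  have hβ := fun k : Fin r => ex_bet L hz b (bs k)
  choose β hβ using hβ
  have hγ := fun k : Fin r => ex_gam L hz b (bs k)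
  choose γ hγ using hγ
  have ht := fun k : Fin r => hs (β k)
  choose t ht using ht
  have hbt : ∀ k e, levi w z (β k) e = levi w z (lc (t k) bs) e := by
    intro k e
    have h1 := levi_add_left L hz (β k - lc (t k) bs) (lc (t k) bs) e
    rw [sub_add_cancel, ht k e, zero_add] at h1
    exact h1
  have hAT : A = -(Matrix.of t * M0) := by
    ext k j
    have h1 := hβ k (bs j)
    rw [hbt, grm_left L hz] at h1
    have h2 : A k j = d10 (Lf w (bs k) (bs j)) z v := rfl
    rw [h2, Matrix.neg_apply, Matrix.mul_apply]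
    have h3 : ∑ i, (Matrix.of t) k i * M0 i j = ∑ i, t k i * levi w z (bs i) (bs j) := rfl
    rw [h3, h1, neg_neg]
  have hT : Matrix.of t = -(A * Q) := by
    rw [hAT, neg_mul, neg_neg, mul_assoc, hMQ, mul_one]
  have hBA : ∀ i j, B i j = conj (A j i) := by
    intro i j
    exact (conj_d10_Lf L hz (bs j) (bs i) v).symm
  have hCe : C = A * Q * B + Matrix.of (fun k j => levi w z (γ j) (γ k)) := by
    ext k j
    have h1 : C k j = levi w z (β k) (β j) + levi w z (γ j) (γ k) :=
      jetA L hz b (bs k) (bs j) (β k) (β j) (γ k) (γ j) (hβ k) (hβ j) (hγ k) (hγ j)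
    rw [h1, Matrix.add_apply, Matrix.of_apply]
    congr 1
    have h2 : A * Q = -Matrix.of t := by rw [hT, neg_neg]
    rw [h2, hbt, grm_left L hz, Matrix.mul_apply]
    refine Finset.sum_congr rfl fun i _ => ?_
    rw [hBA, Matrix.neg_apply, Matrix.of_apply]
    have h3 : levi w z (bs i) (β j) = conj (levi w z (β j) (bs i)) := (levi_conj L hz _ _).symm
    have h4 : levi w z (β j) (bs i) = -A j i := hβ j (bs i)
    rw [h3, h4, map_neg]
    ring
  have hfin : levi (fun y => Real.log (gd w y bs)) z v v =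
      (Q * Matrix.of (fun k j => levi w z (γ j) (γ k))).trace := by
    rw [hlg2, hCe, mul_add, Matrix.trace_add]
    have h1 : Q * (A * Q * B) = Q * A * (Q * B) := by simp only [mul_assoc]
    rw [h1]
    ring
  rw [hfin]
  exact grm_tr' L hz bs γ

end Pool.Agent.SKF
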