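import Pool.Agent.SKF.Del

/-!
JetB (size 4): the cubic form is leafwise antiholomorphic-free: first order.
Notation `u_xy = ∂̄_y u_x`, `v = XX w z b` (constant), `β` with `IsBet w z v b β`.
Proof. `∂̄_v (br (u_b) (u_bb)) = br (u_bv) (u_bb) + br (u_b) (∂̄_v u_bb)`. First term: `∂ u_bv = - ∂ u_β`
(`d10_uu2_bet`), so it is `- br (u_β) (u_bb) = - Bf w β b b z`. Second term: apply `∂̄_b ∂̄_b` to
`br (u_b) (u_v) = 0` at `z`: `br (u_bbb) (u_v) + 2 br (u_bb) (u_vb) + br (u_b) (u_vbb) = 0`; first 0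
(`∂ u_v = 0` at `z`), second `= - 2 br (u_bb) (u_β) = 2 Bf w β b b z`, so
`br (u_b) (u_vbb) = - 2 Bf w β b b z`, and `∂̄_v u_bb = u_vbb` (commuting derivatives).
Total `- 3 Bf w β b b z = - 3 Bf w b b β z`.
-/

open scoped ContDiff ComplexConjugate Topology
open Complex

namespace Pool.Agent.SKF

open Pool.Agent.DTW

variable {n : ℕ} {U : Set (E n)} {w : E n → ℝ} {z : E n}

private theorem jetB_eq_zero_d01 {G : E n → ℂ} (hU : IsOpen U) (hG : ∀ y ∈ U, G y = 0)
    (hz : z ∈ U) (a : E n) : d01 G z a = 0 := by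
  have h : G =ᶠ[𝓝 z] fun _ => (0 : ℂ) := by
    filter_upwards [hU.mem_nhds hz] with y hy
    exact hG y hy
  rw [d01_congr h, d01_const]

theorem jetB (L : Loc w U) (hz : z ∈ U) (b β : E n) (hβ : IsBet w z (XX w z b) b β) :
    d01 (Bf w b b b) z (XX w z b) + 3 * Bf w b b β z = 0 := by
  set v : E n := XX w z b with hv
  have hU := L.op
  have sb : ContDiffOn ℝ ∞ (ub w b) U := smooth_ub L b
  have sv : ContDiffOn ℝ ∞ (ub w v) U := smooth_ub L v
  have sbb : ContDiffOn ℝ ∞ (uu2 w b b) U := smooth_uu2 L b b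
  have svb : ContDiffOn ℝ ∞ (uu2 w v b) U := smooth_uu2 L v b
  -- the derivative of `B`
  have h1 : d01 (Bf w b b b) z v =
      br (uu2 w b v) (uu2 w b b) z + br (ub w b) (fun y => d01 (uu2 w b b) y v) z :=
    br_d01 hU sb sbb hz v
  have h2 : br (uu2 w b v) (uu2 w b b) z = -Bf w β b b z := by
    have := br_left (z := z) (g := uu2 w b v) (g1 := ub w β) (g2 := ub w β) (-1) 0
      (fun a => by rw [(d10_uu2_bet L hz hβ a).2]; ring) (uu2 w b b)
    rw [this]
    change -1 * Bf w β b b z + 0 * Bf w β b b z = -Bf w β b b z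
    ring
  -- first derivative of `br (ub w b) (ub w v) = 0`
  have h3 : ∀ y ∈ U, br (uu2 w b b) (ub w v) y + br (ub w b) (uu2 w v b) y = 0 := by
    intro y hy
    have e1 : d01 (br (ub w b) (ub w v)) y b =
        br (uu2 w b b) (ub w v) y + br (ub w b) (uu2 w v b) y := br_d01 hU sb sv hy b
    rw [← e1]
    exact jetB_eq_zero_d01 hU (fun x hx => br_ub L hx b v) hy b
  -- second derivative
  have h4 : d01 (fun y => br (uu2 w b b) (ub w v) y + br (ub w b) (uu2 w v b) y) z b = 0 :=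
    jetB_eq_zero_d01 hU h3 hz b
  have d1 : DifferentiableAt ℝ (br (uu2 w b b) (ub w v)) z := diffAt_of hU (smooth_br hU sbb sv) hz
  have d2 : DifferentiableAt ℝ (br (ub w b) (uu2 w v b)) z := diffAt_of hU (smooth_br hU sb svb) hz
  rw [d01_add d1 d2] at h4
  have e1 : d01 (br (uu2 w b b) (ub w v)) z b =
      br (fun y => d01 (uu2 w b b) y b) (ub w v) z + br (uu2 w b b) (uu2 w v b) z :=
    br_d01 hU sbb sv hz b
  have e2 : d01 (br (ub w b) (uu2 w v b)) z b =
      br (uu2 w b b) (uu2 w v b) z + br (ub w b) (fun y => d01 (uu2 w v b) y b) z :=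
    br_d01 hU sb svb hz b
  have e3 : br (fun y => d01 (uu2 w b b) y b) (ub w v) z = 0 :=
    br_zero_right (fun a => levi_XX_right L hz b a) _
  have e4 : br (uu2 w b b) (uu2 w v b) z = Bf w β b b z := by
    have := br_right (z := z) (h := uu2 w v b) (h1 := ub w β) (h2 := ub w β) (-1) 0
      (fun a => by rw [(d10_uu2_bet L hz hβ a).1]; ring) (uu2 w b b)
    rw [this, br_anti (uu2 w b b) (ub w β)]
    change -1 * -Bf w β b b z + 0 * -Bf w β b b z = Bf w β b b z
    ring
  rw [e1, e2, e3, e4] at h4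
  -- commuting derivatives
  have h5 : br (ub w b) (fun y => d01 (uu2 w b b) y v) z =
      br (ub w b) (fun y => d01 (uu2 w v b) y b) z := by
    refine br_congr (Filter.EventuallyEq.refl _ _) ?_
    filter_upwards [hU.mem_nhds hz] with y hy
    have c1 : d01 (uu2 w b b) y v = d01 (uu2 w b v) y b :=
      d01_d01_comm (sb.contDiffAt (hU.mem_nhds hy)) v b
    rw [c1]
    apply d01_congr
    filter_upwards [hU.mem_nhds hy] with x hx
    exact uu2_symm L hx b v
  have h6 : Bf w β b b z = Bf w b b β z := by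
    rw [Bf_symm12 L hz β b b, Bf_symm23 L hz b β b]
  rw [h1, h2, h5, ← h6]
  linear_combination h4

end Pool.Agent.SKF
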