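import Pool.Agent.SKF.Del

/-!
JetC (size 5): the cubic form is leafwise antiholomorphic-free: mixed second order.
Notation `u_xy = ∂̄_y u_x`, `u_xyz = ∂̄_z u_xy`, `v = XX w z b` (a constant vector), everything at `z`,
`{g,h} = br g h z`, `D = ∂_v` (`d10 . z v` with constant `v`).
(i) `∂ u_bv = - ∂ u_β` (`d10_uu2_bet`).
(ii) `∂ (D u_bv) = - ∂ u_δ - ∂ (D u_β)` at `z`: for all `m`, `∂_m D ∂̄_v u_b = mx (Lf w m b) z v`
   `= - levi w z m δ - d10 (Lf w m β) z v` (`IsDel`), and `levi w z m δ = ∂_m u_δ`,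
   `d10 (Lf w m β) z v = ∂_m (D u_β)`.
(iii) apply `∂_v ∂̄_b ∂̄_b` to `{u_b, u_v} = 0` (on `U`, constant `b`, `v`):
   `{D u_bbb, u_v} + {u_bbb, D u_v} + 2 {D u_bb, u_vb} + 2 {u_bb, D u_vb} + {D u_b, u_vbb} + {u_b, D u_vbb} = 0`.
   `∂ u_v = 0` at `z`; `∂ (D u_v) = 0` at `z`: `∂_m D ∂̄_v w = conj (∂̄_m ∂̄_v ∂_v w) = conj (Bf w b v m z) = 0`
   (`Bf_ker` with `Bf_symm12`, `v` in the kernel). With (i), (ii) (`u_vb = u_bv` near `z`):
   `{D u_b, u_vbb} + {u_b, D u_vbb} = 2 {D u_bb, u_β} + 2 {u_bb, u_δ} + 2 {u_bb, D u_β}`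
   `= - 2 {u_β, D u_bb} - 2 {u_δ, u_bb} - 2 {D u_β, u_bb}`.
(iv) `D ∂̄_v {u_b, u_bb} = {D u_bv, u_bb} + {u_bv, D u_bb} + {D u_b, u_bbv} + {u_b, D u_bbv}`
   `= - {u_δ, u_bb} - {D u_β, u_bb} - {u_β, D u_bb} + (iii)`
   `= - 3 {u_δ, u_bb} - 3 ({D u_β, u_bb} + {u_β, D u_bb}) = - 3 Bf w δ b b z - 3 D (Bf w β b b)`.
(v) `Bf w δ b b z = Bf w b b δ z`, and `Bf w β b b = Bf w b b β` on `U`, so `D (Bf w β b b) = D (Bf w b b β)`.
-/

open scoped ContDiff ComplexConjugate Topology
open Complex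

namespace Pool.Agent.SKF

open Pool.Agent.DTW

variable {n : ℕ} {U : Set (E n)} {w : E n → ℝ} {z : E n}

theorem jetC (L : Loc w U) (hz : z ∈ U) (b β δ : E n) (hβ : IsBet w z (XX w z b) b β)
    (hδ : IsDel w z (XX w z b) b β δ) :
    mx (Bf w b b b) z (XX w z b) + 3 * d10 (Bf w b b β) z (XX w z b) + 3 * Bf w b b δ z = 0 := by
  have kR : ∀ m, levi w z m (XX w z b) = 0 := fun m => levi_XX_right L hz b m
  have kL : ∀ m, levi w z (XX w z b) m = 0 := fun m => levi_XX_left L hz b m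
  have kB : ∀ m, d10 (Lf w (XX w z b) (XX w z b)) z m = 0 := by
    intro m
    have h1 := conj_d10_Lf L hz (XX w z b) (XX w z b) m
    have h2 : d01 (Lf w (XX w z b) (XX w z b)) z m = Bf w b (XX w z b) m z := by
      rw [Bf_eq L hz]; rfl
    have h3 : Bf w b (XX w z b) m z = 0 := by
      rw [Bf_symm12 L hz, Bf_ker L hz kL]
    rw [h2, h3] at h1
    have h4 := congrArg (starRingEnd ℂ) h1
    rw [Complex.conj_conj, map_zero] at h4
    exact h4
  have hb2 : ∀ m, d10 (uu2 w b (XX w z b)) z m = -d10 (ub w β) z m := fun m =>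
    (d10_uu2_bet L hz hβ m).2
  have hb1 : ∀ m, d10 (uu2 w (XX w z b) b) z m = -d10 (ub w β) z m := fun m =>
    (d10_uu2_bet L hz hβ m).1
  generalize hv : XX w z b = v at *
  have sb : ∀ c, ContDiffOn ℝ ∞ (ub w c) U := fun c => smooth_ub L c
  have s2 : ∀ c d, ContDiffOn ℝ ∞ (uu2 w c d) U := fun c d => smooth_uu2 L c d
  have s3 : ∀ c d a, ContDiffOn ℝ ∞ (fun y => d01 (uu2 w c d) y a) U := fun c d a =>
    contDiffOn_d01 L.op (s2 c d) a
  have sD : ∀ (g : E n → ℂ), ContDiffOn ℝ ∞ g U → ContDiffOn ℝ ∞ (fun y => d10 g y v) U :=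
    fun g hg => contDiffOn_d10 L.op hg v
  have nh : ∀ y ∈ U, U ∈ 𝓝 y := fun y hy => L.op.mem_nhds hy
  have sbr : ∀ (g h : E n → ℂ), ContDiffOn ℝ ∞ g U → ContDiffOn ℝ ∞ h U →
      ContDiffOn ℝ ∞ (br g h) U := fun g h hg hh => smooth_br L.op hg hh
  -- (i), (ii)
  have hD2 : ∀ m, d10 (fun y => d10 (uu2 w b v) y v) z m
      = -d10 (ub w δ) z m - d10 (fun y => d10 (ub w β) y v) z m := by
    intro m
    have c1 := d10_d10_comm ((s2 b v).contDiffAt (nh z hz)) m v
    have c2 : d10 (fun y => d10 (uu2 w b v) y m) z v = mx (Lf w m b) z v := by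
      unfold mx
      apply d10_congr
      filter_upwards [nh z hz] with y hy
      exact d10_d01_ub L hy m v b
    have c3 := hδ m
    have c4 := d10_d10_comm ((sb β).contDiffAt (nh z hz)) m v
    have c5 : levi w z m δ = d10 (ub w δ) z m := rfl
    have c6 : d10 (Lf w m β) z v = d10 (fun y => d10 (ub w β) y m) z v := rfl
    rw [c1, c2, c4]
    rw [c5, c6] at c3
    linear_combination c3
  have e2 : uu2 w v b =ᶠ[𝓝 z] uu2 w b v := by
    filter_upwards [nh z hz] with y hy
    exact uu2_symm L hy v b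
  have hD1 : ∀ m, d10 (fun y => d10 (uu2 w v b) y v) z m
      = -d10 (ub w δ) z m - d10 (fun y => d10 (ub w β) y v) z m := by
    intro m
    rw [← hD2 m]
    apply d10_congr
    filter_upwards [nh z hz] with y hy
    apply d10_congr
    filter_upwards [nh y hy] with x hx
    exact uu2_symm L hx v b
  -- (iii)
  have h1 : ∀ y ∈ U, br (uu2 w b b) (ub w v) y + br (ub w b) (uu2 w v b) y = 0 := by
    intro y hy
    have e : br (ub w b) (ub w v) =ᶠ[𝓝 y] fun _ => (0 : ℂ) := by
      filter_upwards [nh y hy] with x hx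
      exact br_ub L hx b v
    have h := d01_congr (a := b) e
    rw [br_d01 L.op (sb b) (sb v) hy b, d01_const] at h
    exact h
  have h2 : ∀ y ∈ U, (br (fun y => d01 (uu2 w b b) y b) (ub w v) y + br (uu2 w b b) (uu2 w v b) y)
      + (br (uu2 w b b) (uu2 w v b) y + br (ub w b) (fun y => d01 (uu2 w v b) y b) y) = 0 := by
    intro y hy
    have e : (fun x => br (uu2 w b b) (ub w v) x + br (ub w b) (uu2 w v b) x)
        =ᶠ[𝓝 y] fun _ => (0 : ℂ) := by
      filter_upwards [nh y hy] with x hx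
      exact h1 x hx
    have h := d01_congr (a := b) e
    rw [d01_add (diffAt_of L.op (sbr _ _ (s2 b b) (sb v)) hy)
      (diffAt_of L.op (sbr _ _ (sb b) (s2 v b)) hy),
      br_d01 L.op (s2 b b) (sb v) hy b, br_d01 L.op (sb b) (s2 v b) hy b, d01_const] at h
    exact h
  have h3 : (br (fun y => d10 (fun y => d01 (uu2 w b b) y b) y v) (ub w v) z
        + br (fun y => d01 (uu2 w b b) y b) (fun y => d10 (ub w v) y v) z
      + (br (fun y => d10 (uu2 w b b) y v) (uu2 w v b) z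
        + br (uu2 w b b) (fun y => d10 (uu2 w v b) y v) z))
      + ((br (fun y => d10 (uu2 w b b) y v) (uu2 w v b) z
        + br (uu2 w b b) (fun y => d10 (uu2 w v b) y v) z)
      + (br (fun y => d10 (ub w b) y v) (fun y => d01 (uu2 w v b) y b) z
        + br (ub w b) (fun y => d10 (fun y => d01 (uu2 w v b) y b) y v) z)) = 0 := by
    have e : (fun y => (br (fun y => d01 (uu2 w b b) y b) (ub w v) y
        + br (uu2 w b b) (uu2 w v b) y)
      + (br (uu2 w b b) (uu2 w v b) y + br (ub w b) (fun y => d01 (uu2 w v b) y b) y))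
        =ᶠ[𝓝 z] fun _ => (0 : ℂ) := by
      filter_upwards [nh z hz] with x hx
      exact h2 x hx
    have h := d10_congr (a := v) e
    have q1 := sbr _ _ (s3 b b b) (sb v)
    have q2 := sbr _ _ (s2 b b) (s2 v b)
    have q3 := sbr _ _ (sb b) (s3 v b b)
    rw [d10_add (diffAt_of L.op (q1.add q2) hz) (diffAt_of L.op (q2.add q3) hz),
      d10_add (diffAt_of L.op q1 hz) (diffAt_of L.op q2 hz),
      d10_add (diffAt_of L.op q2 hz) (diffAt_of L.op q3 hz),
      br_d10 L.op (s3 b b b) (sb v) hz v, br_d10 L.op (s2 b b) (s2 v b) hz v,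
      br_d10 L.op (sb b) (s3 v b b) hz v, d10_const] at h
    exact h
  have t1 : br (fun y => d10 (fun y => d01 (uu2 w b b) y b) y v) (ub w v) z = 0 :=
    br_zero_right (fun a => kR a) _
  have t2 : br (fun y => d01 (uu2 w b b) y b) (fun y => d10 (ub w v) y v) z = 0 :=
    br_zero_right (fun a => kB a) _
  have t3 : br (fun y => d10 (uu2 w b b) y v) (uu2 w v b) z
      = br (ub w β) (fun y => d10 (uu2 w b b) y v) z := by
    have h := br_right (z := z) (h := uu2 w v b) (h1 := ub w β) (h2 := ub w β) (-1) 0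
      (fun a => by rw [hb1 a]; ring) (fun y => d10 (uu2 w b b) y v)
    rw [h, br_anti (ub w β) (fun y => d10 (uu2 w b b) y v)]
    ring
  have t4 : br (uu2 w b b) (fun y => d10 (uu2 w v b) y v) z
      = br (ub w δ) (uu2 w b b) z + br (fun y => d10 (ub w β) y v) (uu2 w b b) z := by
    have h := br_right (z := z) (h := fun y => d10 (uu2 w v b) y v) (h1 := ub w δ)
      (h2 := fun y => d10 (ub w β) y v) (-1) (-1)
      (fun a => by rw [hD1 a]; ring) (uu2 w b b)
    rw [h, br_anti (ub w δ) (uu2 w b b), br_anti (fun y => d10 (ub w β) y v) (uu2 w b b)]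
    ring
  -- (iv)
  have e3 : ∀ y ∈ U, (fun y => d01 (uu2 w b b) y v) =ᶠ[𝓝 y] (fun y => d01 (uu2 w v b) y b) := by
    intro y hy
    filter_upwards [nh y hy] with x hx
    have c1 := d01_d01_comm ((sb b).contDiffAt (nh x hx)) v b
    have c2 : d01 (uu2 w v b) x b = d01 (fun y => d01 (ub w b) y v) x b := by
      apply d01_congr
      filter_upwards [nh x hx] with x' hx'
      exact uu2_symm L hx' v b
    rw [c2]
    exact c1
  have h4 : mx (Bf w b b b) z v = (br (fun y => d10 (uu2 w b v) y v) (uu2 w b b) z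
      + br (uu2 w b v) (fun y => d10 (uu2 w b b) y v) z)
      + (br (fun y => d10 (ub w b) y v) (fun y => d01 (uu2 w b b) y v) z
      + br (ub w b) (fun y => d10 (fun y => d01 (uu2 w b b) y v) y v) z) := by
    have e : (fun y => d01 (Bf w b b b) y v) =ᶠ[𝓝 z]
        (fun y => br (uu2 w b v) (uu2 w b b) y + br (ub w b) (fun y => d01 (uu2 w b b) y v) y) := by
      filter_upwards [nh z hz] with y hy
      exact br_d01 L.op (sb b) (s2 b b) hy v
    have q1 := sbr _ _ (s2 b v) (s2 b b)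
    have q2 := sbr _ _ (sb b) (s3 b b v)
    unfold mx
    rw [d10_congr e, d10_add (diffAt_of L.op q1 hz) (diffAt_of L.op q2 hz),
      br_d10 L.op (s2 b v) (s2 b b) hz v, br_d10 L.op (sb b) (s3 b b v) hz v]
  have t5 : br (fun y => d10 (uu2 w b v) y v) (uu2 w b b) z
      = -br (ub w δ) (uu2 w b b) z - br (fun y => d10 (ub w β) y v) (uu2 w b b) z := by
    have h := br_left (z := z) (g := fun y => d10 (uu2 w b v) y v) (g1 := ub w δ)
      (g2 := fun y => d10 (ub w β) y v) (-1) (-1)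
      (fun a => by rw [hD2 a]; ring) (uu2 w b b)
    rw [h]
    ring
  have t6 : br (uu2 w b v) (fun y => d10 (uu2 w b b) y v) z
      = -br (ub w β) (fun y => d10 (uu2 w b b) y v) z := by
    have h := br_left (z := z) (g := uu2 w b v) (g1 := ub w β) (g2 := ub w β) (-1) 0
      (fun a => by rw [hb2 a]; ring) (fun y => d10 (uu2 w b b) y v)
    rw [h]
    ring
  have t7 : br (fun y => d10 (ub w b) y v) (fun y => d01 (uu2 w b b) y v) z
      = br (fun y => d10 (ub w b) y v) (fun y => d01 (uu2 w v b) y b) z :=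
    br_congr (Filter.EventuallyEq.refl _ _) (e3 z hz)
  have t8 : br (ub w b) (fun y => d10 (fun y => d01 (uu2 w b b) y v) y v) z
      = br (ub w b) (fun y => d10 (fun y => d01 (uu2 w v b) y b) y v) z := by
    apply br_congr (Filter.EventuallyEq.refl _ _)
    filter_upwards [nh z hz] with y hy
    exact d10_congr (e3 y hy)
  -- (v)
  have h5 : d10 (Bf w b b β) z v = br (fun y => d10 (ub w β) y v) (uu2 w b b) z
      + br (ub w β) (fun y => d10 (uu2 w b b) y v) z := by
    have e : Bf w b b β =ᶠ[𝓝 z] br (ub w β) (uu2 w b b) := by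
      filter_upwards [nh z hz] with y hy
      have a1 := Bf_symm12 L hy β b b
      have a2 := Bf_symm23 L hy b β b
      exact (a1.trans a2).symm
    rw [d10_congr e, br_d10 L.op (sb β) (s2 b b) hz v]
  have h6 : Bf w b b δ z = br (ub w δ) (uu2 w b b) z := by
    have a1 := Bf_symm12 L hz δ b b
    have a2 := Bf_symm23 L hz b δ b
    exact (a1.trans a2).symm
  rw [h4, h5, h6, t5, t6, t7, t8]
  rw [t1, t2, t3, t4] at h3
  linear_combination h3

end Pool.Agent.SKF
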