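import Pool.Agent.SKF.Jpr
import Pool.Agent.SKF.JetB
import Pool.Agent.SKF.JetC
import Pool.Agent.SKF.BfL

/-!
Jt (size 5): the function `Θ(y) = B_y(b(y), b(y), b(y))`, `b(y) = bb z v b β δ y`, `v = XX w z b`.
Proof. `Θ(y) = ∑_k ∑_l ∑_m conj (b_k(y)) conj (b_l(y)) conj (b_m(y)) Bf w (e k) (e l) (e m) y` on `U`
(`Bf_add1`, `Bf_smul1`, ..., `vec_eq_sum`). The jets `(value, d10, d01, mx)` of `conj b_k` are
`(b̄_k, 0, β̄_k, δ̄_k)` (`jet_bbc`), so those of the product of three are
`(b̄b̄b̄, 0, β̄b̄b̄ + b̄β̄b̄ + b̄b̄β̄, δ̄b̄b̄ + b̄δ̄b̄ + b̄b̄δ̄)` and by `mx_mul` and the symmetry of `Bf`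
`d01 Θ z v = 3 Bf w b b β z + d01 (Bf w b b b) z v = 0` (`jetB`),
`mx Θ z v = 3 Bf w b b δ z + 3 d10 (Bf w b b β) z v + mx (Bf w b b b) z v = 0` (`jetC`).
-/

open scoped ContDiff ComplexConjugate Topology
open Complex

namespace Pool.Agent.SKF

open Pool.Agent.DTW

variable {n : ℕ} {U : Set (E n)} {w : E n → ℝ} {z : E n}

private lemma jt_zero1 (L : Loc w U) (hz : z ∈ U) (c d : E n) : Bf w 0 c d z = 0 := by
  have h := Bf_smul1 L hz 0 0 c d
  simpa using h

private lemma jt_zero2 (L : Loc w U) (hz : z ∈ U) (c d : E n) : Bf w c 0 d z = 0 := by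
  have h := Bf_smul2 L hz 0 c 0 d
  simpa using h

private lemma jt_zero3 (L : Loc w U) (hz : z ∈ U) (c d : E n) : Bf w c d 0 z = 0 := by
  have h := Bf_smul3 L hz 0 c d 0
  simpa using h

private lemma jt_sum1 (L : Loc w U) (hz : z ∈ U) (s : Finset (Ix n)) (a c d : E n) :
    Bf w (∑ k ∈ s, a k • (e k : E n)) c d z = ∑ k ∈ s, conj (a k) * Bf w (e k) c d z := by
  classical
  induction s using Finset.induction_on with
  | empty => simp [jt_zero1 L hz]
  | insert i s hi ih =>
    rw [Finset.sum_insert hi, Finset.sum_insert hi, Bf_add1 L hz, Bf_smul1 L hz, ih]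

private lemma jt_sum2 (L : Loc w U) (hz : z ∈ U) (s : Finset (Ix n)) (a c d : E n) :
    Bf w c (∑ k ∈ s, a k • (e k : E n)) d z = ∑ k ∈ s, conj (a k) * Bf w c (e k) d z := by
  classical
  induction s using Finset.induction_on with
  | empty => simp [jt_zero2 L hz]
  | insert i s hi ih =>
    rw [Finset.sum_insert hi, Finset.sum_insert hi, Bf_add2 L hz, Bf_smul2 L hz, ih]

private lemma jt_sum3 (L : Loc w U) (hz : z ∈ U) (s : Finset (Ix n)) (a c d : E n) :
    Bf w c d (∑ k ∈ s, a k • (e k : E n)) z = ∑ k ∈ s, conj (a k) * Bf w c d (e k) z := by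
  classical
  induction s using Finset.induction_on with
  | empty => simp [jt_zero3 L hz]
  | insert i s hi ih =>
    rw [Finset.sum_insert hi, Finset.sum_insert hi, Bf_add3 L hz, Bf_smul3 L hz, ih]

/-- expansion of the cubic form -/
private lemma jt_exp (L : Loc w U) (hz : z ∈ U) (a c d : E n) :
    Bf w a c d z = ∑ p : Ix n × Ix n × Ix n,
      conj (a p.1) * conj (c p.2.1) * conj (d p.2.2) * Bf w (e p.1) (e p.2.1) (e p.2.2) z := by
  have h1 : Bf w a c d z = ∑ k, conj (a k) * Bf w (e k) c d z := by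
    conv_lhs => rw [vec_eq_sum a]
    exact jt_sum1 L hz _ a c d
  rw [h1, Fintype.sum_prod_type]
  refine Finset.sum_congr rfl fun k _ => ?_
  have h2 : Bf w (e k) c d z = ∑ l, conj (c l) * Bf w (e k) (e l) d z := by
    conv_lhs => rw [vec_eq_sum c]
    exact jt_sum2 L hz _ c (e k) d
  rw [h2, Fintype.sum_prod_type, Finset.mul_sum]
  refine Finset.sum_congr rfl fun l _ => ?_
  have h3 : Bf w (e k) (e l) d z = ∑ m, conj (d m) * Bf w (e k) (e l) (e m) z := by
    conv_lhs => rw [vec_eq_sum d]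
    exact jt_sum3 L hz _ d (e k) (e l)
  rw [h3, Finset.mul_sum, Finset.mul_sum]
  refine Finset.sum_congr rfl fun m _ => ?_
  ring

private lemma jt_ev (L : Loc w U) (hz : z ∈ U) {f g : E n → ℂ} (h : ∀ y ∈ U, f y = g y) :
    f =ᶠ[𝓝 z] g :=
  Filter.eventually_of_mem (L.op.mem_nhds hz) h

private lemma jt_d10 (L : Loc w U) (hz : z ∈ U) (a c d v : E n) :
    d10 (Bf w a c d) z v = ∑ p : Ix n × Ix n × Ix n,
      conj (a p.1) * conj (c p.2.1) * conj (d p.2.2) *
        d10 (Bf w (e p.1) (e p.2.1) (e p.2.2)) z v := by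
  rw [d10_congr (jt_ev L hz fun y hy => jt_exp L hy a c d), d10_sum]
  · refine Finset.sum_congr rfl fun p _ => ?_
    rw [d10_const_mul (diffAt_of L.op (smooth_Bf L _ _ _) hz)]
  · intro p _
    exact (diffAt_of L.op (smooth_Bf L _ _ _) hz).const_mul _

private lemma jt_d01 (L : Loc w U) (hz : z ∈ U) (a c d v : E n) :
    d01 (Bf w a c d) z v = ∑ p : Ix n × Ix n × Ix n,
      conj (a p.1) * conj (c p.2.1) * conj (d p.2.2) *
        d01 (Bf w (e p.1) (e p.2.1) (e p.2.2)) z v := by
  rw [d01_congr (jt_ev L hz fun y hy => jt_exp L hy a c d), d01_sum]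
  · refine Finset.sum_congr rfl fun p _ => ?_
    rw [d01_const_mul (diffAt_of L.op (smooth_Bf L _ _ _) hz)]
  · intro p _
    exact (diffAt_of L.op (smooth_Bf L _ _ _) hz).const_mul _

private lemma jt_mx (L : Loc w U) (hz : z ∈ U) (a c d v : E n) :
    mx (Bf w a c d) z v = ∑ p : Ix n × Ix n × Ix n,
      conj (a p.1) * conj (c p.2.1) * conj (d p.2.2) *
        mx (Bf w (e p.1) (e p.2.1) (e p.2.2)) z v := by
  rw [mx_congr (jt_ev L hz fun y hy => jt_exp L hy a c d),
    mx_sum _ _ L.op (fun p _ => (contDiffOn_const.mul (smooth_Bf L _ _ _))) hz]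
  refine Finset.sum_congr rfl fun p _ => ?_
  rw [mx_const_mul L.op (smooth_Bf L _ _ _) hz]

/-- jets of the product of three conjugated coordinates and a function -/
private lemma jt_prod (L : Loc w U) (hz : z ∈ U) (b β δ v : E n) (hv : v ≠ 0) (k l m : Ix n)
    (H : E n → ℂ) (hH : ContDiffOn ℝ ∞ H U) :
    ContDiffOn ℝ ∞ (fun y => conj (bb z v b β δ y k) * conj (bb z v b β δ y l) *
      conj (bb z v b β δ y m) * H y) U ∧
    d01 (fun y => conj (bb z v b β δ y k) * conj (bb z v b β δ y l) *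
      conj (bb z v b β δ y m) * H y) z v =
      conj (b k) * conj (b l) * conj (b m) * d01 H z v +
      (conj (β k) * conj (b l) * conj (b m) * H z + conj (b k) * conj (β l) * conj (b m) * H z +
        conj (b k) * conj (b l) * conj (β m) * H z) ∧
    mx (fun y => conj (bb z v b β δ y k) * conj (bb z v b β δ y l) *
      conj (bb z v b β δ y m) * H y) z v =
      conj (b k) * conj (b l) * conj (b m) * mx H z v +
      (conj (β k) * conj (b l) * conj (b m) * d10 H z v +
        conj (b k) * conj (β l) * conj (b m) * d10 H z v +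
        conj (b k) * conj (b l) * conj (β m) * d10 H z v) +
      (conj (δ k) * conj (b l) * conj (b m) * H z + conj (b k) * conj (δ l) * conj (b m) * H z +
        conj (b k) * conj (b l) * conj (δ m) * H z) := by
  have hs : ∀ k : Ix n, ContDiffOn ℝ ∞ (fun y => conj (bb z v b β δ y k)) U := fun k =>
    (Complex.conjCLE.contDiff.comp (smooth_bb z v b β δ k)).contDiffOn
  have hval : ∀ k : Ix n, conj (bb z v b β δ z k) = conj (b k) := fun k => by rw [bb_self]
  have hd : ∀ k : Ix n, DifferentiableAt ℝ (fun y => conj (bb z v b β δ y k)) z := fun k =>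
    diffAt_of L.op (hs k) hz
  obtain ⟨k1, k2, k3⟩ := jet_bbc (z := z) hv b β δ k
  obtain ⟨l1, l2, l3⟩ := jet_bbc (z := z) hv b β δ l
  obtain ⟨m1, m2, m3⟩ := jet_bbc (z := z) hv b β δ m
  have s2 : ContDiffOn ℝ ∞ (fun y => conj (bb z v b β δ y k) * conj (bb z v b β δ y l)) U :=
    (hs k).mul (hs l)
  have s3 : ContDiffOn ℝ ∞ (fun y => conj (bb z v b β δ y k) * conj (bb z v b β δ y l) *
      conj (bb z v b β δ y m)) U := s2.mul (hs m)
  have e2a : d10 (fun y => conj (bb z v b β δ y k) * conj (bb z v b β δ y l)) z v = 0 := by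
    rw [d10_mul (hd k) (hd l), k1, l1]; ring
  have e2b : d01 (fun y => conj (bb z v b β δ y k) * conj (bb z v b β δ y l)) z v =
      conj (β k) * conj (b l) + conj (b k) * conj (β l) := by
    rw [d01_mul (hd k) (hd l), k2, l2, hval, hval]
  have e2c : mx (fun y => conj (bb z v b β δ y k) * conj (bb z v b β δ y l)) z v =
      conj (δ k) * conj (b l) + conj (b k) * conj (δ l) := by
    rw [mx_mul L.op (hs k) (hs l) hz, k1, k2, k3, l1, l2, l3, hval, hval]; ring
  have d2 := diffAt_of L.op s2 hz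
  have e3a : d10 (fun y => conj (bb z v b β δ y k) * conj (bb z v b β δ y l) *
      conj (bb z v b β δ y m)) z v = 0 := by
    rw [d10_mul d2 (hd m), e2a, m1]; ring
  have e3b : d01 (fun y => conj (bb z v b β δ y k) * conj (bb z v b β δ y l) *
      conj (bb z v b β δ y m)) z v =
      conj (β k) * conj (b l) * conj (b m) + conj (b k) * conj (β l) * conj (b m) +
        conj (b k) * conj (b l) * conj (β m) := by
    rw [d01_mul d2 (hd m), e2b, m2, hval, hval, hval]; ring
  have e3c : mx (fun y => conj (bb z v b β δ y k) * conj (bb z v b β δ y l) *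
      conj (bb z v b β δ y m)) z v =
      conj (δ k) * conj (b l) * conj (b m) + conj (b k) * conj (δ l) * conj (b m) +
        conj (b k) * conj (b l) * conj (δ m) := by
    rw [mx_mul L.op s2 (hs m) hz, e2a, e2b, e2c, m1, m2, m3, hval, hval, hval]; ring
  have d3 := diffAt_of L.op s3 hz
  have dH := diffAt_of L.op hH hz
  refine ⟨s3.mul hH, ?_, ?_⟩
  · rw [d01_mul d3 dH, e3b, hval, hval, hval]; ring
  · rw [mx_mul L.op s3 hH hz, e3a, e3b, e3c, hval, hval, hval]; ring

theorem jt (L : Loc w U) (hz : z ∈ U) (b β δ : E n) (hv : XX w z b ≠ 0)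
    (hβ : IsBet w z (XX w z b) b β) (hδ : IsDel w z (XX w z b) b β δ) :
    ContDiffOn ℝ ∞ (fun y => Bf w (bb z (XX w z b) b β δ y) (bb z (XX w z b) b β δ y)
      (bb z (XX w z b) b β δ y) y) U ∧
    d01 (fun y => Bf w (bb z (XX w z b) b β δ y) (bb z (XX w z b) b β δ y)
      (bb z (XX w z b) b β δ y) y) z (XX w z b) = 0 ∧
    mx (fun y => Bf w (bb z (XX w z b) b β δ y) (bb z (XX w z b) b β δ y)
      (bb z (XX w z b) b β δ y) y) z (XX w z b) = 0 := by
  obtain ⟨v, hvd⟩ : ∃ v, v = XX w z b := ⟨_, rfl⟩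
  rw [← hvd] at hv hβ hδ ⊢
  have hP := fun p : Ix n × Ix n × Ix n => jt_prod L hz b β δ v hv p.1 p.2.1 p.2.2
    (Bf w (e p.1) (e p.2.1) (e p.2.2)) (smooth_Bf L _ _ _)
  have hexp : ∀ y ∈ U, Bf w (bb z v b β δ y) (bb z v b β δ y) (bb z v b β δ y) y =
      ∑ p : Ix n × Ix n × Ix n, conj (bb z v b β δ y p.1) * conj (bb z v b β δ y p.2.1) *
        conj (bb z v b β δ y p.2.2) * Bf w (e p.1) (e p.2.1) (e p.2.2) y :=
    fun y hy => jt_exp L hy _ _ _
  refine ⟨?_, ?_, ?_⟩
  · refine ContDiffOn.congr ?_ hexp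
    exact ContDiffOn.sum fun p _ => (hP p).1
  · rw [d01_congr (jt_ev L hz hexp), d01_sum]
    · have h1 : ∑ p : Ix n × Ix n × Ix n, d01 (fun y => conj (bb z v b β δ y p.1) *
          conj (bb z v b β δ y p.2.1) * conj (bb z v b β δ y p.2.2) *
          Bf w (e p.1) (e p.2.1) (e p.2.2) y) z v =
          d01 (Bf w b b b) z v + (Bf w β b b z + Bf w b β b z + Bf w b b β z) := by
        rw [jt_d01 L hz b b b v, jt_exp L hz β b b, jt_exp L hz b β b, jt_exp L hz b b β,
          ← Finset.sum_add_distrib, ← Finset.sum_add_distrib, ← Finset.sum_add_distrib]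
        exact Finset.sum_congr rfl fun p _ => (hP p).2.1
      rw [h1, Bf_symm12 L hz β b b, Bf_symm23 L hz b β b]
      have h2 := jetB L hz b β (by rw [← hvd]; exact hβ)
      rw [← hvd] at h2
      linear_combination h2
    · intro p _
      exact diffAt_of L.op (hP p).1 hz
  · rw [mx_congr (jt_ev L hz hexp), mx_sum _ _ L.op (fun p _ => (hP p).1) hz]
    have h1 : ∑ p : Ix n × Ix n × Ix n, mx (fun y => conj (bb z v b β δ y p.1) *
          conj (bb z v b β δ y p.2.1) * conj (bb z v b β δ y p.2.2) *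
          Bf w (e p.1) (e p.2.1) (e p.2.2) y) z v =
          mx (Bf w b b b) z v +
          (d10 (Bf w β b b) z v + d10 (Bf w b β b) z v + d10 (Bf w b b β) z v) +
          (Bf w δ b b z + Bf w b δ b z + Bf w b b δ z) := by
      rw [jt_mx L hz b b b v, jt_exp L hz δ b b, jt_exp L hz b δ b, jt_exp L hz b b δ,
        jt_d10 L hz β b b, jt_d10 L hz b β b, jt_d10 L hz b b β,
        ← Finset.sum_add_distrib, ← Finset.sum_add_distrib, ← Finset.sum_add_distrib,
        ← Finset.sum_add_distrib, ← Finset.sum_add_distrib, ← Finset.sum_add_distrib]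
      exact Finset.sum_congr rfl fun p _ => (hP p).2.2
    have h3 : d10 (Bf w β b b) z v = d10 (Bf w b b β) z v :=
      d10_congr (jt_ev L hz fun y hy => by rw [Bf_symm12 L hy β b b, Bf_symm23 L hy b β b])
    have h4 : d10 (Bf w b β b) z v = d10 (Bf w b b β) z v :=
      d10_congr (jt_ev L hz fun y hy => by rw [Bf_symm23 L hy b β b])
    rw [h1, h3, h4, Bf_symm12 L hz δ b b, Bf_symm23 L hz b δ b]
    have h2 := jetC L hz b β δ (by rw [← hvd]; exact hβ) (by rw [← hvd]; exact hδ)
    rw [← hvd] at h2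
    linear_combination h2

end Pool.Agent.SKF
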