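import Pool.Agent.SKF.Jpr

/-!
Lap (size 3): second derivative test. If the real function `ψ`, smooth near `z`, has a local maximum
at `z`, then `levi ψ z v v` has nonpositive real part.
Proof. `levi ψ z v v = (D²ψ(z)(v,v) + D²ψ(z)(iv,iv)) / 4` (`fderiv_d01` of DTW.Comm and symmetry), and
for a real vector `u` the function `t ↦ ψ(z + t u)` has a local maximum at 0, so its second
derivative `D²ψ(z)(u,u)` is `≤ 0` (first derivative 0; if the second derivative were positive the
function would have a strict local minimum: second derivative test `isLocalMin_of_deriv_deriv_pos`,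
or Taylor expansion).
-/

open scoped ContDiff ComplexConjugate Topology
open Complex

namespace Pool.Agent.SKF

open Pool.Agent.DTW

variable {n : ℕ}

private theorem lap_aux (ψ : E n → ℝ) (z u : E n) (hψ : ContDiffAt ℝ ∞ ψ z)
    (hm : IsLocalMax ψ z) : (fderiv ℝ (fderiv ℝ (cx ψ)) z u u).re ≤ 0 := by
  have hcx : ContDiffAt ℝ ∞ (cx ψ) z := contDiffAt_cx hψ
  have hline : ∀ t : ℝ, HasDerivAt (fun t : ℝ => z + t • u) u t := by
    intro t
    simpa using ((hasDerivAt_id t).smul_const u).const_add z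
  have hcont : Filter.Tendsto (fun t : ℝ => z + t • u) (𝓝 0) (𝓝 z) := by
    have h := (hline 0).continuousAt.tendsto
    simpa using h
  set g : ℝ → ℝ := fun t => ψ (z + t • u) with hg
  -- eventual differentiability of cx ψ
  have hev : ∀ᶠ y in 𝓝 z, DifferentiableAt ℝ (cx ψ) y := by
    have h1 : ContDiffAt ℝ 1 (cx ψ) z := hcx.of_le (by
      exact_mod_cast (le_top : (1 : ℕ∞) ≤ ⊤))
    have h2 := h1.eventually (by simp)
    filter_upwards [h2] with y hy
    exact hy.differentiableAt (by simp)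
  have hev2 : ∀ᶠ t in 𝓝 (0:ℝ), DifferentiableAt ℝ (cx ψ) (z + t • u) := hcont.eventually hev
  have hd1 : ∀ᶠ t in 𝓝 (0:ℝ), deriv g t = (fderiv ℝ (cx ψ) (z + t • u) u).re := by
    filter_upwards [hev2] with t ht
    have h1 : HasDerivAt (fun t : ℝ => cx ψ (z + t • u)) (fderiv ℝ (cx ψ) (z + t • u) u) t :=
      HasFDerivAt.comp_hasDerivAt (f := fun t : ℝ => z + t • u) (f' := u) (l := cx ψ)
        (l' := fderiv ℝ (cx ψ) (z + t • u)) t ht.hasFDerivAt (hline t)
    have h2 : HasDerivAt (fun t : ℝ => (cx ψ (z + t • u)).re)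
        (fderiv ℝ (cx ψ) (z + t • u) u).re t :=
      Complex.reCLM.hasFDerivAt.comp_hasDerivAt t h1
    have h3 : (fun t : ℝ => (cx ψ (z + t • u)).re) = g := by
      funext s
      simp [cx, hg]
    rw [h3] at h2
    exact h2.deriv
  have hd2 : deriv (deriv g) 0 = (fderiv ℝ (fderiv ℝ (cx ψ)) z u u).re := by
    rw [Filter.EventuallyEq.deriv_eq hd1]
    have h2 : DifferentiableAt ℝ (fderiv ℝ (cx ψ)) z :=
      (hcx.fderiv_right (m := ∞) (by simp)).differentiableAt (by simp)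
    have h3 : HasFDerivAt (fun y => fderiv ℝ (cx ψ) y u)
        ((fderiv ℝ (fderiv ℝ (cx ψ)) z).flip u) z := by
      have := h2.hasFDerivAt.clm_apply (hasFDerivAt_const u z)
      simpa using this
    have h0 : z + (0:ℝ) • u = z := by simp
    have h3' : HasFDerivAt (fun y => fderiv ℝ (cx ψ) y u)
        ((fderiv ℝ (fderiv ℝ (cx ψ)) z).flip u) (z + (0:ℝ) • u) := by rw [h0]; exact h3
    have h4 : HasDerivAt (fun t : ℝ => fderiv ℝ (cx ψ) (z + t • u) u)
        ((fderiv ℝ (fderiv ℝ (cx ψ)) z).flip u u) 0 :=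
      HasFDerivAt.comp_hasDerivAt (f := fun t : ℝ => z + t • u) (f' := u)
        (l := fun y => fderiv ℝ (cx ψ) y u)
        (l' := (fderiv ℝ (fderiv ℝ (cx ψ)) z).flip u) (0:ℝ) h3' (hline 0)
    have h5 : HasDerivAt (fun t : ℝ => (fderiv ℝ (cx ψ) (z + t • u) u).re)
        ((fderiv ℝ (fderiv ℝ (cx ψ)) z).flip u u).re 0 :=
      Complex.reCLM.hasFDerivAt.comp_hasDerivAt (0:ℝ) h4
    rw [h5.deriv]
    rfl
  by_contra hpos
  rw [not_le, ← hd2] at hpos
  have hgmax : IsLocalMax g 0 := by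
    have h : ∀ᶠ y in 𝓝 z, ψ y ≤ ψ z := hm
    have h' := hcont.eventually h
    filter_upwards [h'] with t ht
    simpa [hg] using ht
  have hgd : deriv g 0 = 0 := hgmax.deriv_eq_zero
  have hgc : ContinuousAt g 0 := by
    have h1 : ContinuousAt ψ (z + (0:ℝ) • u) := by
      have : z + (0:ℝ) • u = z := by simp
      rw [this]; exact hψ.continuousAt
    exact ContinuousAt.comp (f := fun t : ℝ => z + t • u) h1 (hline 0).continuousAt
  have hgmin : IsLocalMin g 0 := isLocalMin_of_deriv_deriv_pos hpos hgd hgc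
  have hconst : g =ᶠ[𝓝 0] fun _ => g 0 := by
    filter_upwards [hgmax, hgmin] with t h1 h2
    exact le_antisymm h1 h2
  have hd0 : deriv g =ᶠ[𝓝 0] deriv (fun _ : ℝ => g 0) := hconst.deriv
  have : deriv (deriv g) 0 = 0 := by
    rw [hd0.deriv_eq]
    simp
  linarith

theorem lap (ψ : E n → ℝ) (z v : E n) (hψ : ContDiffAt ℝ ∞ ψ z) (hm : IsLocalMax ψ z) :
    (levi ψ z v v).re ≤ 0 := by
  have hcx : ContDiffAt ℝ ∞ (cx ψ) z := contDiffAt_cx hψ
  have h1 : levi ψ z v v = (fderiv ℝ (fderiv ℝ (cx ψ)) z v v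
      + fderiv ℝ (fderiv ℝ (cx ψ)) z (I • v) (I • v)) / 4 := by
    have h0 : levi ψ z v v = d10 (fun y => d01 (cx ψ) y v) z v := rfl
    rw [h0, d10, fderiv_d01 hcx, fderiv_d01 hcx, symm2 hcx (I • v) v]
    have hI : (I : ℂ) * I = -1 := I_mul_I
    linear_combination (-(fderiv ℝ (fderiv ℝ (cx ψ)) z (I • v) (I • v)) / 4) * hI
  have h2 := lap_aux ψ z v hψ hm
  have h3 := lap_aux ψ z (I • v) hψ hm
  have h4 : (levi ψ z v v).re = ((fderiv ℝ (fderiv ℝ (cx ψ)) z v v).re
      + (fderiv ℝ (fderiv ℝ (cx ψ)) z (I • v) (I • v)).re) / 4 := by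
    rw [h1]
    have : (4 : ℂ) = ((4 : ℝ) : ℂ) := by norm_num
    rw [this, Complex.div_ofReal_re, Complex.add_re]
  rw [h4]
  linarith

end Pool.Agent.SKF
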