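import Pool.Agent.SKF.Jn
import Pool.Agent.SKF.Jt
import Pool.Agent.SKF.Lap
import Pool.Agent.SKF.Grm

/-!
Lcl (size 5): the inequality at a maximum. At `z0`, with `b0`, `v = XX w z0 b0`, `N0 = F(b0,b̄0) > 0`,
`Θ0 = Bf w b0 b0 b0 z0 ≠ 0`.
Proof. `v ≠ 0`: otherwise `Bf w b0 .. z0 = third w z0 v .. = 0` (`Bf_eq`; `third w z 0 c d = 0`).
Choose `β` (`ex_bet` with `a = b0`), `γ` (`ex_gam` with `a = b0`), `δ` (`ex_del`). Put
`b(y) = bb z0 v b0 β δ y`, `N(y) = levi w y (b y) (b y)` (real: `levi_self`), `Θ(y) = Bf w (b y) (b y) (b y) y`,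
and on the open neighbourhood `U'` of `z0` in `U` where `(N y).re > 0`, `Θ(y) ≠ 0`, `θ y > 0`,
`gd w y bs > 0`: `ψ(y) = log |Θ|² - 3 log N + κ log θ + κ log gd`. By hypothesis `hmax`,
`exp ψ(y) = Af w y (b y) * (θ y * gd w y bs)^κ` is at most its value at `z0` for `y` near `z0`
(`bb_self`), so `ψ` has a local maximum at `z0` and `lap` gives `(levi ψ z0 v v).re ≤ 0`. By `lgr`,
`levi ψ = levi log|Θ|² - 3 levi log N + κ levi log θ + κ levi log gd`; the first is 0 (`jt`, `lgt`),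
`levi (log N) z0 v v = - levi w z0 γ γ / N0` (`jn`, `lgn`), the last has real part `≥ 0` (`grm`).
So `3 (levi w z0 γ γ).re / N0 + κ (levi log θ).re ≤ 0`. Finally `Θ0 = Bf w b0 b0 b0 z0
= d10 (uu2 w b0 b0) z0 v = levi w z0 γ b0` (`IsGam`, `d10_XX`), so `|Θ0|² ≤ levi γ γ * N0` (`levi_cs`).
-/

open scoped ContDiff ComplexConjugate Topology
open Complex

namespace Pool.Agent.SKF

open Pool.Agent.DTW

variable {n : ℕ} {U : Set (E n)} {w : E n → ℝ}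

theorem lcl_ne (L : Loc w U) {z0 : E n} (hz : z0 ∈ U) (b0 : E n)
    (hΘ : Bf w b0 b0 b0 z0 ≠ 0) : XX w z0 b0 ≠ 0 := by
  intro h
  apply hΘ
  rw [Bf_eq L hz, h]
  have h1 : (fun y => levi w y 0 b0) = fun _ => (0 : ℂ) := by
    funext y
    exact d10_zero_vec _ _
  unfold third
  rw [h1]
  simp [d01]

theorem lcl (L : Loc w U) {z0 : E n} (hz : z0 ∈ U) (b0 : E n) {r : ℕ} (bs : Fin r → E n)
    (θ : E n → ℝ) (hθ : ContDiff ℝ ∞ θ) (hθ0 : 0 < θ z0) (κ : ℝ) (hκ : 0 < κ)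
    (hN : 0 < (levi w z0 b0 b0).re) (hΘ : Bf w b0 b0 b0 z0 ≠ 0) (hg : 0 < gd w z0 bs)
    (hs : ∀ a : E n, ∃ t : Fin r → ℂ, ∀ c, levi w z0 (a - lc t bs) c = 0)
    (hmax : ∀ᶠ y in 𝓝 z0, ∀ b : E n, 0 < (levi w y b b).re →
      Af w y b * (θ y * gd w y bs) ^ κ ≤ Af w z0 b0 * (θ z0 * gd w z0 bs) ^ κ) :
    3 * (Complex.normSq (Bf w b0 b0 b0 z0) / (levi w z0 b0 b0).re ^ 2)
      ≤ -(κ * (levi (fun y => Real.log (θ y)) z0 (XX w z0 b0) (XX w z0 b0)).re) := by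
  have hv : XX w z0 b0 ≠ 0 := lcl_ne L hz b0 hΘ
  obtain ⟨β, hβ⟩ := ex_bet L hz b0 b0
  obtain ⟨γ, hγ⟩ := ex_gam L hz b0 b0
  obtain ⟨δ, hδ⟩ := ex_del L hz hβ
  obtain ⟨jn1, jn2, jn3, jn4⟩ := jn L hz b0 β γ δ hv hβ hγ hδ
  obtain ⟨jt1, jt2, jt3⟩ := jt L hz b0 β δ hv hβ hδ
  set v := XX w z0 b0 with hvdef
  set b : E n → E n := bb z0 v b0 β δ with hb
  have hb0 : b z0 = b0 := bb_self _ _ _ _ _
  set F : E n → ℂ := fun y => levi w y (b y) (b y) with hF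
  set T : E n → ℂ := fun y => Bf w (b y) (b y) (b y) y with hT
  set N : E n → ℝ := fun y => (F y).re with hNd
  have hcN : ∀ y ∈ U, cx N y = F y := by
    intro y hy
    exact (levi_self L hy (b y)).1.symm
  have hNs : ContDiffOn ℝ ∞ N U := Complex.reCLM.contDiff.comp_contDiffOn jn1
  have hFz : F z0 = levi w z0 b0 b0 := by
    show levi w z0 (b z0) (b z0) = _
    rw [hb0]
  have hNz : N z0 = (levi w z0 b0 b0).re := by
    show (F z0).re = _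
    rw [hFz]
  have hTz : T z0 = Bf w b0 b0 b0 z0 := by
    show Bf w (b z0) (b z0) (b z0) z0 = _
    rw [hb0]
  have hgs : ContDiffOn ℝ ∞ (fun y => gd w y bs) U := smooth_gd L bs
  -- the open neighbourhood
  set U' : Set (E n) := (((U ∩ N ⁻¹' Set.Ioi 0) ∩ T ⁻¹' {0}ᶜ) ∩ θ ⁻¹' Set.Ioi 0) ∩
    (fun y => gd w y bs) ⁻¹' Set.Ioi 0 with hU'
  have hsub : U' ⊆ U := fun y hy => hy.1.1.1.1
  have o1 : IsOpen (U ∩ N ⁻¹' Set.Ioi 0) := hNs.continuousOn.isOpen_inter_preimage L.op isOpen_Ioi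
  have o2 : IsOpen ((U ∩ N ⁻¹' Set.Ioi 0) ∩ T ⁻¹' {0}ᶜ) :=
    (jt1.continuousOn.mono Set.inter_subset_left).isOpen_inter_preimage o1 isOpen_compl_singleton
  have o3 : IsOpen (((U ∩ N ⁻¹' Set.Ioi 0) ∩ T ⁻¹' {0}ᶜ) ∩ θ ⁻¹' Set.Ioi 0) :=
    o2.inter (isOpen_Ioi.preimage hθ.continuous)
  have o4 : IsOpen U' :=
    (hgs.continuousOn.mono (fun y hy => hy.1.1.1)).isOpen_inter_preimage o3 isOpen_Ioi
  have hzU' : z0 ∈ U' := by
    refine ⟨⟨⟨⟨hz, ?_⟩, ?_⟩, ?_⟩, ?_⟩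
    · show 0 < N z0
      rw [hNz]; exact hN
    · show T z0 ∈ ({0}ᶜ : Set ℂ)
      rw [hTz]; exact hΘ
    · exact hθ0
    · exact hg
  have pN : ∀ y ∈ U', 0 < N y := fun y hy => hy.1.1.1.2
  have pT : ∀ y ∈ U', T y ≠ 0 := fun y hy => hy.1.1.2
  have pθ : ∀ y ∈ U', 0 < θ y := fun y hy => hy.1.2
  have pg : ∀ y ∈ U', 0 < gd w y bs := fun y hy => hy.2
  obtain ⟨sA, lA⟩ := lgt (v := v) o4 (jt1.mono hsub) pT hzU' (jt2) (jt3)
  obtain ⟨sB, lB⟩ := lgn (v := v) o4 (hNs.mono hsub) pN hzU'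
  obtain ⟨sC, lC⟩ := lgn (v := v) o4 (hθ.contDiffOn (s := U')) pθ hzU'
  obtain ⟨sD, lD⟩ := lgn (v := v) o4 (hgs.mono hsub) pg hzU'
  have hnU : U ∈ 𝓝 z0 := L.op.mem_nhds hz
  have hcongr : cx N =ᶠ[𝓝 z0] F := by
    filter_upwards [hnU] with y hy
    exact hcN y hy
  have e1 : mx (cx N) z0 v = -levi w z0 γ γ := by rw [mx_congr hcongr, jn4]
  have e2 : d10 (cx N) z0 v = 0 := by rw [d10_congr hcongr, jn2]
  have e3 : d01 (cx N) z0 v = 0 := by rw [d01_congr hcongr, jn3]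
  rw [e1, e2, e3, mul_zero, zero_div, sub_zero] at lB
  -- the function psi
  have sAB : ContDiffOn ℝ ∞ (fun y => 1 * Real.log (Complex.normSq (T y)) +
      (-3) * Real.log (N y)) U' :=
    (contDiffOn_const.mul sA).add (contDiffOn_const.mul sB)
  have sCD : ContDiffOn ℝ ∞ (fun y => 1 * Real.log (θ y) + 1 * Real.log (gd w y bs)) U' :=
    (contDiffOn_const.mul sC).add (contDiffOn_const.mul sD)
  have sψ : ContDiffOn ℝ ∞ (fun y => 1 * (1 * Real.log (Complex.normSq (T y)) +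
      (-3) * Real.log (N y)) + κ * (1 * Real.log (θ y) + 1 * Real.log (gd w y bs))) U' :=
    (contDiffOn_const.mul sAB).add (contDiffOn_const.mul sCD)
  have hpsi : ∀ y ∈ U', 1 * (1 * Real.log (Complex.normSq (T y)) +
      (-3) * Real.log (N y)) + κ * (1 * Real.log (θ y) + 1 * Real.log (gd w y bs))
      = Real.log (Af w y (b y) * (θ y * gd w y bs) ^ κ) := by
    intro y hy
    have q1 : 0 < N y := pN y hy
    have q2 : 0 < Complex.normSq (T y) := Complex.normSq_pos.2 (pT y hy)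
    have q3 : 0 < θ y := pθ y hy
    have q4 : 0 < gd w y bs := pg y hy
    have hA : Af w y (b y) = Complex.normSq (T y) / (N y) ^ 3 := rfl
    rw [hA, Real.log_mul (by positivity) (by positivity), Real.log_div (by positivity)
      (by positivity), Real.log_pow, Real.log_rpow (by positivity),
      Real.log_mul q3.ne' q4.ne']
    push_cast
    ring
  have hlm : IsLocalMax (fun y => 1 * (1 * Real.log (Complex.normSq (T y)) +
      (-3) * Real.log (N y)) + κ * (1 * Real.log (θ y) + 1 * Real.log (gd w y bs))) z0 := by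
    show ∀ᶠ y in 𝓝 z0, _ ≤ _
    filter_upwards [hmax, o4.mem_nhds hzU'] with y hy hyU
    rw [hpsi y hyU, hpsi z0 hzU']
    have q1 : 0 < N y := pN y hyU
    have q2 : 0 < Complex.normSq (T y) := Complex.normSq_pos.2 (pT y hyU)
    have q3 : 0 < θ y := pθ y hyU
    have q4 : 0 < gd w y bs := pg y hyU
    have hA : Af w y (b y) = Complex.normSq (T y) / (N y) ^ 3 := rfl
    apply Real.log_le_log
    · rw [hA]; positivity
    · rw [hb0]
      exact hy (b y) q1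
  have hlap := lap _ z0 v (sψ.contDiffAt (o4.mem_nhds hzU')) hlm
  rw [lgr (v := v) o4 sAB sCD hzU' 1 κ, lgr (v := v) o4 sA sB hzU' 1 (-3),
    lgr (v := v) o4 sC sD hzU' 1 1, lA, lB] at hlap
  have hgrm := grm L hz b0 bs hg hs
  rw [← hvdef] at hgrm
  have hNz' : ((N z0 : ℝ) : ℂ) = (((levi w z0 b0 b0).re : ℝ) : ℂ) := by rw [hNz]
  rw [hNz'] at hlap
  have hgg := levi_self L hz γ
  set G : ℝ := (levi w z0 γ γ).re with hG
  set M : ℝ := (levi w z0 b0 b0).re with hM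
  rw [hgg.1] at hlap
  have hre : ((1 : ℝ) : ℂ) * (((1 : ℝ) : ℂ) * 0 + ((-3 : ℝ) : ℂ) * (-(G : ℂ) / (M : ℂ)))
      = ((3 * G / M : ℝ) : ℂ) := by
    push_cast
    ring
  rw [hre] at hlap
  have hre2 : (((3 * G / M : ℝ) : ℂ) + (κ : ℂ) * (((1 : ℝ) : ℂ) *
      levi (fun y => Real.log (θ y)) z0 v v + ((1 : ℝ) : ℂ) *
      levi (fun y => Real.log (gd w y bs)) z0 v v)).re
      = 3 * G / M + κ * ((levi (fun y => Real.log (θ y)) z0 v v).re +
        (levi (fun y => Real.log (gd w y bs)) z0 v v).re) := by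
    simp
  rw [hre2] at hlap
  have hcs := levi_cs L hz γ b0
  have hBg : levi w z0 γ b0 = Bf w b0 b0 b0 z0 := by
    rw [hγ b0, hvdef, d10_XX (L.sm.contDiffAt hnU)]
    rfl
  rw [hBg] at hcs
  have hMpos : 0 < M := hN
  have h5 : Complex.normSq (Bf w b0 b0 b0 z0) / M ^ 2 ≤ G / M := by
    rw [div_le_div_iff₀ (by positivity) hMpos]
    nlinarith
  have h6 : 0 ≤ κ * (levi (fun y => Real.log (gd w y bs)) z0 v v).re :=
    mul_nonneg hκ.le hgrm
  have h7 : 3 * G / M = 3 * (G / M) := by ring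
  rw [h7] at hlap
  nlinarith

end Pool.Agent.SKF
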