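import Pool.Agent.SKF.Bnd
import Pool.Agent.SKF.Grm

/-!
Mxe (size 5): existence of the maximum. Data: finitely many `w q`, `U q`, `θ q` (`q : Fin m`).
A configuration is `(q, z, bs, t)` with `z ∈ tsupport (θ q)`, `‖bs i‖ ≤ 1`, `t ≠ 0`,
`W = θ q z * gd (w q) z bs > 0`; its value is `Ψ = Af (w q) z (lc t bs) * W ^ κ`.
Given a configuration of value `Ψ1 > 0` there is one of maximal value.
Proof. `Af (w q) z (lc t bs)` does not change if `t` is multiplied by a scalar (`Af_smul`), so we may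
assume `‖t‖ = 1` (sup norm). By `bnd_A` (for the compact sets `tsupport (θ q)`), `Af ≤ C`: indeed
`(levi w z b b).re ^ 3 > 0` or the quotient is 0 (Lean: division by zero). Choose `ε > 0` with
`C ε ^ κ < Ψ1`. The set `S_q = {(z, bs, t) | z ∈ tsupport (θ q), ‖bs i‖ ≤ 1, ‖t‖ = 1, W ≥ ε}` is compact
(`W` is continuous on the compact set of all `(z,bs,t)` with `z ∈ tsupport`: `gd` is a polynomial in
the continuous functions `levi (w q) z (bs i) (bs j)`), and `Ψ` is continuous on it: the denominator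
`(levi w z b b).re` is positive by `gps_pd`, numerator and denominator are continuous functions of
`(z, b)` (finite sums, `levi_eq_sum`, and `Bf w b b b z = ∑ conj b_k conj b_l conj b_m Bf w (e k) (e l) (e m) z`).
If `S_q` is nonempty take the maximum over `S_q`, then over `q` (one of them contains the given
configuration, since `W < ε` would give `Ψ1 ≤ C ε^κ`). A configuration outside all `S_q` has value
`≤ C ε^κ < Ψ1`.
-/

open scoped ContDiff ComplexConjugate Topology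
open Complex

namespace Pool.Agent.SKF

open Pool.Agent.DTW

variable {n : ℕ}

private theorem Mxe_hf {U : Set (E n)} {w : E n → ℝ} {z : E n} (L : Loc w U) (hz : z ∈ U)
    (a b : E n) : levi w z a b = hf (LM w z) a b :=
  levi_eq_sum (L.sm.contDiffAt (L.op.mem_nhds hz)) a b

private theorem Mxe_smLM {U : Set (E n)} {w : E n → ℝ} (L : Loc w U) (k l : Ix n) :
    ContDiffOn ℝ ∞ (fun y => LM w y k l) U :=
  contDiffOn_pk L.op (contDiffOn_pb L.op (contDiffOn_cx L.sm) l) k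

private theorem Mxe_levi {U : Set (E n)} {w : E n → ℝ} (L : Loc w U) {X : Type*}
    [TopologicalSpace X] {K : Set X} (ζ : X → E n) (hζ : ContinuousOn ζ K) (hK : ∀ p ∈ K, ζ p ∈ U)
    (A B : X → E n) (hA : ContinuousOn A K) (hB : ContinuousOn B K) :
    ContinuousOn (fun p => levi w (ζ p) (A p) (B p)) K := by
  have h1 : ContinuousOn (fun p => ∑ k, ∑ l, A p k * conj (B p l) * LM w (ζ p) k l) K := by
    refine continuousOn_finsetSum _ (fun k _ => continuousOn_finsetSum _ (fun l _ => ?_))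
    have hA' : ContinuousOn (fun p => A p k) K := (continuous_apply k).comp_continuousOn hA
    have hB' : ContinuousOn (fun p => conj (B p l)) K :=
      Complex.continuous_conj.comp_continuousOn ((continuous_apply l).comp_continuousOn hB)
    have hL : ContinuousOn (fun p => LM w (ζ p) k l) K :=
      (Mxe_smLM L k l).continuousOn.comp hζ hK
    exact (hA'.mul hB').mul hL
  exact h1.congr (fun p hp => Mxe_hf L (hK p hp) _ _)

private theorem Mxe_exp (f : E n → ℂ) (hadd : ∀ a b, f (a + b) = f a + f b)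
    (hsmul : ∀ (t : ℂ) (a : E n), f (t • a) = conj t * f a) (a : E n) :
    f a = ∑ k, conj (a k) * f (e k) := by
  let T : E n →+ ℂ :=
    { toFun := f, map_zero' := by have := hsmul 0 0; simpa using this, map_add' := hadd }
  have h : T a = ∑ k, T (a k • (e k : E n)) := by
    rw [← map_sum, ← vec_eq_sum a]
  have h' : f a = ∑ k, f (a k • (e k : E n)) := h
  rw [h']
  exact Finset.sum_congr rfl (fun k _ => hsmul _ _)

private theorem Mxe_Bf {U : Set (E n)} {w : E n → ℝ} (L : Loc w U) {X : Type*}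
    [TopologicalSpace X] {K : Set X} (ζ : X → E n) (hζ : ContinuousOn ζ K) (hK : ∀ p ∈ K, ζ p ∈ U)
    (A : X → E n) (hA : ContinuousOn A K) :
    ContinuousOn (fun p => Bf w (A p) (A p) (A p) (ζ p)) K := by
  have hA' : ∀ k, ContinuousOn (fun p => conj (A p k)) K := fun k =>
    Complex.continuous_conj.comp_continuousOn ((continuous_apply k).comp_continuousOn hA)
  have h1 : ContinuousOn (fun p => ∑ k, conj (A p k) * ∑ l, conj (A p l) * ∑ j, conj (A p j) *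
      Bf w (e k) (e l) (e j) (ζ p)) K := by
    refine continuousOn_finsetSum _ (fun k _ => (hA' k).mul
      (continuousOn_finsetSum _ (fun l _ => (hA' l).mul
        (continuousOn_finsetSum _ (fun j _ => (hA' j).mul ?_)))))
    exact (smooth_Bf L (e k) (e l) (e j)).continuousOn.comp hζ hK
  refine h1.congr (fun p hp => ?_)
  have hz := hK p hp
  show Bf w (A p) (A p) (A p) (ζ p) = _
  rw [Mxe_exp (fun a => Bf w a (A p) (A p) (ζ p)) (fun a b => Bf_add1 L hz a b _ _)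
    (fun t a => Bf_smul1 L hz t a _ _) (A p)]
  refine Finset.sum_congr rfl (fun k _ => ?_)
  congr 1
  rw [Mxe_exp (fun a => Bf w (e k) a (A p) (ζ p)) (fun a b => Bf_add2 L hz _ a b _)
    (fun t a => Bf_smul2 L hz t _ a _) (A p)]
  refine Finset.sum_congr rfl (fun l _ => ?_)
  congr 1
  exact Mxe_exp (fun a => Bf w (e k) (e l) a (ζ p)) (fun a b => Bf_add3 L hz _ _ a b)
    (fun t a => Bf_smul3 L hz t _ _ a) (A p)

private theorem Mxe_pos {U : Set (E n)} {w : E n → ℝ} {z : E n} (L : Loc w U) (hz : z ∈ U) {r : ℕ}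
    (bs : Fin r → E n) (h : 0 < gd w z bs) (t : Fin r → ℂ) (ht : t ≠ 0) :
    0 < (levi w z (lc t bs) (lc t bs)).re := by
  rw [Mxe_hf L hz]
  refine gps_pd (L.psd z hz) bs ?_ t ht
  have h1 : (Matrix.of fun i j => hf (LM w z) (bs i) (bs j)) = gm w z bs := by
    ext i j
    exact (Mxe_hf L hz _ _).symm
  rw [h1]
  exact h.ne'

private theorem Mxe_gd {U : Set (E n)} {w : E n → ℝ} (L : Loc w U) {X : Type*}
    [TopologicalSpace X] {K : Set X} (ζ : X → E n) (hζ : ContinuousOn ζ K) (hK : ∀ p ∈ K, ζ p ∈ U)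
    {r : ℕ} (A : X → Fin r → E n) (hA : ContinuousOn A K) :
    ContinuousOn (fun p => gd w (ζ p) (A p)) K := by
  have hA' : ∀ i, ContinuousOn (fun p => A p i) K := fun i =>
    (continuous_apply i).comp_continuousOn hA
  have h1 : ∀ i j, ContinuousOn (fun p => levi w (ζ p) (A p i) (A p j)) K := fun i j =>
    Mxe_levi L ζ hζ hK _ _ (hA' i) (hA' j)
  rw [continuousOn_iff_continuous_domRestrict]
  have h2 : Continuous (fun p : K => gm w (ζ p) (A p)) := by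
    refine continuous_matrix (fun i j => ?_)
    have := h1 i j
    rw [continuousOn_iff_continuous_domRestrict] at this
    exact this
  exact Complex.continuous_re.comp h2.matrix_det

theorem mxe {m r : ℕ} (w : Fin m → E n → ℝ) (U : Fin m → Set (E n)) (θ : Fin m → E n → ℝ)
    (L : ∀ q, Loc (w q) (U q)) (hθ : ∀ q, Continuous (θ q)) (h0 : ∀ q z, 0 ≤ θ q z)
    (hc : ∀ q, HasCompactSupport (θ q)) (hs : ∀ q, tsupport (θ q) ⊆ U q)
    (κ : ℝ) (hκ : 0 < κ) (q1 : Fin m) (z1 : E n) (bs1 : Fin r → E n) (t1 : Fin r → ℂ)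
    (hz1 : z1 ∈ tsupport (θ q1)) (hb1 : ∀ i, ‖bs1 i‖ ≤ 1) (ht1 : t1 ≠ 0)
    (hW1 : 0 < θ q1 z1 * gd (w q1) z1 bs1) (hA1 : 0 < Af (w q1) z1 (lc t1 bs1)) :
    ∃ (q0 : Fin m) (z0 : E n) (bs0 : Fin r → E n) (t0 : Fin r → ℂ), z0 ∈ tsupport (θ q0) ∧
      (∀ i, ‖bs0 i‖ ≤ 1) ∧ t0 ≠ 0 ∧ 0 < θ q0 z0 * gd (w q0) z0 bs0 ∧
      0 < Af (w q0) z0 (lc t0 bs0) ∧
      ∀ (q : Fin m) (z : E n) (bs : Fin r → E n) (t : Fin r → ℂ), z ∈ tsupport (θ q) →
        (∀ i, ‖bs i‖ ≤ 1) → t ≠ 0 → 0 < θ q z * gd (w q) z bs →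
        Af (w q) z (lc t bs) * (θ q z * gd (w q) z bs) ^ κ
          ≤ Af (w q0) z0 (lc t0 bs0) * (θ q0 z0 * gd (w q0) z0 bs0) ^ κ := by
  classical
  choose C hC0 hC using fun q => bnd_A (L q) ((hc q).isCompact) (hs q)
  obtain ⟨Ct, hCt⟩ : ∃ Ct : ℝ, Ct = ∑ q, C q := ⟨_, rfl⟩
  have hCt0 : 0 ≤ Ct := by rw [hCt]; exact Finset.sum_nonneg (fun q _ => hC0 q)
  have hCq : ∀ q, C q ≤ Ct := fun q => by
    rw [hCt]; exact Finset.single_le_sum (fun q _ => hC0 q) (Finset.mem_univ q)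
  have hAfC : ∀ q z b, z ∈ tsupport (θ q) → Af (w q) z b ≤ Ct := by
    intro q z b hz
    have hl := (levi_self (L q) (hs q hz) b).2
    unfold Af
    rcases hl.eq_or_lt with h | h
    · rw [← h]
      simpa using hCt0
    · rw [div_le_iff₀ (pow_pos h 3)]
      exact (hC q z hz b).trans (mul_le_mul_of_nonneg_right (hCq q) (pow_nonneg h.le 3))
  -- normalisation of `t`
  have hnorm : ∀ q z (bs : Fin r → E n) (t : Fin r → ℂ), z ∈ tsupport (θ q) → t ≠ 0 →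
      ∃ t' : Fin r → ℂ, ‖t'‖ = 1 ∧ Af (w q) z (lc t' bs) = Af (w q) z (lc t bs) := by
    intro q z bs t hz ht
    have hn : ‖t‖ ≠ 0 := norm_ne_zero_iff.2 ht
    have hn' : ((‖t‖⁻¹ : ℝ) : ℂ) ≠ 0 := by
      exact_mod_cast inv_ne_zero hn
    refine ⟨((‖t‖⁻¹ : ℝ) : ℂ) • t, ?_, ?_⟩
    · rw [norm_smul, Complex.norm_real, norm_inv, norm_norm, inv_mul_cancel₀ hn]
    · have h1 : lc (((‖t‖⁻¹ : ℝ) : ℂ) • t) bs = ((‖t‖⁻¹ : ℝ) : ℂ) • lc t bs := by
        unfold lc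
        rw [Finset.smul_sum]
        refine Finset.sum_congr rfl (fun i _ => ?_)
        rw [Pi.smul_apply, smul_smul, smul_eq_mul]
      rw [h1]
      exact Af_smul (L q) (hs q hz) hn' _
  obtain ⟨W, hWd⟩ : ∃ W : Fin m → (E n × (Fin r → E n) × (Fin r → ℂ)) → ℝ,
    W = fun q p => θ q p.1 * gd (w q) p.1 p.2.1 := ⟨_, rfl⟩
  obtain ⟨Ψ, hΨd⟩ : ∃ Ψ : Fin m → (E n × (Fin r → E n) × (Fin r → ℂ)) → ℝ,
    Ψ = fun q p => Af (w q) p.1 (lc p.2.2 p.2.1) * (W q p) ^ κ := ⟨_, rfl⟩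
  obtain ⟨K, hKd⟩ : ∃ K : Fin m → Set (E n × (Fin r → E n) × (Fin r → ℂ)),
    K = fun q => tsupport (θ q) ×ˢ (Metric.closedBall (0 : Fin r → E n) 1 ×ˢ
      Metric.sphere (0 : Fin r → ℂ) 1) := ⟨_, rfl⟩
  have hKmem : ∀ q p, p ∈ K q ↔ p.1 ∈ tsupport (θ q) ∧ (∀ i, ‖p.2.1 i‖ ≤ 1) ∧ ‖p.2.2‖ = 1 := by
    intro q p
    rw [hKd]
    simp only [Set.mem_prod, Metric.mem_closedBall, dist_zero_right, mem_sphere_zero_iff_norm]
    rw [pi_norm_le_iff_of_nonneg zero_le_one]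
  have hKc : ∀ q, IsCompact (K q) := by
    intro q
    rw [hKd]
    exact (hc q).isCompact.prod ((isCompact_closedBall _ _).prod (isCompact_sphere _ _))
  have hζ : ∀ q, ContinuousOn (fun p : E n × (Fin r → E n) × (Fin r → ℂ) => p.1) (K q) := fun q =>
    continuous_fst.continuousOn
  have hKU : ∀ q, ∀ p ∈ K q, p.1 ∈ U q := fun q p hp => hs q ((hKmem q p).1 hp).1
  have hWc : ∀ q, ContinuousOn (W q) (K q) := by
    intro q
    rw [hWd]
    refine ((hθ q).comp continuous_fst).continuousOn.mul ?_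
    exact Mxe_gd (L q) _ (hζ q) (hKU q) (fun p => p.2.1)
      (continuous_fst.comp continuous_snd).continuousOn
  have hlc : Continuous (fun p : E n × (Fin r → E n) × (Fin r → ℂ) => lc p.2.2 p.2.1) := by
    unfold lc
    fun_prop
  -- the value of the given configuration
  obtain ⟨t1', ht1', hAt1⟩ := hnorm q1 z1 bs1 t1 hz1 ht1
  obtain ⟨Ψ1, hΨ1⟩ : ∃ Ψ1 : ℝ, Ψ1 = Ψ q1 (z1, bs1, t1') := ⟨_, rfl⟩
  have hΨ1' : Ψ1 = Af (w q1) z1 (lc t1' bs1) * (θ q1 z1 * gd (w q1) z1 bs1) ^ κ := by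
    rw [hΨ1, hΨd, hWd]
  have hΨ1pos : 0 < Ψ1 := by
    rw [hΨ1', hAt1]
    exact mul_pos hA1 (Real.rpow_pos_of_pos hW1 κ)
  obtain ⟨ε, hε0, hε⟩ : ∃ ε : ℝ, 0 < ε ∧ Ct * ε ^ κ < Ψ1 := by
    have hη : 0 < Ψ1 / (2 * (Ct + 1)) := by positivity
    refine ⟨(Ψ1 / (2 * (Ct + 1))) ^ κ⁻¹, Real.rpow_pos_of_pos hη _, ?_⟩
    rw [← Real.rpow_mul hη.le, inv_mul_cancel₀ hκ.ne', Real.rpow_one, ← mul_div_assoc,
      div_lt_iff₀ (by positivity)]
    nlinarith
  have hsmall : ∀ q (p : E n × (Fin r → E n) × (Fin r → ℂ)), p.1 ∈ tsupport (θ q) →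
      0 < W q p → W q p < ε → Ψ q p < Ψ1 := by
    intro q p hp hW0 hWε
    rw [hΨd]
    refine lt_of_le_of_lt ?_ hε
    exact mul_le_mul (hAfC q _ _ hp) (Real.rpow_le_rpow hW0.le hWε.le hκ.le)
      (Real.rpow_nonneg hW0.le κ) hCt0
  obtain ⟨S, hSd⟩ : ∃ S : Fin m → Set (E n × (Fin r → E n) × (Fin r → ℂ)),
    S = fun q => K q ∩ (W q) ⁻¹' Set.Ici ε := ⟨_, rfl⟩
  have hSmem : ∀ q p, p ∈ S q ↔ p ∈ K q ∧ ε ≤ W q p := by
    intro q p
    rw [hSd]
    rfl
  have hSc : ∀ q, IsCompact (S q) := by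
    intro q
    refine (hKc q).of_isClosed_subset ?_ (fun p hp => ((hSmem q p).1 hp).1)
    rw [hSd]
    exact (hWc q).preimage_isClosed_of_isClosed (hKc q).isClosed isClosed_Ici
  have hgdpos : ∀ q p, p ∈ S q → 0 < gd (w q) p.1 p.2.1 := by
    intro q p hp
    have h1 := ((hSmem q p).1 hp).2
    rw [hWd] at h1
    have h2 : 0 < θ q p.1 * gd (w q) p.1 p.2.1 := lt_of_lt_of_le hε0 h1
    rcases mul_pos_iff.1 h2 with ⟨_, h⟩ | ⟨h, _⟩
    · exact h
    · exact absurd h (not_lt.2 (h0 q _))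
  have hΨc : ∀ q, ContinuousOn (Ψ q) (S q) := by
    intro q
    have hSK : S q ⊆ K q := fun p hp => ((hSmem q p).1 hp).1
    rw [hΨd]
    have hζ' := (hζ q).mono hSK
    have hKU' : ∀ p ∈ S q, p.1 ∈ U q := fun p hp => hKU q p (hSK hp)
    have hlc' : ContinuousOn (fun p : E n × (Fin r → E n) × (Fin r → ℂ) => lc p.2.2 p.2.1) (S q) :=
      hlc.continuousOn
    have hB := Mxe_Bf (L q) _ hζ' hKU' _ hlc'
    have hF := Mxe_levi (L q) _ hζ' hKU' _ _ hlc' hlc'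
    have hW' := (hWc q).mono hSK
    refine ContinuousOn.mul ?_ (hW'.rpow_const (fun p _ => Or.inr hκ.le))
    unfold Af
    refine ContinuousOn.div (Complex.continuous_normSq.comp_continuousOn hB)
      ((Complex.continuous_re.comp_continuousOn hF).pow 3) (fun p hp => ?_)
    have ht : p.2.2 ≠ 0 := by
      intro h
      have := ((hKmem q p).1 (hSK hp)).2.2
      rw [h, norm_zero] at this
      exact zero_ne_one this
    exact (pow_pos (Mxe_pos (L q) (hKU' p hp) p.2.1 (hgdpos q p hp) p.2.2 ht) 3).ne'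
  -- the set of values
  have hVc : IsCompact (⋃ q, Ψ q '' S q) :=
    isCompact_iUnion (fun q => (hSc q).image_of_continuousOn (hΨc q))
  have hmem1 : (z1, bs1, t1') ∈ S q1 := by
    rw [hSmem, hKmem]
    refine ⟨⟨hz1, hb1, ht1'⟩, ?_⟩
    by_contra hcon
    push Not at hcon
    have hW1' : W q1 (z1, bs1, t1') = θ q1 z1 * gd (w q1) z1 bs1 := by rw [hWd]
    have := hsmall q1 (z1, bs1, t1') hz1 (by rw [hW1']; exact hW1) hcon
    rw [← hΨ1] at this
    exact lt_irrefl _ this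
  have hne : (⋃ q, Ψ q '' S q).Nonempty :=
    ⟨Ψ1, Set.mem_iUnion.2 ⟨q1, ⟨_, hmem1, hΨ1.symm⟩⟩⟩
  obtain ⟨M, hM, hMmax⟩ := hVc.exists_isGreatest hne
  obtain ⟨q0, p0, hp0, hM0⟩ := Set.mem_iUnion.1 hM
  have hM1 : Ψ1 ≤ M := hMmax (Set.mem_iUnion.2 ⟨q1, ⟨_, hmem1, hΨ1.symm⟩⟩)
  have hK0 := (hKmem q0 p0).1 ((hSmem q0 p0).1 hp0).1
  have hW0 : 0 < W q0 p0 := lt_of_lt_of_le hε0 ((hSmem q0 p0).1 hp0).2
  have hM0' : Af (w q0) p0.1 (lc p0.2.2 p0.2.1) * (W q0 p0) ^ κ = M := by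
    rw [← hM0, hΨd]
  have hWe : W q0 p0 = θ q0 p0.1 * gd (w q0) p0.1 p0.2.1 := by rw [hWd]
  refine ⟨q0, p0.1, p0.2.1, p0.2.2, hK0.1, hK0.2.1, ?_, ?_, ?_, ?_⟩
  · intro h
    have := hK0.2.2
    rw [h, norm_zero] at this
    exact zero_ne_one this
  · rw [← hWe]
    exact hW0
  · have h1 : 0 < Af (w q0) p0.1 (lc p0.2.2 p0.2.1) * (W q0 p0) ^ κ := by
      rw [hM0']
      exact lt_of_lt_of_le hΨ1pos hM1
    exact (mul_pos_iff_of_pos_right (Real.rpow_pos_of_pos hW0 κ)).1 h1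
  · intro q z bs t hz hb ht hWpos
    rw [← hWe, hM0']
    obtain ⟨t', ht', hAt⟩ := hnorm q z bs t hz ht
    have hWq : W q (z, bs, t') = θ q z * gd (w q) z bs := by rw [hWd]
    have hΨq : Ψ q (z, bs, t') = Af (w q) z (lc t bs) * (θ q z * gd (w q) z bs) ^ κ := by
      rw [← hAt, ← hWq, hΨd]
    rw [← hΨq]
    by_cases hcase : ε ≤ W q (z, bs, t')
    · exact hMmax (Set.mem_iUnion.2 ⟨q, ⟨_, (hSmem _ _).2 ⟨(hKmem _ _).2 ⟨hz, hb, ht'⟩, hcase⟩, rfl⟩⟩)
    · push Not at hcase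
      exact ((hsmall q (z, bs, t') hz (by rw [hWq]; exact hWpos) hcase).trans_le hM1).le

end Pool.Agent.SKF
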