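import Pool.Agent.SKF.Lhs
import Pool.Agent.SKF.Gex

/-!
Pol (size 3). `pol`: a symmetric function of three vectors, conjugate linear in each, vanishing on the
diagonal vanishes (polarisation: expand `B(b+c,b+c,b+c) = 0` and `B(b-c,b-c,b-c) = 0` to get
`B(b,b,c) = 0` for all `b, c`, then expand `B(b+d,b+d,c) = 0`).
`rmx`: let `Good r` mean: there are `i`, `z ∈ (A.c i).target`, `b` with `Bf (B.wt i) b b b z ≠ 0` and
`bs : Fin r → E n` with `gd (B.wt i) z bs ≠ 0`. `Good 0` (determinant of the empty matrix is 1), and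
`Good r` implies `r ≤ 2n` (`gps_card`; `levi` and `hf (LM w z)` agree by `levi_eq_sum`). Take the
largest `r`. If `Bf (B.wt i) b b b z ≠ 0` for some `b`, then all Gram determinants of size `r + 1` vanish
at `z`, and `gex` gives the span property. For the first part: take `b`, `bs` from `Good r`; `b` and
`lc t bs` agree modulo the kernel, so `Bf` is the same (`Af_ker`), in particular `t ≠ 0`.
-/

open scoped ContDiff ComplexConjugate Topology
open Complex

namespace Pool.Agent.SKF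

open Pool.Agent.DTW

variable {n : ℕ}

private theorem Pol_aux {V : Type*} [AddCommGroup V] (f : V → V → V → ℂ)
    (s12 : ∀ b c d, f b c d = f c b d) (s23 : ∀ b c d, f b c d = f b d c)
    (a1 : ∀ b b' c d, f (b + b') c d = f b c d + f b' c d)
    (m1 : ∀ b c d, f (-b) c d = -f b c d) (h : ∀ b, f b b b = 0) (b c d : V) : f b c d = 0 := by
  have a2 : ∀ b c c' d, f b (c + c') d = f b c d + f b c' d := by
    intro b c c' d
    rw [s12, a1, s12 c b, s12 c' b]
  have a3 : ∀ b c d d', f b c (d + d') = f b c d + f b c d' := by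
    intro b c d d'
    rw [s23, a2, s23 b d, s23 b d']
  have m2 : ∀ b c d, f b (-c) d = -f b c d := by
    intro b c d
    rw [s12, m1, s12 c b]
  have m3 : ∀ b c d, f b c (-d) = -f b c d := by
    intro b c d
    rw [s23, m2, s23 b d]
  have e3 : ∀ b c, f b c b = f b b c := fun b c => s23 b c b
  have e4 : ∀ b c, f c b b = f b b c := fun b c => by rw [s12, s23]
  have key : ∀ b c, f b b c = 0 := by
    intro b c
    have h1 := h (b + c)
    have h2 := h (b + -c)
    simp only [a1, a2, a3, m1, m2, m3] at h1 h2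
    have hb := h b
    have hc := h c
    rw [e3 b c, e4 b c] at h1 h2
    rw [e3 c b, e4 c b] at h1 h2
    have h5 : (6 : ℂ) * f b b c = 0 := by linear_combination h1 - h2 - 2 * hc
    exact (mul_eq_zero.1 h5).resolve_left (by norm_num)
  have h6 := key (b + c) d
  simp only [a1, a2] at h6
  rw [key b d, key c d, s12 c b d] at h6
  have h7 : (2 : ℂ) * f b c d = 0 := by linear_combination h6
  exact (mul_eq_zero.1 h7).resolve_left (by norm_num)

theorem pol {U : Set (E n)} {w : E n → ℝ} (L : Loc w U) {z : E n} (hz : z ∈ U)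
    (h : ∀ b, Bf w b b b z = 0) (b c d : E n) : Bf w b c d z = 0 := by
  refine Pol_aux (fun b c d => Bf w b c d z) (fun b c d => Bf_symm12 L hz b c d)
    (fun b c d => Bf_symm23 L hz b c d) (fun b b' c d => Bf_add1 L hz b b' c d) ?_ h b c d
  intro b c d
  have h1 := Bf_smul1 L hz (-1) b c d
  have h2 : ((-1 : ℂ) • b) = -b := by rw [neg_smul, one_smul]
  rw [h2] at h1
  change Bf w (-b) c d z = -Bf w b c d z
  rw [h1]
  simp

variable {X : Type*} [TopologicalSpace X] {ι : Type*} {A : Atlas n X ι}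

private theorem Pol_levi {U : Set (E n)} {w : E n → ℝ} (L : Loc w U) {z : E n} (hz : z ∈ U)
    (a b : E n) : hf (LM w z) a b = levi w z a b := by
  rw [levi_eq_sum (L.sm.contDiffAt (L.op.mem_nhds hz))]
  rfl

private theorem Pol_gd {U : Set (E n)} {w : E n → ℝ} (L : Loc w U) {z : E n} (hz : z ∈ U)
    {r : ℕ} (bs : Fin r → E n) :
    (Matrix.of fun i j => hf (LM w z) (bs i) (bs j)).det.re = gd w z bs := by
  have h : (Matrix.of fun i j => hf (LM w z) (bs i) (bs j)) = gm w z bs := by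
    ext i j
    exact Pol_levi L hz _ _
  rw [h]
  rfl

theorem rmx (B : Bundle A) (L : ∀ i, Loc (B.wt i) (A.c i).target)
    (h : ∃ i, ∃ z ∈ (A.c i).target, ∃ b, Bf (B.wt i) b b b z ≠ 0) :
    ∃ r : ℕ, (∃ i, ∃ z ∈ (A.c i).target, ∃ (bs : Fin r → E n) (t : Fin r → ℂ), t ≠ 0 ∧
        0 < gd (B.wt i) z bs ∧ Bf (B.wt i) (lc t bs) (lc t bs) (lc t bs) z ≠ 0) ∧
      ∀ i, ∀ z ∈ (A.c i).target, (∃ b, Bf (B.wt i) b b b z ≠ 0) → ∀ bs : Fin r → E n,
        0 < gd (B.wt i) z bs → ∀ a : E n, ∃ t : Fin r → ℂ, ∀ c, levi (B.wt i) z (a - lc t bs) c = 0 := by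
  classical
  let Good : ℕ → Prop := fun r => ∃ i, ∃ z ∈ (A.c i).target, (∃ b, Bf (B.wt i) b b b z ≠ 0) ∧
    ∃ bs : Fin r → E n, gd (B.wt i) z bs ≠ 0
  have hle : ∀ r, Good r → r ≤ 2 * n := by
    rintro r ⟨i, z, hz, -, bs, hbs⟩
    refine gps_card ((L i).psd z hz) bs ?_
    rw [Pol_gd (L i) hz]
    exact hbs
  have h0 : Good 0 := by
    obtain ⟨i, z, hz, b, hb⟩ := h
    refine ⟨i, z, hz, ⟨b, hb⟩, Fin.elim0, ?_⟩
    simp [gd, gm]
  have hg : Good (Nat.findGreatest Good (2 * n)) := Nat.findGreatest_spec (Nat.zero_le _) h0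
  have hmax : ∀ k, Nat.findGreatest Good (2 * n) < k → ¬ Good k := by
    intro k hk hgk
    exact Nat.findGreatest_is_greatest hk (hle k hgk) hgk
  generalize Nat.findGreatest Good (2 * n) = r at hg hmax
  have hspan : ∀ i, ∀ z ∈ (A.c i).target, (∃ b, Bf (B.wt i) b b b z ≠ 0) → ∀ bs : Fin r → E n,
      0 < gd (B.wt i) z bs → ∀ a : E n, ∃ t : Fin r → ℂ, ∀ c, levi (B.wt i) z (a - lc t bs) c = 0 := by
    intro i z hz hb bs hbs a
    obtain ⟨t, ht⟩ := gex ((L i).psd z hz) bs a (by rw [Pol_gd (L i) hz]; exact hbs.ne') (by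
      rw [Pol_gd (L i) hz (Fin.snoc (α := fun _ => E n) bs a)]
      by_contra hne
      exact hmax (r + 1) (Nat.lt_succ_self r) ⟨i, z, hz, hb, _, hne⟩)
    exact ⟨t, fun c => by rw [← Pol_levi (L i) hz]; exact ht c⟩
  refine ⟨r, ?_, hspan⟩
  obtain ⟨i, z, hz, ⟨b, hb⟩, bs, hbs⟩ := hg
  have hpos : 0 < gd (B.wt i) z bs := by
    have h1 := (gps_nonneg ((L i).psd z hz) bs).1
    rw [Pol_gd (L i) hz] at h1
    exact lt_of_le_of_ne h1 (Ne.symm hbs)
  obtain ⟨t, ht⟩ := hspan i z hz ⟨b, hb⟩ bs hpos b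
  have hB := (Af_ker (L i) hz ht).2.2
  refine ⟨i, z, hz, bs, t, ?_, hpos, ?_⟩
  · rintro rfl
    apply hb
    rw [hB]
    have h0 : lc (0 : Fin r → ℂ) bs = (0 : ℂ) • (0 : E n) := by
      simp [lc]
    rw [h0, Bf_smul1 (L i) hz]
    simp
  · rw [← hB]
    exact hb

end Pool.Agent.SKF
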