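import Pool.Agent.SKF.Lgn

open scoped ContDiff ComplexConjugate Topology
open Complex

namespace Pool.Agent.SKF

open Pool.Agent.DTW

variable {n : ℕ}

private theorem tlb_d {f : E n → ℂ} {z : E n} {C : ℝ} (h : ‖fderiv ℝ f z‖ ≤ C) (v : E n) :
    ‖d10 f z v‖ ≤ C * ‖v‖ ∧ ‖d01 f z v‖ ≤ C * ‖v‖ := by
  have h1 : ‖fderiv ℝ f z v‖ ≤ C * ‖v‖ := (fderiv ℝ f z).le_of_opNorm_le h v
  have h2 : ‖fderiv ℝ f z (I • v)‖ ≤ C * ‖v‖ := by
    have := (fderiv ℝ f z).le_of_opNorm_le h (I • v)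
    rwa [norm_smul, Complex.norm_I, one_mul] at this
  have h3 : ‖I * fderiv ℝ f z (I • v)‖ ≤ C * ‖v‖ := by
    rw [norm_mul, Complex.norm_I, one_mul]; exact h2
  constructor
  · unfold d10
    rw [norm_div, Complex.norm_two, div_le_iff₀ (by norm_num)]
    calc _ ≤ ‖fderiv ℝ f z v‖ + ‖I * fderiv ℝ f z (I • v)‖ := norm_sub_le _ _
      _ ≤ C * ‖v‖ * 2 := by linarith
  · unfold d01
    rw [norm_div, Complex.norm_two, div_le_iff₀ (by norm_num)]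
    calc _ ≤ ‖fderiv ℝ f z v‖ + ‖I * fderiv ℝ f z (I • v)‖ := norm_add_le _ _
      _ ≤ C * ‖v‖ * 2 := by linarith

theorem tlb (θ : E n → ℝ) (hθ : ContDiff ℝ ∞ θ) (hc : HasCompactSupport θ) (c0 : ℝ) (h0 : 0 < c0) :
    ∃ C : ℝ, 0 ≤ C ∧ ∀ z v : E n, c0 ≤ θ z →
      -(C * ‖v‖ ^ 2) ≤ (levi (fun y => Real.log (θ y)) z v v).re := by
  have hcx : ContDiff ℝ ∞ (cx θ) := contDiffOn_univ.1 (contDiffOn_cx hθ.contDiffOn)
  have hK : IsCompact (tsupport θ) := hc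
  -- bound of the first derivative
  have hcont1 : Continuous (fderiv ℝ (cx θ)) := hcx.continuous_fderiv (by simp)
  obtain ⟨C1, hC1⟩ := hK.exists_bound_of_continuousOn hcont1.continuousOn
  -- bound of the second derivatives
  have h2 : ∀ k l : Ix n, ∃ C : ℝ, ∀ z ∈ tsupport θ, ‖LM θ z k l‖ ≤ C := by
    intro k l
    have hs : ContDiffOn ℝ ∞ (pk k (pb l (cx θ))) Set.univ :=
      contDiffOn_pk isOpen_univ (contDiffOn_pb isOpen_univ hcx.contDiffOn l) k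
    exact hK.exists_bound_of_continuousOn (hs.continuousOn.mono (Set.subset_univ _))
  choose M hM using h2
  set M2 : ℝ := ∑ k, ∑ l, |M k l| with hM2
  have hM20 : 0 ≤ M2 := Finset.sum_nonneg fun k _ => Finset.sum_nonneg fun l _ => abs_nonneg _
  refine ⟨M2 / c0 + C1 ^ 2 / c0 ^ 2, by positivity, fun z v hz => ?_⟩
  have hzpos : 0 < θ z := lt_of_lt_of_le h0 hz
  have hzK : z ∈ tsupport θ := subset_tsupport θ (by
    rw [Function.mem_support]; exact hzpos.ne')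
  have hU : IsOpen {y : E n | 0 < θ y} := isOpen_lt continuous_const hθ.continuous
  have hl := (lgn (v := v) hU (N := θ) hθ.contDiffOn (fun y hy => hy) (z := z) hzpos).2
  rw [hl]
  have hd := tlb_d (hC1 z hzK) v
  have hC1' : 0 ≤ C1 := le_trans (norm_nonneg _) (hC1 z hzK)
  have hmx : ‖mx (cx θ) z v‖ ≤ M2 * ‖v‖ ^ 2 := by
    have e1 : mx (cx θ) z v = levi θ z v v := rfl
    rw [e1, levi_eq_sum hθ.contDiffAt]
    refine (norm_sum_le _ _).trans ?_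
    rw [hM2, Finset.sum_mul]
    refine Finset.sum_le_sum fun k _ => ?_
    refine (norm_sum_le _ _).trans ?_
    rw [Finset.sum_mul]
    refine Finset.sum_le_sum fun l _ => ?_
    have hk : ‖v k‖ ≤ ‖v‖ := norm_le_pi_norm v k
    have hl' : ‖v l‖ ≤ ‖v‖ := norm_le_pi_norm v l
    have hm : ‖LM θ z k l‖ ≤ |M k l| := (hM k l z hzK).trans (le_abs_self _)
    have hvv : ‖v k‖ * ‖v l‖ ≤ ‖v‖ ^ 2 := by
      rw [sq]; exact mul_le_mul hk hl' (norm_nonneg _) (norm_nonneg _)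
    simp only [norm_mul, RCLike.norm_conj]
    calc ‖v k‖ * ‖v l‖ * ‖LM θ z k l‖ ≤ ‖v‖ ^ 2 * |M k l| :=
          mul_le_mul hvv hm (norm_nonneg _) (by positivity)
      _ = |M k l| * ‖v‖ ^ 2 := by ring
  have hA : ‖mx (cx θ) z v / (θ z : ℂ)‖ ≤ M2 / c0 * ‖v‖ ^ 2 := by
    rw [norm_div, Complex.norm_real, Real.norm_of_nonneg hzpos.le, div_le_iff₀ hzpos]
    calc ‖mx (cx θ) z v‖ ≤ M2 * ‖v‖ ^ 2 := hmx
      _ = M2 / c0 * ‖v‖ ^ 2 * c0 := by field_simp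
      _ ≤ M2 / c0 * ‖v‖ ^ 2 * θ z := by gcongr
  have hB : ‖d10 (cx θ) z v * d01 (cx θ) z v / (θ z : ℂ) ^ 2‖ ≤ C1 ^ 2 / c0 ^ 2 * ‖v‖ ^ 2 := by
    rw [norm_div, norm_mul, norm_pow, Complex.norm_real, Real.norm_of_nonneg hzpos.le,
      div_le_iff₀ (by positivity)]
    calc ‖d10 (cx θ) z v‖ * ‖d01 (cx θ) z v‖ ≤ (C1 * ‖v‖) * (C1 * ‖v‖) :=
          mul_le_mul hd.1 hd.2 (norm_nonneg _) (by positivity)
      _ = C1 ^ 2 / c0 ^ 2 * ‖v‖ ^ 2 * c0 ^ 2 := by field_simp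
      _ ≤ C1 ^ 2 / c0 ^ 2 * ‖v‖ ^ 2 * θ z ^ 2 := by gcongr
  have h3 := Complex.abs_re_le_norm (mx (cx θ) z v / (θ z : ℂ))
  have h4 := Complex.abs_re_le_norm (d10 (cx θ) z v * d01 (cx θ) z v / (θ z : ℂ) ^ 2)
  rw [Complex.sub_re]
  have h5 := (abs_le.1 (h3.trans hA)).1
  have h6 := (abs_le.1 (h4.trans hB)).2
  nlinarith [h5, h6]

end Pool.Agent.SKF
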