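import Pool.Agent.SKF.Lwb
import Pool.Agent.SKF.Lcl
import Pool.Agent.SKF.Mxe
import Pool.Agent.SKF.Pol
import Pool.Agent.SKF.Tlb
import Pool.Agent.SKF.Gdb

/-!
Fin (size 5): the cubic form vanishes everywhere.
Proof. Suppose `Bf (B.wt i) b b b z ≠ 0` somewhere; take `r` from `rmx`, and its point `x1`. Choose a cover
(`ex_cover`), `R` (`ex_trb`). There is `q1` with `θ q1 = 1` at `x1`; transport `bs`, `t` to this chart
(`inv_levi`, `inv_Bf`) and divide `bs` by a large constant: a configuration `(q1,z1,bs1,t1)` with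
`W1 = θ gd > 0` (`θ q1 z1 = 1`), `A1 = Af (wt q1) z1 (lc t1 bs1) > 0` (numerator nonzero, denominator positive by
`gps_pd`). Constants independent of `κ ∈ (0,1]`: `C1` from `bnd_X` on each `tsupport (θ q)`
(`‖XX w z b‖² ≤ C1 levi b b`), `C2` from `tlb (θ q)` with `c0 = (R^(2r))⁻¹`, `G ≥ 1` an upper bound of
`θ q z * gd (wt q) z bs` for `z ∈ tsupport (θ q)`, `‖bs i‖ ≤ 1` (`gdb`).
For `κ ∈ (0,1]` let `(q0,z0,bs0,t0)` be the maximal configuration of `mxe`, `b0 = lc t0 bs0`,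
`N0 = levi b0 b0 > 0`, `v = XX w z0 b0`. `lwb`: `θ q0 z0 ≥ c0`. The hypothesis `hmax` of `lcl` holds:
for `y` near `z0` (so that `θ q0 y > 0`, hence `y ∈ tsupport (θ q0)`, and `gd y bs0 > 0`) and `b` with
`levi y b b > 0`: if `Bf b b b y = 0` the left side is 0; otherwise `rmx` gives `t` with
`levi y (b - lc t bs0) . = 0`, so `Af y b = Af y (lc t bs0)`, `t ≠ 0` (`Af_ker`), and maximality applies.
`hs` of `lcl` at `z0` is `rmx`. So `3 |Θ0|²/N0² ≤ κ C2 ‖v‖² ≤ κ C2 C1 N0`, i.e.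
`Af (wt q0) z0 b0 = |Θ0|²/N0³ ≤ κ C1 C2 / 3`. Therefore
`A1 * W1^κ ≤ Af.. * W0^κ ≤ (κ C1 C2 / 3) G^κ ≤ (κ C1 C2 / 3) G` for every `κ ∈ (0,1]`. Let `κ → 0`:
`A1 ≤ 0`, a contradiction (`W1^κ → 1`; or `W1^κ ≥ min W1 1`). So `Bf (B.wt i) b b b z = 0` always; `pol`.
-/

open scoped ContDiff ComplexConjugate Topology
open Complex

namespace Pool.Agent.SKF

open Pool.Agent.DTW

variable {n : ℕ} {X : Type*} [TopologicalSpace X] [T2Space X] [CompactSpace X] {ι : Type*}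
  {A : Atlas n X ι}

private theorem levi_hf {w : E n → ℝ} {U : Set (E n)} (L : Loc w U) {z : E n} (hz : z ∈ U) (a b : E n) :
    levi w z a b = hf (LM w z) a b := by
  rw [levi_eq_sum (L.sm.contDiffAt (L.op.mem_nhds hz))]
  rfl

private theorem pd {w : E n → ℝ} {U : Set (E n)} (L : Loc w U) {z : E n} (hz : z ∈ U) {r : ℕ}
    (bs : Fin r → E n) (hg : 0 < gd w z bs) (t : Fin r → ℂ) (ht : t ≠ 0) :
    0 < (levi w z (lc t bs) (lc t bs)).re := by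
  rw [levi_hf L hz]
  apply gps_pd (L.psd z hz) bs _ t ht
  have h : (Matrix.of fun i j => hf (LM w z) (bs i) (bs j)) = gm w z bs := by
    ext i j
    simp only [gm, Matrix.of_apply]
    rw [levi_hf L hz]
  rw [h]
  exact hg.ne'

private theorem Af_pos {w : E n → ℝ} {U : Set (E n)} (L : Loc w U) {z : E n} (hz : z ∈ U) {r : ℕ}
    (bs : Fin r → E n) (hg : 0 < gd w z bs) (t : Fin r → ℂ) (ht : t ≠ 0)
    (hB : Bf w (lc t bs) (lc t bs) (lc t bs) z ≠ 0) : 0 < Af w z (lc t bs) := by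
  unfold Af
  have h1 := pd L hz bs hg t ht
  have h2 : 0 < Complex.normSq (Bf w (lc t bs) (lc t bs) (lc t bs) z) := Complex.normSq_pos.2 hB
  positivity

theorem fin_Bf (B : Bundle A) (L : ∀ i, Loc (B.wt i) (A.c i).target) :
    ∀ i, ∀ z ∈ (A.c i).target, ∀ b c d : E n, Bf (B.wt i) b c d z = 0 := by
  intro i z hz
  by_cases h : ∃ i, ∃ z ∈ (A.c i).target, ∃ b, Bf (B.wt i) b b b z ≠ 0
  swap
  · have h' : ∀ b, Bf (B.wt i) b b b z = 0 := by
      intro b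
      by_contra hb
      exact h ⟨i, z, hz, b, hb⟩
    exact pol (L i) hz h'
  exfalso
  obtain ⟨r, ⟨i1, y1, hy1, bs', t1, ht1, hg1, hB1⟩, hrm⟩ := rmx B L h
  obtain ⟨m, ⟨C⟩⟩ := ex_cover A
  obtain ⟨R, hR, hRb⟩ := ex_trb A C
  obtain ⟨q1, hx1, hθ1⟩ := C.cover ((A.c i1).symm y1)
  have hU : y1 ∈ Uo A i1 (C.s q1) := ⟨hy1, hx1⟩
  have hθ1' : C.θ q1 (ph A i1 (C.s q1) y1) = 1 := hθ1
  have hz1t : ph A i1 (C.s q1) y1 ∈ (A.c (C.s q1)).target := ph_mem hU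
  have hz1s : ph A i1 (C.s q1) y1 ∈ tsupport (C.θ q1) := by
    apply subset_tsupport
    rw [Function.mem_support, hθ1']
    exact one_ne_zero
  set T := fderiv ℂ (ph A i1 (C.s q1)) y1 with hT
  set z1 := ph A i1 (C.s q1) y1 with hz1
  set bT : Fin r → E n := fun i => T (bs' i) with hbT
  have hlT : lc t1 bT = T (lc t1 bs') := by
    unfold lc
    rw [map_sum]
    refine Finset.sum_congr rfl ?_
    intro i _
    rw [map_smul]
  have hgT : 0 < gd (B.wt (C.s q1)) z1 bT := by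
    have e : gm (B.wt (C.s q1)) z1 bT = gm (B.wt i1) y1 bs' := by
      ext i j
      simp only [gm, Matrix.of_apply, hbT]
      rw [inv_levi B hU]
    unfold gd at hg1 ⊢
    rw [e]
    exact hg1
  have hBT : Bf (B.wt (C.s q1)) (lc t1 bT) (lc t1 bT) (lc t1 bT) z1 ≠ 0 := by
    rw [hlT]
    rw [inv_Bf B L hU] at hB1
    exact hB1
  have hAT := Af_pos (L (C.s q1)) hz1t bT hgT t1 ht1 hBT
  set Kc : ℝ := 1 + ∑ i, ‖bT i‖ with hKc
  have hKc0 : 0 < Kc := by positivity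
  have hKcc : ((Kc⁻¹ : ℝ) : ℂ) ≠ 0 := by
    rw [Ne, Complex.ofReal_eq_zero]
    exact inv_ne_zero hKc0.ne'
  set bs1 : Fin r → E n := fun i => ((Kc⁻¹ : ℝ) : ℂ) • bT i with hbs1
  have hb1 : ∀ i, ‖bs1 i‖ ≤ 1 := by
    intro i
    simp only [hbs1]
    rw [norm_smul, Complex.norm_real, Real.norm_of_nonneg (inv_nonneg.2 hKc0.le)]
    have h1 : ‖bT i‖ ≤ Kc := by
      have h2 : ‖bT i‖ ≤ ∑ i, ‖bT i‖ :=
        Finset.single_le_sum (f := fun i => ‖bT i‖) (fun _ _ => norm_nonneg _) (Finset.mem_univ i)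
      linarith
    calc Kc⁻¹ * ‖bT i‖ ≤ Kc⁻¹ * Kc := mul_le_mul_of_nonneg_left h1 (inv_nonneg.2 hKc0.le)
      _ = 1 := inv_mul_cancel₀ hKc0.ne'
  have hg1' : 0 < gd (B.wt (C.s q1)) z1 bs1 := by
    have e : gm (B.wt (C.s q1)) z1 bs1 = (((Kc⁻¹) ^ 2 : ℝ) : ℂ) • gm (B.wt (C.s q1)) z1 bT := by
      ext i j
      simp only [gm, Matrix.of_apply, Matrix.smul_apply, smul_eq_mul, hbs1]
      rw [levi_smul_left (L (C.s q1)) hz1t, levi_smul_right (L (C.s q1)) hz1t, Complex.conj_ofReal]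
      push_cast
      ring
    unfold gd at hgT ⊢
    rw [e, Matrix.det_smul, Fintype.card_fin, ← Complex.ofReal_pow, Complex.re_ofReal_mul]
    positivity
  have hl1 : lc t1 bs1 = ((Kc⁻¹ : ℝ) : ℂ) • lc t1 bT := by
    unfold lc
    rw [Finset.smul_sum]
    refine Finset.sum_congr rfl ?_
    intro i _
    simp only [hbs1]
    rw [smul_comm]
  have hA1 : 0 < Af (B.wt (C.s q1)) z1 (lc t1 bs1) := by
    rw [hl1, Af_smul (L (C.s q1)) hz1t hKcc]
    exact hAT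
  have hW1 : 0 < C.θ q1 z1 * gd (B.wt (C.s q1)) z1 bs1 := by
    rw [hθ1', one_mul]
    exact hg1'
  have hc0 : 0 < (R ^ (2 * r))⁻¹ := by
    have : 0 < R := lt_of_lt_of_le one_pos hR
    positivity
  have hX : ∀ q : Fin m, ∃ C1 : ℝ, 0 ≤ C1 ∧ ∀ z ∈ tsupport (C.θ q), ∀ b : E n,
      ‖XX (B.wt (C.s q)) z b‖ ^ 2 ≤ C1 * (levi (B.wt (C.s q)) z b b).re := fun q =>
    bnd_X (L (C.s q)) (C.compact q) (C.sub q)
  have hTl : ∀ q : Fin m, ∃ C2 : ℝ, 0 ≤ C2 ∧ ∀ z v : E n, (R ^ (2 * r))⁻¹ ≤ C.θ q z →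
      -(C2 * ‖v‖ ^ 2) ≤ (levi (fun y => Real.log (C.θ q y)) z v v).re := fun q =>
    tlb (C.θ q) (C.smooth q) (C.compact q) _ hc0
  choose C1f hC10 hC1 using hX
  choose C2f hC20 hC2 using hTl
  set C1 : ℝ := ∑ q, C1f q with hC1d
  set C2 : ℝ := ∑ q, C2f q with hC2d
  have hC1n : 0 ≤ C1 := Finset.sum_nonneg fun q _ => hC10 q
  have hC2n : 0 ≤ C2 := Finset.sum_nonneg fun q _ => hC20 q
  have hC1q : ∀ q, C1f q ≤ C1 := fun q =>
    Finset.single_le_sum (f := C1f) (fun q _ => hC10 q) (Finset.mem_univ q)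
  have hC2q : ∀ q, C2f q ≤ C2 := fun q =>
    Finset.single_le_sum (f := C2f) (fun q _ => hC20 q) (Finset.mem_univ q)
  obtain ⟨G, hG1, hG⟩ := gdb (r := r) (fun q => B.wt (C.s q)) (fun q => (A.c (C.s q)).target) C.θ
    (fun q => L (C.s q)) C.nonneg C.le_one C.compact C.sub
  set A1 := Af (B.wt (C.s q1)) z1 (lc t1 bs1) with hA1d
  set W1 := C.θ q1 z1 * gd (B.wt (C.s q1)) z1 bs1 with hW1d
  have main : ∀ κ : ℝ, 0 < κ → κ ≤ 1 → A1 * min W1 1 ≤ κ * C1 * C2 / 3 * G := by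
    intro κ hκ hκ1
    obtain ⟨q0, z0, bs0, t0, hz0, hb0, ht0, hW0, hA0, hmax⟩ := mxe (r := r)
      (fun q => B.wt (C.s q)) (fun q => (A.c (C.s q)).target) C.θ (fun q => L (C.s q))
      (fun q => (C.smooth q).continuous) C.nonneg C.compact C.sub κ hκ q1 z1 bs1 t1 hz1s hb1 ht1
      hW1 hA1
    have hz0t : z0 ∈ (A.c (C.s q0)).target := C.sub q0 hz0
    have hlw := lwb B L C R hR hRb κ hκ q0 z0 bs0 t0 hz0 hb0 ht0 hW0 hA0 hmax
    have hθ0 : 0 < C.θ q0 z0 := lt_of_lt_of_le hc0 hlw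
    have hg0 : 0 < gd (B.wt (C.s q0)) z0 bs0 := (mul_pos_iff_of_pos_left hθ0).1 hW0
    have hN := pd (L (C.s q0)) hz0t bs0 hg0 t0 ht0
    have hΘ : Bf (B.wt (C.s q0)) (lc t0 bs0) (lc t0 bs0) (lc t0 bs0) z0 ≠ 0 := by
      intro h0
      simp only [Af, h0, map_zero, zero_div] at hA0
      exact lt_irrefl _ hA0
    have hs := hrm (C.s q0) z0 hz0t ⟨_, hΘ⟩ bs0 hg0
    have hRHS : 0 < Af (B.wt (C.s q0)) z0 (lc t0 bs0) *
        (C.θ q0 z0 * gd (B.wt (C.s q0)) z0 bs0) ^ κ := mul_pos hA0 (Real.rpow_pos_of_pos hW0 κ)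
    have hev : ∀ᶠ y in 𝓝 z0, ∀ b : E n, 0 < (levi (B.wt (C.s q0)) y b b).re →
        Af (B.wt (C.s q0)) y b * (C.θ q0 y * gd (B.wt (C.s q0)) y bs0) ^ κ ≤
          Af (B.wt (C.s q0)) z0 (lc t0 bs0) *
            (C.θ q0 z0 * gd (B.wt (C.s q0)) z0 bs0) ^ κ := by
      have e1 : ∀ᶠ y in 𝓝 z0, y ∈ (A.c (C.s q0)).target := (L (C.s q0)).op.mem_nhds hz0t
      have e2 : ∀ᶠ y in 𝓝 z0, 0 < C.θ q0 y :=
        (C.smooth q0).continuous.continuousAt.eventually (lt_mem_nhds hθ0)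
      have e3 : ∀ᶠ y in 𝓝 z0, 0 < gd (B.wt (C.s q0)) y bs0 :=
        (((smooth_gd (L (C.s q0)) bs0).continuousOn.continuousAt
          ((L (C.s q0)).op.mem_nhds hz0t))).eventually (lt_mem_nhds hg0)
      filter_upwards [e1, e2, e3] with y hy1 hy2 hy3 b hb
      by_cases hBb : Bf (B.wt (C.s q0)) b b b y = 0
      · have : Af (B.wt (C.s q0)) y b = 0 := by
          simp only [Af, hBb, map_zero, zero_div]
        rw [this, zero_mul]
        exact hRHS.le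
      · obtain ⟨t, ht⟩ := hrm (C.s q0) y hy1 ⟨b, hBb⟩ bs0 hy3 b
        obtain ⟨k1, k2, k3⟩ := Af_ker (L (C.s q0)) hy1 ht
        have htne : t ≠ 0 := by
          intro ht0'
          rw [k2] at hb
          have : lc t bs0 = 0 := by
            unfold lc
            simp [ht0']
          rw [this] at hb
          have h00 : levi (B.wt (C.s q0)) y (0 : E n) 0 = 0 := d10_zero_vec _ _
          rw [h00] at hb
          simp at hb
        rw [k1]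
        refine hmax q0 y bs0 t ?_ hb0 htne (mul_pos hy2 hy3)
        apply subset_tsupport
        rw [Function.mem_support]
        exact hy2.ne'
    have hl := lcl (L (C.s q0)) hz0t (lc t0 bs0) bs0 (C.θ q0) (C.smooth q0) hθ0 κ hκ hN hΘ hg0 hs hev
    set N0 := (levi (B.wt (C.s q0)) z0 (lc t0 bs0) (lc t0 bs0)).re with hN0
    set Θ2 := Complex.normSq (Bf (B.wt (C.s q0)) (lc t0 bs0) (lc t0 bs0) (lc t0 bs0) z0) with hΘ2
    have hx := hC1 q0 z0 hz0 (lc t0 bs0)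
    have ht := hC2 q0 z0 (XX (B.wt (C.s q0)) z0 (lc t0 bs0)) hlw
    set V := ‖XX (B.wt (C.s q0)) z0 (lc t0 bs0)‖ ^ 2 with hV
    have hV0 : 0 ≤ V := by positivity
    have s1 : C2f q0 * V ≤ C2 * (C1 * N0) := by
      have u1 : V ≤ C1 * N0 := hx.trans (mul_le_mul_of_nonneg_right (hC1q q0) hN.le)
      exact mul_le_mul (hC2q q0) u1 hV0 hC2n
    have s2 : 3 * (Θ2 / N0 ^ 2) ≤ κ * (C2 * (C1 * N0)) := by
      refine hl.trans ?_
      have u2 : -(levi (fun y => Real.log (C.θ q0 y)) z0 (XX (B.wt (C.s q0)) z0 (lc t0 bs0))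
          (XX (B.wt (C.s q0)) z0 (lc t0 bs0))).re ≤ C2 * (C1 * N0) := by linarith
      rw [← mul_neg]
      exact mul_le_mul_of_nonneg_left u2 hκ.le
    have hAf0 : Af (B.wt (C.s q0)) z0 (lc t0 bs0) ≤ κ * C1 * C2 / 3 := by
      have e : Af (B.wt (C.s q0)) z0 (lc t0 bs0) = Θ2 / N0 ^ 2 / N0 := by
        rw [div_div, ← pow_succ]
        rfl
      rw [e, div_le_iff₀ hN]
      nlinarith [s2]
    have hm1 := hmax q1 z1 bs1 t1 hz1s hb1 ht1 hW1
    have hW0G : C.θ q0 z0 * gd (B.wt (C.s q0)) z0 bs0 ≤ G := hG q0 z0 bs0 hz0 hb0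
    have hGκ : (C.θ q0 z0 * gd (B.wt (C.s q0)) z0 bs0) ^ κ ≤ G := by
      calc (C.θ q0 z0 * gd (B.wt (C.s q0)) z0 bs0) ^ κ ≤ G ^ κ :=
            Real.rpow_le_rpow hW0.le hW0G hκ.le
        _ ≤ G ^ (1 : ℝ) := Real.rpow_le_rpow_of_exponent_le hG1 hκ1
        _ = G := Real.rpow_one G
    have hW1κ : min W1 1 ≤ W1 ^ κ := by
      by_cases h1 : 1 ≤ W1
      · exact (min_le_right _ _).trans (Real.one_le_rpow h1 hκ.le)
      · push Not at h1
        calc min W1 1 ≤ W1 := min_le_left _ _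
          _ = W1 ^ (1 : ℝ) := (Real.rpow_one W1).symm
          _ ≤ W1 ^ κ := Real.rpow_le_rpow_of_exponent_ge hW1 h1.le hκ1
    calc A1 * min W1 1 ≤ A1 * W1 ^ κ := mul_le_mul_of_nonneg_left hW1κ hA1.le
      _ ≤ Af (B.wt (C.s q0)) z0 (lc t0 bs0) * (C.θ q0 z0 * gd (B.wt (C.s q0)) z0 bs0) ^ κ := hm1
      _ ≤ κ * C1 * C2 / 3 * G := mul_le_mul hAf0 hGκ (Real.rpow_nonneg hW0.le κ) (by positivity)
  have hpos : 0 < A1 * min W1 1 := mul_pos hA1 (lt_min hW1 one_pos)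
  set Y := C1 * C2 / 3 * G with hY
  have hY0 : 0 ≤ Y := by positivity
  have h1 := main (min 1 (A1 * min W1 1 / (2 * (Y + 1)))) (lt_min one_pos (by positivity))
    (min_le_left _ _)
  have h2 : min 1 (A1 * min W1 1 / (2 * (Y + 1))) * C1 * C2 / 3 * G =
      min 1 (A1 * min W1 1 / (2 * (Y + 1))) * Y := by
    rw [hY]
    ring
  rw [h2] at h1
  have h3 : min 1 (A1 * min W1 1 / (2 * (Y + 1))) * Y ≤ A1 * min W1 1 / (2 * (Y + 1)) * Y :=
    mul_le_mul_of_nonneg_right (min_le_right _ _) hY0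
  have h4 : A1 * min W1 1 / (2 * (Y + 1)) * Y < A1 * min W1 1 := by
    rw [div_mul_eq_mul_div, div_lt_iff₀ (by positivity)]
    nlinarith
  linarith

end Pool.Agent.SKF
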