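import Pool.Agent.SKF.Knl

/-!
Frm (size 5): holomorphic frames of the kernel.
`frm`: assume `Bf w b c d y = 0` for all `y ∈ U`. Let `F(y) = LM w y` (matrix, rows `k`); at `z0` its rank is
`2n - n = n`. Choose a complex subspace `K0 = kerL w z0` and a complement `M` of `K0` with bases
`m_1..m_n` of `M`, `f_1..f_n` of `K0`; the Gram matrix `P(y) = (levi w y m_i m_j)` is invertible at `z0`
(`gps_pd` type argument: `M ∩ K0 = 0`), hence on an open neighbourhood `V ⊆ U`. Put
`a_k(y) = f_k - ∑_i t_ki(y) m_i` where `t_k(y)` solves `∑_i t_ki levi w y m_i m_j = levi w y f_k m_j` for all `j`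
(`t = (levi f_k m_j)_kj P(y)⁻¹`), a smooth function of `y`, `t_k(z0) = 0`.
The rank of `LM w y` is `≤ n` everywhere on `U` (isotropy: the range of `b ↦ XX w y b` is contained in the
kernel) and `≥ n` on `V` (`P(y)` invertible), so it is `n` on `V`; since `levi w y (a_k(y)) m_j = 0` for all `j` and
`E n = M ⊕ kerL w y`, `a_k(y) ∈ kerL w y` (write `c = m + κ`, `levi (a_k) c = levi (a_k) m + levi (a_k) κ = 0`).
The `a_k(y)` are linearly independent (components `f_k`), so they form a basis of `kerL w y` (dimension `n`).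
Holomorphic: for `c` constant, `0 = levi w y (a_k(y)) c`; apply `∂̄_d`: with `∂̄_d a_k = - ∑ (∂̄_d t_ki) m_i =: q`
in `M`, `levi w y q c + third w y (a_k(y)) c d = 0`, and `third w y (a_k(y)) c d = 0` because
`a_k(y) = XX w y b` for some `b` (`knl`) and `Bf_eq`. So `q ∈ M ∩ kerL w y = 0`, i.e. `∂̄_d t_ki = 0` on `V`:
`t_ki` is complex differentiable (`diff_of_pb` of DTW.Comm).
-/

open scoped ContDiff ComplexConjugate Topology
open Complex

namespace Pool.Agent.SKF

open Pool.Agent.DTW

variable {n : ℕ} {U : Set (E n)} {w : E n → ℝ}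

private theorem frm_det {m : ℕ} {A : E n → Matrix (Fin m) (Fin m) ℂ} {V : Set (E n)}
    (h : ∀ i j, ContDiffOn ℝ ∞ (fun y => A y i j) V) : ContDiffOn ℝ ∞ (fun y => (A y).det) V := by
  simp only [Matrix.det_apply']
  refine ContDiffOn.sum fun σ _ => ?_
  exact contDiffOn_const.mul (contDiffOn_prod fun i _ => h (σ i) i)

private theorem frm_adj {m : ℕ} {A : E n → Matrix (Fin m) (Fin m) ℂ} {V : Set (E n)}
    (h : ∀ i j, ContDiffOn ℝ ∞ (fun y => A y i j) V) (p q : Fin m) :
    ContDiffOn ℝ ∞ (fun y => (A y).adjugate p q) V := by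
  simp only [Matrix.adjugate_apply]
  refine frm_det fun i j => ?_
  by_cases hi : i = q
  · subst hi
    simp only [Matrix.updateRow_self]
    exact contDiffOn_const
  · simp only [Matrix.updateRow_ne hi]
    exact h i j

/-- the Levi form is linear in the first argument -/
private noncomputable def frm_L (w : E n → ℝ) (z b : E n) : E n →ₗ[ℂ] ℂ where
  toFun a := levi w z a b
  map_add' _ _ := d10_add_vec _ _ _ _
  map_smul' _ _ := d10_smul_vec _ _ _ _

private theorem frm_sum (w : E n → ℝ) (z b : E n) {m : ℕ} (c : Fin m → ℂ) (g : Fin m → E n) :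
    levi w z (∑ i, c i • g i) b = ∑ i, c i * levi w z (g i) b := by
  have h := map_sum (frm_L w z b) (fun i => c i • g i) Finset.univ
  simp only [map_smul, smul_eq_mul] at h
  exact h

private theorem frm_sub (w : E n → ℝ) (z b a a' : E n) :
    levi w z (a - a') b = levi w z a b - levi w z a' b :=
  map_sub (frm_L w z b) a a'

theorem frm (L : Loc w U) (hB : ∀ y ∈ U, ∀ b c d, Bf w b c d y = 0) {z0 : E n} (hz : z0 ∈ U)
    (hr : Module.finrank ℂ (kerL w z0) = n) :
    ∃ V : Set (E n), IsOpen V ∧ z0 ∈ V ∧ V ⊆ U ∧ ∃ a : Fin n → E n → E n,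
      (∀ k, DifferentiableOn ℂ (a k) V) ∧ ∀ y ∈ V, LinearIndependent ℂ (fun k => a k y) ∧
        Submodule.span ℂ (Set.range fun k => a k y) = kerL w y ∧
        Module.finrank ℂ (kerL w y) = n := by
  obtain ⟨M, hM⟩ := Submodule.exists_isCompl (kerL w z0)
  have hE : Module.finrank ℂ (E n) = n + n := by simp
  have hMr : Module.finrank ℂ M = n := by
    have := Submodule.finrank_add_eq_of_isCompl hM
    omega
  let fb := Module.finBasisOfFinrankEq ℂ (kerL w z0) hr
  let mb := Module.finBasisOfFinrankEq ℂ M hMr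
  let f : Fin n → E n := fun k => (fb k : E n)
  let m : Fin n → E n := fun k => (mb k : E n)
  have hfK : ∀ k, f k ∈ kerL w z0 := fun k => (fb k).2
  have hmM : ∀ k, m k ∈ M := fun k => (mb k).2
  have hrep : ∀ x ∈ M, ∃ c : Fin n → ℂ, x = ∑ i, c i • m i := by
    intro x hx
    refine ⟨fun i => mb.repr ⟨x, hx⟩ i, ?_⟩
    have h := congrArg (fun u : M => (u : E n)) (mb.sum_repr ⟨x, hx⟩)
    simp only [Submodule.coe_sum, Submodule.coe_smul] at h
    exact h.symm
  have hmli : LinearIndependent ℂ m :=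
    mb.linearIndependent.map' M.subtype (Submodule.ker_subtype M)
  have hfli : LinearIndependent ℂ f :=
    fb.linearIndependent.map' (kerL w z0).subtype (Submodule.ker_subtype _)
  -- second argument
  have hB2 : ∀ y ∈ U, ∀ x : E n, (∀ j, levi w y x (m j) = 0) → ∀ μ ∈ M, levi w y x μ = 0 := by
    intro y hy x hx μ hμ
    obtain ⟨c, rfl⟩ := hrep μ hμ
    rw [← levi_conj L hy, frm_sum]
    have : ∑ i, c i * levi w y (m i) x = 0 := by
      refine Finset.sum_eq_zero fun i _ => ?_
      rw [← levi_conj L hy, hx i, map_zero, mul_zero]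
    rw [this, map_zero]
  have hC2 : ∀ y ∈ U, ∀ x : E n, ∀ κ ∈ kerL w y, levi w y x κ = 0 := by
    intro y hy x κ hκ
    rw [← levi_conj L hy, mem_kerL.1 hκ x, map_zero]
  have hD2 : ∀ y ∈ U, M ⊔ kerL w y = ⊤ → ∀ x : E n, (∀ j, levi w y x (m j) = 0) →
      x ∈ kerL w y := by
    intro y hy htop x hx
    rw [mem_kerL]
    intro c
    have hc : c ∈ M ⊔ kerL w y := by rw [htop]; trivial
    obtain ⟨μ, hμ, κ, hκ, rfl⟩ := Submodule.mem_sup.1 hc
    rw [levi_add_right L hy, hB2 y hy x hx μ hμ, hC2 y hy x κ hκ, add_zero]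
  let P : E n → Matrix (Fin n) (Fin n) ℂ := fun y => Matrix.of fun i j => levi w y (m i) (m j)
  have hPs : ∀ i j, ContDiffOn ℝ ∞ (fun y => P y i j) U := fun i j => smooth_Lf L (m i) (m j)
  have hdet : ContDiffOn ℝ ∞ (fun y => (P y).det) U := frm_det hPs
  have hP0 : (P z0).det ≠ 0 := by
    intro h0
    obtain ⟨v, hv0, hv⟩ := Matrix.exists_vecMul_eq_zero_iff.2 h0
    apply hv0
    have hx : ∑ i, v i • m i ∈ kerL w z0 := by
      refine hD2 z0 hz ?_ _ fun j => ?_
      · rw [sup_comm]; exact hM.sup_eq_top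
      · rw [frm_sum]
        exact congrFun hv j
    have hxM : ∑ i, v i • m i ∈ M := M.sum_mem fun i _ => M.smul_mem _ (hmM i)
    have hx0 : ∑ i, v i • m i = 0 := by
      have := hM.disjoint
      rw [Submodule.disjoint_def] at this
      exact this _ hx hxM
    funext i
    exact (Fintype.linearIndependent_iff.1 hmli) v hx0 i
  let V : Set (E n) := U ∩ (fun y => (P y).det) ⁻¹' {0}ᶜ
  have hVo : IsOpen V := hdet.continuousOn.isOpen_inter_preimage L.op isOpen_compl_singleton
  have hVU : V ⊆ U := Set.inter_subset_left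
  have hV0 : ∀ y ∈ V, (P y).det ≠ 0 := fun y hy => hy.2
  let t : E n → Fin n → Fin n → ℂ := fun y k i =>
    (∑ j, levi w y (f k) (m j) * (P y).adjugate j i) / (P y).det
  have hts : ∀ k i, ContDiffOn ℝ ∞ (fun y => t y k i) V := by
    intro k i
    simp only [t, div_eq_mul_inv]
    refine ContDiffOn.mul ?_ ((hdet.mono hVU).inv hV0)
    refine ContDiffOn.sum fun j _ => ?_
    exact ((smooth_Lf L (f k) (m j)).mono hVU).mul ((frm_adj hPs j i).mono hVU)
  have htP : ∀ y ∈ V, ∀ k j, ∑ i, t y k i * levi w y (m i) (m j) = levi w y (f k) (m j) := by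
    intro y hy k j
    have h1 : (fun i => t y k i) =
        ((P y).det)⁻¹ • Matrix.vecMul (fun j => levi w y (f k) (m j)) (P y).adjugate := by
      funext i
      simp only [t, Pi.smul_apply, Matrix.vecMul, dotProduct, smul_eq_mul]
      rw [div_eq_inv_mul]
    have h2 : Matrix.vecMul (fun i => t y k i) (P y) = fun j => levi w y (f k) (m j) := by
      rw [h1, Matrix.smul_vecMul, Matrix.vecMul_vecMul, Matrix.adjugate_mul, Matrix.vecMul_smul,
        Matrix.vecMul_one, smul_smul, inv_mul_cancel₀ (hV0 y hy), one_smul]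
    exact congrFun h2 j
  let a : Fin n → E n → E n := fun k y => f k - ∑ i, t y k i • m i
  -- disjointness on `V`
  have hdis : ∀ y ∈ V, Disjoint M (kerL w y) := by
    intro y hy
    rw [Submodule.disjoint_def]
    intro x hxM hxK
    obtain ⟨c, rfl⟩ := hrep x hxM
    have h1 : Matrix.vecMul c (P y) = 0 := by
      funext j
      have h2 := mem_kerL.1 hxK (m j)
      rw [frm_sum] at h2
      exact h2
    have h3 := Matrix.eq_zero_of_vecMul_eq_zero (hV0 y hy) h1
    rw [h3]
    simp
  have hfr : ∀ y ∈ V, Module.finrank ℂ (kerL w y) = n := by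
    intro y hy
    have h1 := knl_ge L (hVU hy)
    have h2 := Submodule.finrank_add_finrank_le_of_disjoint (hdis y hy)
    omega
  have htop : ∀ y ∈ V, M ⊔ kerL w y = ⊤ := by
    intro y hy
    refine Submodule.eq_top_of_disjoint _ _ ?_ (hdis y hy)
    rw [hfr y hy, hMr, hE]
  have hak : ∀ y ∈ V, ∀ k, a k y ∈ kerL w y := by
    intro y hy k
    refine hD2 y (hVU hy) (htop y hy) _ fun j => ?_
    rw [frm_sub, frm_sum, htP y hy k j, sub_self]
  have hali : ∀ y, LinearIndependent ℂ (fun k => a k y) := by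
    intro y
    rw [Fintype.linearIndependent_iff]
    intro c hc
    have h1 : ∑ k, c k • f k = ∑ k, c k • ∑ i, t y k i • m i := by
      have h2 : ∑ k, c k • a k y = ∑ k, c k • f k - ∑ k, c k • ∑ i, t y k i • m i := by
        rw [← Finset.sum_sub_distrib]
        exact Finset.sum_congr rfl fun k _ => smul_sub _ _ _
      rw [h2] at hc
      exact sub_eq_zero.1 hc
    have h3 : ∑ k, c k • f k ∈ M := by
      rw [h1]
      exact M.sum_mem fun k _ => M.smul_mem _ (M.sum_mem fun i _ => M.smul_mem _ (hmM i))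
    have h4 : ∑ k, c k • f k ∈ kerL w z0 :=
      (kerL w z0).sum_mem fun k _ => (kerL w z0).smul_mem _ (hfK k)
    have h5 : ∑ k, c k • f k = 0 := by
      have := hM.disjoint
      rw [Submodule.disjoint_def] at this
      exact this _ h4 h3
    exact (Fintype.linearIndependent_iff.1 hfli) c h5
  -- holomorphy
  have hhol : ∀ y ∈ V, ∀ k i, DifferentiableAt ℂ (fun y => t y k i) y := by
    intro y0 hy0 k i
    have hdt : ∀ i, DifferentiableAt ℝ (fun y => t y k i) y0 := fun i =>
      diffAt_of hVo (hts k i) hy0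
    refine diff_of_pb (hdt i) fun l => ?_
    have hdL : ∀ b c, DifferentiableAt ℝ (Lf w b c) y0 := fun b c =>
      diffAt_of L.op (smooth_Lf L b c) (hVU hy0)
    -- the derivative of the kernel equation
    have hkey : ∀ c, ∑ i, d01 (fun y => t y k i) y0 (e l) * levi w y0 (m i) c = 0 := by
      intro c
      have h0 : third w y0 (a k y0) c (e l) = 0 := by
        obtain ⟨b, hb⟩ := knl L (hVU hy0) (hfr y0 hy0) (hak y0 hy0 k)
        rw [hb, ← Bf_eq L (hVU hy0), hB y0 (hVU hy0)]
      have h1 : (fun y => levi w y (a k y0) c) =ᶠ[𝓝 y0]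
          fun y => ∑ i, (t y k i - t y0 k i) * levi w y (m i) c := by
        filter_upwards [hVo.mem_nhds hy0] with y hy
        have h2 := mem_kerL.1 (hak y hy k) c
        simp only [a] at h2 ⊢
        rw [frm_sub, frm_sum] at h2 ⊢
        rw [sub_eq_zero.1 h2, ← Finset.sum_sub_distrib]
        exact Finset.sum_congr rfl fun i _ => by ring
      unfold third at h0
      rw [d01_congr h1, d01_sum] at h0
      · rw [← h0]
        refine Finset.sum_congr rfl fun i _ => ?_
        have hs : DifferentiableAt ℝ (fun y => t y k i - t y0 k i) y0 :=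
          (hdt i).sub (differentiableAt_const _)
        have h6 : d01 (fun y => (t y k i - t y0 k i) * levi w y (m i) c) y0 (e l) = _ :=
          d01_mul hs (hdL (m i) c)
        rw [h6]
        have h3 : d01 (fun y => t y k i - t y0 k i) y0 (e l) = d01 (fun y => t y k i) y0 (e l) := by
          have h4 := d01_add (a := e l) (hdt i) (differentiableAt_const (-(t y0 k i)))
          rw [d01_const, add_zero] at h4
          rw [← h4]
          congr 1
        rw [h3, sub_self, zero_mul, add_zero]
      · intro i _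
        exact ((hdt i).sub (differentiableAt_const _)).mul (hdL (m i) c)
    have h5 : Matrix.vecMul (fun i => d01 (fun y => t y k i) y0 (e l)) (P y0) = 0 := by
      funext j
      exact hkey (m j)
    exact congrFun (Matrix.eq_zero_of_vecMul_eq_zero (hV0 y0 hy0) h5) i
  refine ⟨V, hVo, ⟨hz, hP0⟩, hVU, a, ?_, ?_⟩
  · intro k y hy
    have h : DifferentiableAt ℂ (a k) y := by
      refine (differentiableAt_const _).sub ?_
      refine DifferentiableAt.fun_sum fun i _ => ?_
      exact (hhol y hy k i).smul_const _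
    exact h.differentiableWithinAt
  · intro y hy
    refine ⟨hali y, ?_, hfr y hy⟩
    refine Submodule.eq_of_le_of_finrank_eq ?_ ?_
    · rw [Submodule.span_le]
      rintro _ ⟨k, rfl⟩
      exact hak y hy k
    · rw [finrank_span_eq_card (hali y), hfr y hy, Fintype.card_fin]

end Pool.Agent.SKF
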