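import Pool.Agent.SKF.LvA

/-!
Ivl (size 3): the kernel is involutive. For a constant vector `c` and `y ∈ V`:
`levi w y (a y) c = ∑_k a_k(y) levi w y (e k) c = 0`. Apply `d10 . y (a' y)` (constant direction `a' y`):
`levi w y (fderiv ℂ a y (a' y)) c + ∑_k a_k(y) d10 (Lf w (e k) c) y (a' y) = 0` (`a` is complex
differentiable, `d10_of_diff`), and the last sum is `∑_kl a_k a'_l d10 (Lf w (e k) c) y (e l)`, symmetric in
the two fields by `d10_Lf_symm`. Subtract the same identity with `a`, `a'` exchanged.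
(`levi w y . c` is linear: `d10_add_vec`, `d10_smul_vec`.)
-/

open scoped ContDiff ComplexConjugate Topology
open Complex

namespace Pool.Agent.SKF

open Pool.Agent.DTW

variable {n : ℕ} {U : Set (E n)} {w : E n → ℝ}

private theorem ivl_one (L : Loc w U) {V : Set (E n)} (hV : IsOpen V) (hVU : V ⊆ U)
    (a : E n → E n) (ha : DifferentiableOn ℂ a V) (hk : ∀ y ∈ V, a y ∈ kerL w y) {y : E n}
    (hy : y ∈ V) (v c : E n) :
    levi w y (fderiv ℂ a y v) c + d10 (Lf w v c) y (a y) = 0 := by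
  have hyU : y ∈ U := hVU hy
  have haC : DifferentiableAt ℂ a y := (ha y hy).differentiableAt (hV.mem_nhds hy)
  have haCk : ∀ k, DifferentiableAt ℂ (fun x => a x k) y := fun k =>
    (differentiableAt_pi.mp haC) k
  have haRk : ∀ k, DifferentiableAt ℝ (fun x => a x k) y := fun k =>
    (haCk k).restrictScalars ℝ
  have hLk : ∀ k, DifferentiableAt ℝ (Lf w (e k) c) y := fun k =>
    ((smooth_Lf L (e k) c).contDiffAt (L.op.mem_nhds hyU)).differentiableAt (by simp)
  have hz : (fun x => ∑ k : Ix n, a x k * Lf w (e k) c x) =ᶠ[𝓝 y] fun _ => (0 : ℂ) := by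
    filter_upwards [hV.mem_nhds hy] with x hx
    have h1 : levi w x (a x) c = 0 := hk x hx c
    have h2 : levi w x (a x) c = ∑ k : Ix n, a x k * levi w x (e k) c :=
      d10_eq_sum (ub w c) x (a x)
    rw [← h1, h2]
    rfl
  have h0 : d10 (fun x => ∑ k : Ix n, a x k * Lf w (e k) c x) y v = 0 := by
    rw [d10_congr hz, d10_const]
  have h3 := d10_sum (z := y) (a := v) Finset.univ (fun (k : Ix n) x => a x k * Lf w (e k) c x)
    (fun k _ => (haRk k).mul (hLk k))
  rw [h3] at h0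
  have h4 : ∀ k : Ix n, d10 (fun x => a x k * Lf w (e k) c x) y v =
      (fderiv ℂ a y v) k * levi w y (e k) c + a y k * d10 (Lf w v c) y (e k) := by
    intro k
    rw [d10_mul (haRk k) (hLk k), d10_of_diff (haCk k), d10_Lf_symm L hyU (e k) v c]
    have h5 : fderiv ℂ (fun x => a x k) y v = (fderiv ℂ a y v) k := by
      have h6 := fderiv_apply haC k
      rw [h6]
      rfl
    rw [h5]
    show _ = (fderiv ℂ a y v) k * Lf w (e k) c y + a y k * d10 (Lf w v c) y (e k)
    ring
  rw [Finset.sum_congr rfl fun k _ => h4 k, Finset.sum_add_distrib] at h0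
  have h7 : levi w y (fderiv ℂ a y v) c = ∑ k : Ix n, (fderiv ℂ a y v) k * levi w y (e k) c :=
    d10_eq_sum (ub w c) y (fderiv ℂ a y v)
  have h8 : d10 (Lf w v c) y (a y) = ∑ k : Ix n, a y k * d10 (Lf w v c) y (e k) :=
    d10_eq_sum (Lf w v c) y (a y)
  rw [h7, h8]
  exact h0

theorem ivl (L : Loc w U) {V : Set (E n)} (hV : IsOpen V) (hVU : V ⊆ U) (a a' : E n → E n)
    (ha : DifferentiableOn ℂ a V) (ha' : DifferentiableOn ℂ a' V)
    (hk : ∀ y ∈ V, a y ∈ kerL w y) (hk' : ∀ y ∈ V, a' y ∈ kerL w y) {y : E n} (hy : y ∈ V) :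
    fderiv ℂ a y (a' y) - fderiv ℂ a' y (a y) ∈ kerL w y := by
  have hyU : y ∈ U := hVU hy
  intro c
  have h1 := ivl_one L hV hVU a ha hk hy (a' y) c
  have h2 := ivl_one L hV hVU a' ha' hk' hy (a y) c
  have h3 := d10_Lf_symm L hyU (a y) (a' y) c
  have h4 : fderiv ℂ a y (a' y) - fderiv ℂ a' y (a y) =
      fderiv ℂ a y (a' y) + (-1 : ℂ) • fderiv ℂ a' y (a y) := by
    rw [neg_one_smul, sub_eq_add_neg]
  rw [h4, levi_add_left L hyU, levi_smul_left L hyU]
  linear_combination h1 - h2 + h3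

end Pool.Agent.SKF
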