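import Pool.Agent.SKF.Jpr
import Pool.Agent.SKF.JetA

/-!
Jn (size 4): the function `N(y) = F_y(b(y), b(y)̄)`, `b(y) = bb z v b β δ y`, `v = XX w z b`.
Proof. `N(y) = ∑_k ∑_l b_k(y) conj (b_l(y)) LM w y k l` (`levi_eq_sum`). By `mx_mul`, `jet_bb`,
`jet_bbc` (the jets `(value, d10, d01, mx)` of `b_k` are `(b_k, β_k, 0, δ_k)`, of `conj b_l` they are
`(b̄_l, 0, β̄_l, δ̄_l)`):
`d10 N z v = F(β,b̄) + d10 (Lf w b b) z v = 0` (`IsBet` with `l = b`),
`d01 N z v = F(b,β̄) + d01 (Lf w b b) z v = 0` (the conjugate),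
`mx N z v = F(δ,b̄) + F(b,δ̄) + F(β,β̄) + d01 (Lf w β b) z v + d10 (Lf w b β) z v + mx (Lf w b b) z v`.
Here `d10 (Lf w b β) z v = - F(β,β̄)` (`IsBet`), `d01 (Lf w β b) z v` is its conjugate `- F(β,β̄)`,
`mx (Lf w b b) z v = F(β,β̄) + F(γ,γ̄)` (`jetA` with `a = a' = b`),
`F(b,δ̄) = - mx (Lf w b b) z v - d10 (Lf w b β) z v = - F(γ,γ̄)` (`IsDel`) and `F(δ,b̄)` its conjugate.
Sum: `- 2 F(γ,γ̄) + F(β,β̄) - 2 F(β,β̄) + F(β,β̄) + F(γ,γ̄) = - F(γ,γ̄)`.
-/

open scoped ContDiff ComplexConjugate Topology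
open Complex

namespace Pool.Agent.SKF

open Pool.Agent.DTW

variable {n : ℕ} {U : Set (E n)} {w : E n → ℝ} {z : E n}

private theorem Jn_smLM (L : Loc w U) (k l : Ix n) : ContDiffOn ℝ ∞ (fun y => LM w y k l) U :=
  contDiffOn_pk L.op (contDiffOn_pb L.op (contDiffOn_cx L.sm) l) k

private theorem Jn_levi (L : Loc w U) {y : E n} (hy : y ∈ U) (a b : E n) :
    levi w y a b = ∑ k, ∑ l, a k * conj (b l) * LM w y k l :=
  levi_eq_sum (L.sm.contDiffAt (L.op.mem_nhds hy)) a b

private theorem Jn_d10_term {f g h : E n → ℂ} (hU : IsOpen U) (hf : ContDiffOn ℝ ∞ f U)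
    (hg : ContDiffOn ℝ ∞ g U) (hh : ContDiffOn ℝ ∞ h U) (hz : z ∈ U) (v : E n) :
    d10 (fun y => f y * g y * h y) z v =
      d10 f z v * g z * h z + f z * d10 g z v * h z + f z * g z * d10 h z v := by
  have hf' := diffAt_of hU hf hz
  have hg' := diffAt_of hU hg hz
  have hh' := diffAt_of hU hh hz
  rw [d10_mul (f := fun y => f y * g y) (hf'.mul hg') hh', d10_mul hf' hg']
  ring

private theorem Jn_d01_term {f g h : E n → ℂ} (hU : IsOpen U) (hf : ContDiffOn ℝ ∞ f U)
    (hg : ContDiffOn ℝ ∞ g U) (hh : ContDiffOn ℝ ∞ h U) (hz : z ∈ U) (v : E n) :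
    d01 (fun y => f y * g y * h y) z v =
      d01 f z v * g z * h z + f z * d01 g z v * h z + f z * g z * d01 h z v := by
  have hf' := diffAt_of hU hf hz
  have hg' := diffAt_of hU hg hz
  have hh' := diffAt_of hU hh hz
  rw [d01_mul (f := fun y => f y * g y) (hf'.mul hg') hh', d01_mul hf' hg']
  ring

private theorem Jn_mx_term {f g h : E n → ℂ} (hU : IsOpen U) (hf : ContDiffOn ℝ ∞ f U)
    (hg : ContDiffOn ℝ ∞ g U) (hh : ContDiffOn ℝ ∞ h U) (hz : z ∈ U) (v : E n) :
    mx (fun y => f y * g y * h y) z v =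
      mx f z v * g z * h z + f z * mx g z v * h z + f z * g z * mx h z v
      + (d10 f z v * d01 g z v + d01 f z v * d10 g z v) * h z
      + (d10 f z v * d01 h z v + d01 f z v * d10 h z v) * g z
      + f z * (d10 g z v * d01 h z v + d01 g z v * d10 h z v) := by
  have hf' := diffAt_of hU hf hz
  have hg' := diffAt_of hU hg hz
  rw [mx_mul (f := fun y => f y * g y) hU (hf.mul hg) hh hz, mx_mul hU hf hg hz, d10_mul hf' hg',
    d01_mul hf' hg']
  ring

/-- the sums -/
private theorem Jn_sums (L : Loc w U) (hz : z ∈ U) (v : E n) (P Q : Ix n → E n → ℂ)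
    (hP : ∀ k, ContDiffOn ℝ ∞ (P k) U) (hQ : ∀ k, ContDiffOn ℝ ∞ (Q k) U) :
    ContDiffOn ℝ ∞ (fun y => ∑ k, ∑ l, P k y * Q l y * LM w y k l) U ∧
    d10 (fun y => ∑ k, ∑ l, P k y * Q l y * LM w y k l) z v =
      ∑ k, ∑ l, (d10 (P k) z v * Q l z * LM w z k l + P k z * d10 (Q l) z v * LM w z k l
        + P k z * Q l z * d10 (fun y => LM w y k l) z v) ∧
    d01 (fun y => ∑ k, ∑ l, P k y * Q l y * LM w y k l) z v =
      ∑ k, ∑ l, (d01 (P k) z v * Q l z * LM w z k l + P k z * d01 (Q l) z v * LM w z k l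
        + P k z * Q l z * d01 (fun y => LM w y k l) z v) ∧
    mx (fun y => ∑ k, ∑ l, P k y * Q l y * LM w y k l) z v =
      ∑ k, ∑ l, (mx (P k) z v * Q l z * LM w z k l + P k z * mx (Q l) z v * LM w z k l
        + P k z * Q l z * mx (fun y => LM w y k l) z v
      + (d10 (P k) z v * d01 (Q l) z v + d01 (P k) z v * d10 (Q l) z v) * LM w z k l
      + (d10 (P k) z v * d01 (fun y => LM w y k l) z v
          + d01 (P k) z v * d10 (fun y => LM w y k l) z v) * Q l z
      + P k z * (d10 (Q l) z v * d01 (fun y => LM w y k l) z v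
          + d01 (Q l) z v * d10 (fun y => LM w y k l) z v)) := by
  have hU := L.op
  have hs : ∀ k l, ContDiffOn ℝ ∞ (fun y => P k y * Q l y * LM w y k l) U := fun k l =>
    ((hP k).mul (hQ l)).mul (Jn_smLM L k l)
  have hs2 : ∀ k, ContDiffOn ℝ ∞ (fun y => ∑ l, P k y * Q l y * LM w y k l) U := fun k =>
    ContDiffOn.sum (fun l _ => hs k l)
  refine ⟨ContDiffOn.sum (fun k _ => hs2 k), ?_, ?_, ?_⟩
  · rw [d10_sum Finset.univ (fun k y => ∑ l, P k y * Q l y * LM w y k l)
      (fun k _ => diffAt_of hU (hs2 k) hz)]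
    refine Finset.sum_congr rfl (fun k _ => ?_)
    rw [d10_sum Finset.univ (fun l y => P k y * Q l y * LM w y k l)
      (fun l _ => diffAt_of hU (hs k l) hz)]
    refine Finset.sum_congr rfl (fun l _ => ?_)
    exact Jn_d10_term hU (hP k) (hQ l) (Jn_smLM L k l) hz v
  · rw [d01_sum Finset.univ (fun k y => ∑ l, P k y * Q l y * LM w y k l)
      (fun k _ => diffAt_of hU (hs2 k) hz)]
    refine Finset.sum_congr rfl (fun k _ => ?_)
    rw [d01_sum Finset.univ (fun l y => P k y * Q l y * LM w y k l)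
      (fun l _ => diffAt_of hU (hs k l) hz)]
    refine Finset.sum_congr rfl (fun l _ => ?_)
    exact Jn_d01_term hU (hP k) (hQ l) (Jn_smLM L k l) hz v
  · rw [mx_sum Finset.univ (fun k y => ∑ l, P k y * Q l y * LM w y k l) hU
      (fun k _ => hs2 k) hz]
    refine Finset.sum_congr rfl (fun k _ => ?_)
    rw [mx_sum Finset.univ (fun l y => P k y * Q l y * LM w y k l) hU
      (fun l _ => hs k l) hz]
    refine Finset.sum_congr rfl (fun l _ => ?_)
    exact Jn_mx_term hU (hP k) (hQ l) (Jn_smLM L k l) hz v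

/-- the Levi form with constant vectors -/
private theorem Jn_const (L : Loc w U) (hz : z ∈ U) (v a b : E n) :
    d10 (Lf w a b) z v = ∑ k, ∑ l, a k * conj (b l) * d10 (fun y => LM w y k l) z v ∧
    d01 (Lf w a b) z v = ∑ k, ∑ l, a k * conj (b l) * d01 (fun y => LM w y k l) z v ∧
    mx (Lf w a b) z v = ∑ k, ∑ l, a k * conj (b l) * mx (fun y => LM w y k l) z v := by
  have he : Lf w a b =ᶠ[𝓝 z] fun y => ∑ k, ∑ l, a k * conj (b l) * LM w y k l := by
    filter_upwards [L.op.mem_nhds hz] with y hy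
    exact Jn_levi L hy a b
  obtain ⟨-, h1, h2, h3⟩ := Jn_sums L hz v (fun k _ => a k) (fun l _ => conj (b l))
    (fun k => contDiffOn_const) (fun l => contDiffOn_const)
  refine ⟨?_, ?_, ?_⟩
  · rw [d10_congr he, h1]
    refine Finset.sum_congr rfl (fun k _ => Finset.sum_congr rfl (fun l _ => ?_))
    rw [d10_const, d10_const]
    ring
  · rw [d01_congr he, h2]
    refine Finset.sum_congr rfl (fun k _ => Finset.sum_congr rfl (fun l _ => ?_))
    rw [d01_const, d01_const]
    ring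
  · rw [mx_congr he, h3]
    refine Finset.sum_congr rfl (fun k _ => Finset.sum_congr rfl (fun l _ => ?_))
    rw [d10_const, d10_const, d01_const, d01_const, mx_const, mx_const]
    ring

private theorem Jn_conj (L : Loc w U) (hz : z ∈ U) (v a b : E n) :
    d01 (Lf w a b) z v = conj (d10 (Lf w b a) z v) := by
  have hs : ContDiffOn ℝ ∞ (Lf w b a) U := by
    have h1 : ContDiffOn ℝ ∞ (fun y => ∑ k, ∑ l, b k * conj (a l) * LM w y k l) U :=
      ContDiffOn.sum (fun k _ => ContDiffOn.sum (fun l _ => contDiffOn_const.mul (Jn_smLM L k l)))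
    exact h1.congr (fun y hy => Jn_levi L hy b a)
  rw [← d01_conj (diffAt_of L.op hs hz)]
  apply d01_congr
  filter_upwards [L.op.mem_nhds hz] with y hy
  exact (levi_conj L hy b a).symm

theorem jn (L : Loc w U) (hz : z ∈ U) (b β γ δ : E n) (hv : XX w z b ≠ 0)
    (hβ : IsBet w z (XX w z b) b β) (hγ : IsGam w z (XX w z b) b γ)
    (hδ : IsDel w z (XX w z b) b β δ) :
    ContDiffOn ℝ ∞ (fun y => levi w y (bb z (XX w z b) b β δ y) (bb z (XX w z b) b β δ y)) U ∧
    d10 (fun y => levi w y (bb z (XX w z b) b β δ y) (bb z (XX w z b) b β δ y)) z (XX w z b) = 0 ∧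
    d01 (fun y => levi w y (bb z (XX w z b) b β δ y) (bb z (XX w z b) b β δ y)) z (XX w z b) = 0 ∧
    mx (fun y => levi w y (bb z (XX w z b) b β δ y) (bb z (XX w z b) b β δ y)) z (XX w z b)
      = -levi w z γ γ := by
  obtain ⟨v, hvd⟩ : ∃ v, v = XX w z b := ⟨_, rfl⟩
  rw [← hvd] at hv hβ hγ hδ ⊢
  have hA : mx (Lf w b b) z v = levi w z β β + levi w z γ γ := by
    rw [hvd] at hβ hγ ⊢
    exact jetA L hz b b b β β γ γ hβ hβ hγ hγ
  have hP : ∀ k, ContDiffOn ℝ ∞ (fun y => bb z v b β δ y k) U := fun k =>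
    (smooth_bb z v b β δ k).contDiffOn
  have hQ : ∀ k, ContDiffOn ℝ ∞ (fun y => conj (bb z v b β δ y k)) U := fun k =>
    (Complex.conjCLE : ℂ →L[ℝ] ℂ).contDiff.comp_contDiffOn (hP k)
  obtain ⟨h0, h1, h2, h3⟩ := Jn_sums L hz v (fun k y => bb z v b β δ y k)
    (fun k y => conj (bb z v b β δ y k)) hP hQ
  have he : ∀ y ∈ U, levi w y (bb z v b β δ y) (bb z v b β δ y)
      = ∑ k, ∑ l, bb z v b β δ y k * conj (bb z v b β δ y l) * LM w y k l := fun y hy =>
    Jn_levi L hy _ _
  have he' : (fun y => levi w y (bb z v b β δ y) (bb z v b β δ y)) =ᶠ[𝓝 z]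
      fun y => ∑ k, ∑ l, bb z v b β δ y k * conj (bb z v b β δ y l) * LM w y k l := by
    filter_upwards [L.op.mem_nhds hz] with y hy
    exact he y hy
  have jb := fun k => jet_bb (z := z) hv b β δ k
  have jc := fun k => jet_bbc (z := z) hv b β δ k
  have hbz : bb z v b β δ z = b := bb_self z v b β δ
  have hcon : ∀ a a' : E n, ∑ k, ∑ l, a k * conj (a' l) * LM w z k l = levi w z a a' := fun a a' =>
    (Jn_levi L hz a a').symm
  have k1 : d10 (Lf w b b) z v = -levi w z β b := by rw [hβ b, neg_neg]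
  have k2 : d10 (Lf w b β) z v = -levi w z β β := by rw [hβ β, neg_neg]
  refine ⟨h0.congr he, ?_, ?_, ?_⟩
  · rw [d10_congr he', h1]
    have e1 : ∑ k, ∑ l, (d10 (fun y => bb z v b β δ y k) z v * conj (bb z v b β δ z l) * LM w z k l
        + bb z v b β δ z k * d10 (fun y => conj (bb z v b β δ y l)) z v * LM w z k l
        + bb z v b β δ z k * conj (bb z v b β δ z l) * d10 (fun y => LM w y k l) z v)
        = levi w z β b + d10 (Lf w b b) z v := by
      rw [← hcon, (Jn_const L hz v b b).1, ← Finset.sum_add_distrib]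
      refine Finset.sum_congr rfl (fun k _ => ?_)
      rw [← Finset.sum_add_distrib]
      refine Finset.sum_congr rfl (fun l _ => ?_)
      rw [(jb k).1, (jc l).1, hbz]
      ring
    rw [e1, k1]
    ring
  · rw [d01_congr he', h2]
    have e1 : ∑ k, ∑ l, (d01 (fun y => bb z v b β δ y k) z v * conj (bb z v b β δ z l) * LM w z k l
        + bb z v b β δ z k * d01 (fun y => conj (bb z v b β δ y l)) z v * LM w z k l
        + bb z v b β δ z k * conj (bb z v b β δ z l) * d01 (fun y => LM w y k l) z v)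
        = levi w z b β + d01 (Lf w b b) z v := by
      rw [← hcon, (Jn_const L hz v b b).2.1, ← Finset.sum_add_distrib]
      refine Finset.sum_congr rfl (fun k _ => ?_)
      rw [← Finset.sum_add_distrib]
      refine Finset.sum_congr rfl (fun l _ => ?_)
      rw [(jb k).2.1, (jc l).2.1, hbz]
      ring
    rw [e1, Jn_conj L hz v b b, k1, map_neg, levi_conj L hz]
    ring
  · rw [mx_congr he', h3]
    have e1 : ∑ k, ∑ l, (mx (fun y => bb z v b β δ y k) z v * conj (bb z v b β δ z l) * LM w z k l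
        + bb z v b β δ z k * mx (fun y => conj (bb z v b β δ y l)) z v * LM w z k l
        + bb z v b β δ z k * conj (bb z v b β δ z l) * mx (fun y => LM w y k l) z v
        + (d10 (fun y => bb z v b β δ y k) z v * d01 (fun y => conj (bb z v b β δ y l)) z v
          + d01 (fun y => bb z v b β δ y k) z v * d10 (fun y => conj (bb z v b β δ y l)) z v)
            * LM w z k l
        + (d10 (fun y => bb z v b β δ y k) z v * d01 (fun y => LM w y k l) z v
          + d01 (fun y => bb z v b β δ y k) z v * d10 (fun y => LM w y k l) z v)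
            * conj (bb z v b β δ z l)
        + bb z v b β δ z k * (d10 (fun y => conj (bb z v b β δ y l)) z v
            * d01 (fun y => LM w y k l) z v
          + d01 (fun y => conj (bb z v b β δ y l)) z v * d10 (fun y => LM w y k l) z v))
        = levi w z δ b + levi w z b δ + mx (Lf w b b) z v + levi w z β β
          + d01 (Lf w β b) z v + d10 (Lf w b β) z v := by
      rw [← hcon δ b, ← hcon b δ, ← hcon β β, (Jn_const L hz v b b).2.2,
        (Jn_const L hz v β b).2.1, (Jn_const L hz v b β).1]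
      simp only [← Finset.sum_add_distrib]
      refine Finset.sum_congr rfl (fun k _ => Finset.sum_congr rfl (fun l _ => ?_))
      rw [(jb k).1, (jb k).2.1, (jb k).2.2, (jc l).1, (jc l).2.1, (jc l).2.2, hbz]
      ring
    have k3 : levi w z b δ = -levi w z γ γ := by
      rw [hδ b, hA, k2]
      ring
    have k4 : levi w z δ b = -levi w z γ γ := by
      rw [← levi_conj L hz b δ, k3, map_neg, levi_conj L hz]
    rw [e1, k3, k4, hA, Jn_conj L hz v β b, k2, map_neg, levi_conj L hz]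
    ring

end Pool.Agent.SKF
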