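import Pool.Agent.SKF.Lhs
import Pool.Agent.SKF.Gex
import Pool.Agent.SKF.Inv
import Pool.Agent.SKF.Cov

/-!
Lwb (size 5): at a maximal configuration `θ` is bounded below.
Proof. Let `x0 = (A.c (s q0)).symm z0` and choose `q` with `x0 ∈ (A.c (s q)).source`,
`θ q (A.c (s q) x0) = 1` (`C.cover`). Then `z0 ∈ Uo A (s q0) (s q)`, `z' = ph .. z0 = A.c (s q) x0`,
`θ q z' = 1` (so `z' ∈ tsupport (θ q)`), `T = fderiv ℂ (ph ..) z0`, `‖T a‖ ≤ R ‖a‖`.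
Put `bs i = R⁻¹ • T (bs0 i)`: `‖bs i‖ ≤ 1`. By `inv_levi` (and `levi` hermitian form)
`gm (wt q) z' bs = R⁻² • gm (wt q0) z0 bs0`, so `gd (wt q) z' bs = R^(-2r) gd (wt q0) z0 bs0 > 0`, and
`lc t0 bs = R⁻¹ • T (lc t0 bs0)`, so `Af (wt q) z' (lc t0 bs) = Af (wt q) z' (T (lc t0 bs0))
= Af (wt q0) z0 (lc t0 bs0)` (`Af_smul`, `inv_levi`, `inv_Bf`). The maximality of the
configuration gives `Af * (R^(-2r) gd)^κ ≤ Af * (θ q0 z0 * gd)^κ` with `Af > 0`, `gd > 0`, hence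
`R^(-2r) ≤ θ q0 z0`.
-/

open scoped ContDiff ComplexConjugate Topology
open Complex

namespace Pool.Agent.SKF

open Pool.Agent.DTW

variable {n : ℕ} {X : Type*} [TopologicalSpace X] [T2Space X] {ι : Type*} {A : Atlas n X ι}

theorem lwb (B : Bundle A) (L : ∀ i, Loc (B.wt i) (A.c i).target) {m : ℕ} (C : Cover A m)
    (R : ℝ) (hR : 1 ≤ R)
    (hRb : ∀ q q' : Fin m, ∀ z ∈ tsupport (C.θ q), z ∈ Uo A (C.s q) (C.s q') →
      ph A (C.s q) (C.s q') z ∈ tsupport (C.θ q') →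
      ∀ a : E n, ‖fderiv ℂ (ph A (C.s q) (C.s q')) z a‖ ≤ R * ‖a‖)
    (κ : ℝ) (hκ : 0 < κ) {r : ℕ} (q0 : Fin m) (z0 : E n) (bs0 : Fin r → E n) (t0 : Fin r → ℂ)
    (hz0 : z0 ∈ tsupport (C.θ q0)) (hb0 : ∀ i, ‖bs0 i‖ ≤ 1) (ht0 : t0 ≠ 0)
    (hW : 0 < C.θ q0 z0 * gd (B.wt (C.s q0)) z0 bs0)
    (hA : 0 < Af (B.wt (C.s q0)) z0 (lc t0 bs0))
    (hmax : ∀ (q : Fin m) (z : E n) (bs : Fin r → E n) (t : Fin r → ℂ), z ∈ tsupport (C.θ q) →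
        (∀ i, ‖bs i‖ ≤ 1) → t ≠ 0 → 0 < C.θ q z * gd (B.wt (C.s q)) z bs →
        Af (B.wt (C.s q)) z (lc t bs) * (C.θ q z * gd (B.wt (C.s q)) z bs) ^ κ
          ≤ Af (B.wt (C.s q0)) z0 (lc t0 bs0) * (C.θ q0 z0 * gd (B.wt (C.s q0)) z0 bs0) ^ κ) :
    (R ^ (2 * r))⁻¹ ≤ C.θ q0 z0 := by
  have hz0t : z0 ∈ (A.c (C.s q0)).target := C.sub q0 hz0
  obtain ⟨q, hxq, hθq⟩ := C.cover ((A.c (C.s q0)).symm z0)
  have hU : z0 ∈ Uo A (C.s q0) (C.s q) := ⟨hz0t, hxq⟩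
  have hz' : ph A (C.s q0) (C.s q) z0 = A.c (C.s q) ((A.c (C.s q0)).symm z0) := rfl
  have hθ' : C.θ q (ph A (C.s q0) (C.s q) z0) = 1 := by rw [hz']; exact hθq
  have hts : ph A (C.s q0) (C.s q) z0 ∈ tsupport (C.θ q) := by
    apply subset_tsupport
    rw [Function.mem_support, hθ']
    exact one_ne_zero
  have hR0 : 0 < R := lt_of_lt_of_le one_pos hR
  have hT : ∀ a : E n, ‖fderiv ℂ (ph A (C.s q0) (C.s q)) z0 a‖ ≤ R * ‖a‖ :=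
    hRb q0 q z0 hz0 hU hts
  have hRc : ((R⁻¹ : ℝ) : ℂ) ≠ 0 := by
    rw [Ne, Complex.ofReal_eq_zero]
    exact inv_ne_zero hR0.ne'
  set T := fderiv ℂ (ph A (C.s q0) (C.s q)) z0 with hTdef
  set z' := ph A (C.s q0) (C.s q) z0 with hz'def
  set bs : Fin r → E n := fun i => ((R⁻¹ : ℝ) : ℂ) • T (bs0 i) with hbs
  have hz't : z' ∈ (A.c (C.s q)).target := ph_mem hU
  have hb : ∀ i, ‖bs i‖ ≤ 1 := by
    intro i
    simp only [hbs]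
    rw [norm_smul, Complex.norm_real, Real.norm_of_nonneg (inv_nonneg.2 hR0.le)]
    have h1 : ‖T (bs0 i)‖ ≤ R := (hT (bs0 i)).trans (by nlinarith [hb0 i])
    calc R⁻¹ * ‖T (bs0 i)‖ ≤ R⁻¹ * R := mul_le_mul_of_nonneg_left h1 (inv_nonneg.2 hR0.le)
      _ = 1 := inv_mul_cancel₀ hR0.ne'
  have hgm : gm (B.wt (C.s q)) z' bs = (((R⁻¹) ^ 2 : ℝ) : ℂ) • gm (B.wt (C.s q0)) z0 bs0 := by
    ext i j
    simp only [gm, Matrix.of_apply, Matrix.smul_apply, smul_eq_mul, hbs]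
    rw [levi_smul_left (L (C.s q)) hz't, levi_smul_right (L (C.s q)) hz't,
      inv_levi B hU (bs0 i) (bs0 j)]
    rw [Complex.conj_ofReal]
    push_cast
    ring
  have hgd : gd (B.wt (C.s q)) z' bs = (R ^ (2 * r))⁻¹ * gd (B.wt (C.s q0)) z0 bs0 := by
    unfold gd
    rw [hgm, Matrix.det_smul, Fintype.card_fin, ← Complex.ofReal_pow, Complex.re_ofReal_mul]
    congr 1
    rw [pow_mul, inv_pow, inv_pow]
  have hlc : lc t0 bs = ((R⁻¹ : ℝ) : ℂ) • T (lc t0 bs0) := by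
    unfold lc
    rw [map_sum, Finset.smul_sum]
    refine Finset.sum_congr rfl ?_
    intro i _
    simp only [hbs]
    rw [map_smul, smul_comm]
  have hAf : Af (B.wt (C.s q)) z' (lc t0 bs) = Af (B.wt (C.s q0)) z0 (lc t0 bs0) := by
    rw [hlc, Af_smul (L (C.s q)) hz't hRc]
    unfold Af
    rw [inv_Bf B L hU (lc t0 bs0) (lc t0 bs0) (lc t0 bs0), inv_levi B hU (lc t0 bs0) (lc t0 bs0)]
  have hgd0 : 0 < gd (B.wt (C.s q0)) z0 bs0 := by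
    rcases (C.nonneg q0 z0).lt_or_eq with h | h
    · exact (mul_pos_iff_of_pos_left h).1 hW
    · rw [← h, zero_mul] at hW
      exact absurd hW (lt_irrefl _)
  have hgd' : 0 < gd (B.wt (C.s q)) z' bs := by
    rw [hgd]
    positivity
  have hm := hmax q z' bs t0 hts hb ht0 (by rw [hθ', one_mul]; exact hgd')
  rw [hAf, hθ', one_mul] at hm
  have h1 := le_of_mul_le_mul_left hm hA
  have h2 := (Real.rpow_le_rpow_iff hgd'.le hW.le hκ).1 h1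
  rw [hgd] at h2
  exact le_of_mul_le_mul_right h2 hgd0

end Pool.Agent.SKF
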