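import Pool.Agent.SKF.Fin
import Pool.Agent.SKF.Frm
import Pool.Agent.SKF.Ivl

/-!
Assembly of the foliation theorem.
-/

open scoped ContDiff ComplexConjugate Topology
open Complex MeasureTheory

namespace Pool.Agent.SKF

open Pool.Agent.DTW

variable {n : ℕ} {X : Type*} [TopologicalSpace X] [T2Space X] [CompactSpace X]
  [MeasurableSpace X] [BorelSpace X] {ι : Type*} {A : Atlas n X ι} {μ : Measure X}

theorem loc_all (hμ : A.IsVolume μ) (B : Bundle A) (hsp : B.Semipositive) (hq : Para B μ)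
    (i : ι) : Loc (B.wt i) (A.c i).target where
  op := (A.c i).open_target
  sm := B.smooth i
  psd := fun z hz => psd_of_levi (A.c i).open_target (B.smooth i) hz (hsp i z hz)
  iso := iso_all hμ B hsp hq i

theorem S_left_inj {a a' : E n} (h : ∀ b, S a b = S a' b) : a = a' := by
  funext k
  have h3 := h (e k.swap)
  rw [S_single, S_single, Sum.swap_swap, sg_swap, neg_neg] at h3
  have h4 : sg k ≠ 0 := by
    intro h0
    have := sg_sq k
    rw [h0] at this
    simp at this
  exact mul_left_cancel₀ h4 h3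

/-- the cubic form vanishes -/
theorem cubic (hμ : A.IsVolume μ) (B : Bundle A) (hsp : B.Semipositive) (hq : Para B μ)
    (i : ι) (z : E n) (hz : z ∈ (A.c i).target) (a b : E n)
    (hab : ∀ a', S a a' = levi (B.wt i) z a' b) (c d : E n) :
    d01 (fun y => levi (B.wt i) y a c) z d = 0 := by
  have L := loc_all hμ B hsp hq
  have hw : ContDiffAt ℝ ∞ (B.wt i) z := (L i).sm.contDiffAt ((L i).op.mem_nhds hz)
  have h1 : a = XX (B.wt i) z b := by
    apply S_left_inj
    intro a'
    have h2 := S_XX hw 1 b a'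
    rw [one_smul, one_mul] at h2
    rw [hab, h2]
  have h3 := fin_Bf B L i z hz b c d
  rw [Bf_eq (L i) hz, ← h1] at h3
  exact h3

/-- holomorphic Lagrangian involutive frames of the kernel where the rank is `n` -/
theorem foliation (hμ : A.IsVolume μ) (B : Bundle A) (hsp : B.Semipositive) (hq : Para B μ)
    (i : ι) (z : E n) (hz : z ∈ (A.c i).target)
    (hr : Module.finrank ℂ (kerL (B.wt i) z) = n) :
    ∃ V : Set (E n), IsOpen V ∧ z ∈ V ∧ V ⊆ (A.c i).target ∧ ∃ a : Fin n → E n → E n,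
      (∀ k, DifferentiableOn ℂ (a k) V) ∧ ∀ y ∈ V,
        LinearIndependent ℂ (fun k => a k y) ∧
        Submodule.span ℂ (Set.range fun k => a k y) = kerL (B.wt i) y ∧
        (∀ k l, S (a k y) (a l y) = 0) ∧
        ∀ k l, fderiv ℂ (a k) y (a l y) - fderiv ℂ (a l) y (a k y) ∈ kerL (B.wt i) y := by
  have L := loc_all hμ B hsp hq
  obtain ⟨V, hV, hzV, hVU, a, ha, h⟩ := frm (L i) (fin_Bf B L i) hz hr
  have hk : ∀ k, ∀ y ∈ V, a k y ∈ kerL (B.wt i) y := by
    intro k y hy
    rw [← (h y hy).2.1]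
    exact Submodule.subset_span ⟨k, rfl⟩
  refine ⟨V, hV, hzV, hVU, a, ha, fun y hy => ⟨(h y hy).1, (h y hy).2.1, fun k l => ?_,
    fun k l => ?_⟩⟩
  · exact lag (L i) (hVU hy) (h y hy).2.2 (hk k y hy) (hk l y hy)
  · exact ivl (L i) hV hVU (a k) (a l) (ha k) (ha l) (hk k) (hk l) hy

end Pool.Agent.SKF
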