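import Pool.Agent.SKF.Jpr

/-!
Rh (size 4): 2-jets of a determinant at a point where the matrix is the identity.
Proof. Let `J = DualNumber (DualNumber ℂ)` (or any commutative ring with `s² = t² = 0`). The functions
`f : E n → ℂ` with `ContDiffOn ℝ ∞ f U` form a subring and
`f ↦ f z + s d10 f z v + t d01 f z v + s t mx f z v` is a ring homomorphism (`d10_mul`, `d01_mul`,
`mx_mul`), so it commutes with determinants (`RingHom.map_det`). With `M z = 1` the image of `M` is
`1 + s A + t B + s t C = (1 + s A)(1 + t B)(1 + s t (C - A B))`, and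
`det (1 + x • M) = 1 + x tr M + x² (...)` (`Matrix.det_one_add_smul`), so its determinant is
`(1 + s tr A)(1 + t tr B)(1 + s t tr (C - A B))`. Alternative: expand the determinant
(`Matrix.det_apply`) and note that only the identity and transpositions contribute.
-/

open scoped ContDiff ComplexConjugate Topology
open Complex

namespace Pool.Agent.SKF

open Pool.Agent.DTW

variable {n : ℕ} {U : Set (E n)} {z v : E n}

private theorem Rh_det1 {R : Type*} [CommRing R] {r : ℕ} (x : R) (hx : x * x = 0)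
    (M : Matrix (Fin r) (Fin r) R) : (1 + x • M).det = 1 + x * M.trace := by
  rw [Matrix.det_one_add_smul, pow_two, hx]
  ring

private theorem Rh_det2 {R : Type*} [CommRing R] {r : ℕ} (s t : R) (hs : s * s = 0) (ht : t * t = 0)
    (A B C : Matrix (Fin r) (Fin r) R) :
    (1 + s • A + t • B + (s * t) • C).det =
      1 + s * A.trace + t * B.trace + s * t * (C.trace + A.trace * B.trace - (A * B).trace) := by
  have h1 : 1 + s • A + t • B + (s * t) • C =
      (1 + s • A) * (1 + t • B) * (1 + (s * t) • (C - A * B)) := by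
    have e1 : s * (s * t) = 0 := by rw [← mul_assoc, hs, zero_mul]
    have e2 : t * (s * t) = 0 := by rw [mul_left_comm, ht, mul_zero]
    have e3 : s * t * (s * t) = 0 := by rw [mul_mul_mul_comm, hs, zero_mul]
    have h2 : (1 + s • A) * (1 + t • B) = 1 + s • A + t • B + (s * t) • (A * B) := by
      rw [add_mul, mul_add, mul_add, Matrix.one_mul, Matrix.mul_one, Matrix.one_mul,
        Matrix.smul_mul, Matrix.mul_smul, smul_smul]
      abel
    rw [h2, mul_add, Matrix.mul_one]
    have h3 : (1 + s • A + t • B + (s * t) • (A * B)) * ((s * t) • (C - A * B)) =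
        (s * t) • (C - A * B) := by
      rw [add_mul, add_mul, add_mul, Matrix.one_mul, Matrix.smul_mul, Matrix.smul_mul,
        Matrix.smul_mul, Matrix.mul_smul, Matrix.mul_smul, Matrix.mul_smul, smul_smul, smul_smul,
        smul_smul, e1, e2, e3]
      simp
    rw [h3, smul_sub]
    abel
  rw [h1, Matrix.det_mul, Matrix.det_mul, Rh_det1 s hs, Rh_det1 t ht,
    Rh_det1 (s * t) (by rw [mul_mul_mul_comm, hs, zero_mul]), Matrix.trace_sub]
  have e1 : s * s * t = 0 := by rw [hs, zero_mul]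
  have e2 : t * t * s = 0 := by rw [ht, zero_mul]
  have e3 : s * s * t * t = 0 := by rw [hs, zero_mul, zero_mul]
  linear_combination (A.trace * (C.trace - (A * B).trace)) * e1 +
    (B.trace * (C.trace - (A * B).trace)) * e2 +
    (A.trace * B.trace * (C.trace - (A * B).trace)) * e3

/-- the subring of smooth functions -/
private noncomputable def RhSub (U : Set (E n)) : Subring (E n → ℂ) where
  carrier := {f | ContDiffOn ℝ ∞ f U}
  mul_mem' := fun hf hg => ContDiffOn.mul hf hg
  one_mem' := contDiffOn_const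
  add_mem' := fun hf hg => ContDiffOn.add hf hg
  zero_mem' := contDiffOn_const
  neg_mem' := fun hf => ContDiffOn.neg hf

private def RhJ : Type := DualNumber (DualNumber ℂ)

private noncomputable instance RhInst : CommRing RhJ :=
  inferInstanceAs (CommRing (DualNumber (DualNumber ℂ)))

private def Rhp (x : RhJ) : (ℂ × ℂ) × (ℂ × ℂ) := x

private theorem Rh_ext {x y : RhJ} (h1 : (Rhp x).1.1 = (Rhp y).1.1) (h2 : (Rhp x).1.2 = (Rhp y).1.2)
    (h3 : (Rhp x).2.1 = (Rhp y).2.1) (h4 : (Rhp x).2.2 = (Rhp y).2.2) : x = y := by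
  have : Rhp x = Rhp y := Prod.ext (Prod.ext h1 h2) (Prod.ext h3 h4)
  exact this

/-- the 2-jet -/
private noncomputable def RhPhi (hU : IsOpen U) (hz : z ∈ U) (v : E n) : RhSub U →+* RhJ where
  toFun f := ((f.1 z, d10 f.1 z v), (d01 f.1 z v, mx f.1 z v))
  map_one' := by
    have h : ((1 : RhSub U) : E n → ℂ) = fun _ => 1 := rfl
    rw [h]
    refine Rh_ext rfl ?_ ?_ ?_
    · exact d10_const _
    · exact d01_const _
    · exact mx_const _
  map_zero' := by
    have h : ((0 : RhSub U) : E n → ℂ) = fun _ => 0 := rfl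
    rw [h]
    refine Rh_ext rfl ?_ ?_ ?_
    · exact d10_const _
    · exact d01_const _
    · exact mx_const _
  map_add' := by
    rintro ⟨f, hf⟩ ⟨g, hg⟩
    refine Rh_ext rfl ?_ ?_ ?_
    · exact d10_add (diffAt_of hU hf hz) (diffAt_of hU hg hz)
    · exact d01_add (diffAt_of hU hf hz) (diffAt_of hU hg hz)
    · exact mx_add hU hf hg hz
  map_mul' := by
    rintro ⟨f, hf⟩ ⟨g, hg⟩
    have h1 := d10_mul (a := v) (diffAt_of hU hf hz) (diffAt_of hU hg hz)
    have h2 := d01_mul (a := v) (diffAt_of hU hf hz) (diffAt_of hU hg hz)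
    have h3 := mx_mul (v := v) hU hf hg hz
    refine Rh_ext rfl ?_ ?_ ?_
    · refine h1.trans ?_
      change _ = f z * d10 g z v + d10 f z v * g z
      ring
    · refine h2.trans ?_
      change _ = f z * d01 g z v + d01 f z v * g z
      ring
    · refine h3.trans ?_
      change _ = (f z * mx g z v + d10 f z v * d01 g z v) + (d01 f z v * d10 g z v + mx f z v * g z)
      ring

/-- the constants -/
private noncomputable def Rhio : ℂ →+* RhJ where
  toFun c := ((c, 0), (0, 0))
  map_one' := rfl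
  map_zero' := rfl
  map_add' a b := by
    refine Rh_ext rfl ?_ ?_ ?_
    · change (0 : ℂ) = 0 + 0; ring
    · change (0 : ℂ) = 0 + 0; ring
    · change (0 : ℂ) = 0 + 0; ring
  map_mul' a b := by
    refine Rh_ext rfl ?_ ?_ ?_
    · change (0 : ℂ) = a * 0 + 0 * b; ring
    · change (0 : ℂ) = a * 0 + 0 * b; ring
    · change (0 : ℂ) = (a * 0 + 0 * 0) + (0 * 0 + 0 * b); ring

private theorem Rh_trace {r : ℕ} (A : Matrix (Fin r) (Fin r) ℂ) :
    (A.map Rhio).trace = Rhio A.trace := by
  simp only [Matrix.trace, Matrix.diag_apply, Matrix.map_apply, map_sum]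

private noncomputable def Rhs : RhJ := ((0, 1), (0, 0))
private noncomputable def Rht : RhJ := ((0, 0), (1, 0))

private theorem Rh_ss : Rhs * Rhs = 0 := by
  refine Rh_ext ?_ ?_ ?_ ?_
  · change (0 : ℂ) * 0 = 0; ring
  · change (0 : ℂ) * 1 + 1 * 0 = 0; ring
  · change (0 : ℂ) * 0 + 0 * 0 = 0; ring
  · change ((0 : ℂ) * 0 + 1 * 0) + (0 * 1 + 0 * 0) = 0; ring

private theorem Rh_tt : Rht * Rht = 0 := by
  refine Rh_ext ?_ ?_ ?_ ?_
  · change (0 : ℂ) * 0 = 0; ring
  · change (0 : ℂ) * 0 + 0 * 0 = 0; ring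
  · change (0 : ℂ) * 1 + 1 * 0 = 0; ring
  · change ((0 : ℂ) * 0 + 0 * 1) + (1 * 0 + 0 * 0) = 0; ring

private theorem Rh_st : Rhs * Rht = ((0, 0), (0, 1)) := by
  refine Rh_ext ?_ ?_ ?_ ?_
  · change (0 : ℂ) * 0 = 0; ring
  · change (0 : ℂ) * 0 + 1 * 0 = 0; ring
  · change (0 : ℂ) * 1 + 0 * 0 = 0; ring
  · change ((0 : ℂ) * 0 + 1 * 1) + (0 * 0 + 0 * 0) = 1; ring

private theorem Rh_comb (u a b c : ℂ) : Rhio u + Rhs * Rhio a + Rht * Rhio b + Rhs * Rht * Rhio c =
    ((u, a), (b, c)) := by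
  rw [Rh_st]
  refine Rh_ext ?_ ?_ ?_ ?_
  · change u + 0 * a + 0 * b + 0 * c = u; ring
  · change (0 : ℂ) + (0 * 0 + 1 * a) + (0 * 0 + 0 * b) + (0 * 0 + 0 * c) = a; ring
  · change (0 : ℂ) + (0 * 0 + 0 * a) + (0 * 0 + 1 * b) + (0 * 0 + 0 * c) = b; ring
  · change (0 : ℂ) + ((0 * 0 + 1 * 0) + (0 * 0 + 0 * a)) + ((0 * 0 + 0 * 0) + (1 * 0 + 0 * b)) +
      ((0 * 0 + 0 * 0) + (0 * 0 + 1 * c)) = c
    ring

theorem rh {r : ℕ} (hU : IsOpen U) (hz : z ∈ U) (M : E n → Matrix (Fin r) (Fin r) ℂ)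
    (hM : ∀ i j, ContDiffOn ℝ ∞ (fun y => M y i j) U) (h1 : M z = 1)
    (A B C : Matrix (Fin r) (Fin r) ℂ) (hA : ∀ i j, d10 (fun y => M y i j) z v = A i j)
    (hB : ∀ i j, d01 (fun y => M y i j) z v = B i j)
    (hC : ∀ i j, mx (fun y => M y i j) z v = C i j) :
    ContDiffOn ℝ ∞ (fun y => (M y).det) U ∧
    d10 (fun y => (M y).det) z v = A.trace ∧ d01 (fun y => (M y).det) z v = B.trace ∧
    mx (fun y => (M y).det) z v = C.trace + A.trace * B.trace - (A * B).trace := by
  classical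
  obtain ⟨M', hM'⟩ : ∃ M' : Matrix (Fin r) (Fin r) (RhSub U),
      ∀ i j, ((M' i j : RhSub U) : E n → ℂ) = fun y => M y i j :=
    ⟨Matrix.of fun i j => ⟨fun y => M y i j, hM i j⟩, fun i j => rfl⟩
  have hD : ((M'.det : RhSub U) : E n → ℂ) = fun y => (M y).det := by
    funext y
    have h := ((Pi.evalRingHom (fun _ : E n => ℂ) y).comp (RhSub U).subtype).map_det M'
    refine h.trans (congrArg Matrix.det ?_)
    ext i j
    exact congrFun (hM' i j) y
  have hdet := (RhPhi hU hz v).map_det M'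
  have hmat : (RhPhi hU hz v).mapMatrix M' = 1 + Rhs • A.map Rhio + Rht • B.map Rhio +
      (Rhs * Rht) • C.map Rhio := by
    ext1 i j
    have e1 : (RhPhi hU hz v) (M' i j) = ((M z i j, A i j), (B i j, C i j)) := by
      refine Rh_ext ?_ ?_ ?_ ?_
      · exact congrFun (hM' i j) z
      · change d10 ((M' i j : RhSub U) : E n → ℂ) z v = A i j
        rw [hM' i j]; exact hA i j
      · change d01 ((M' i j : RhSub U) : E n → ℂ) z v = B i j
        rw [hM' i j]; exact hB i j
      · change mx ((M' i j : RhSub U) : E n → ℂ) z v = C i j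
        rw [hM' i j]; exact hC i j
    have e2 : (1 : Matrix (Fin r) (Fin r) RhJ) i j = Rhio (M z i j) := by
      rw [h1, Matrix.one_apply, Matrix.one_apply]
      split_ifs
      · exact (map_one Rhio).symm
      · exact (map_zero Rhio).symm
    rw [RingHom.mapMatrix_apply, Matrix.map_apply, e1, Matrix.add_apply, Matrix.add_apply,
      Matrix.add_apply, Matrix.smul_apply, Matrix.smul_apply, Matrix.smul_apply, Matrix.map_apply,
      Matrix.map_apply, Matrix.map_apply, e2, smul_eq_mul, smul_eq_mul, smul_eq_mul, Rh_comb]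
  rw [hmat, Rh_det2 Rhs Rht Rh_ss Rh_tt, ← Matrix.map_mul, Rh_trace, Rh_trace, Rh_trace, Rh_trace,
    ← map_mul, ← map_add, ← map_sub, ← map_one Rhio, Rh_comb] at hdet
  have g1 : d10 ((M'.det : RhSub U) : E n → ℂ) z v = A.trace :=
    congrArg (fun x : RhJ => (Rhp x).1.2) hdet
  have g2 : d01 ((M'.det : RhSub U) : E n → ℂ) z v = B.trace :=
    congrArg (fun x : RhJ => (Rhp x).2.1) hdet
  have g3 : mx ((M'.det : RhSub U) : E n → ℂ) z v = C.trace + A.trace * B.trace - (A * B).trace :=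
    congrArg (fun x : RhJ => (Rhp x).2.2) hdet
  have g0 : ContDiffOn ℝ ∞ ((M'.det : RhSub U) : E n → ℂ) U := (M'.det).2
  rw [hD] at g0 g1 g2 g3
  exact ⟨g0, g1, g2, g3⟩

end Pool.Agent.SKF
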