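import Pool.Agent.SKF.BfL

/-!
Sym (size 3): symmetries of the cubic form and of its companion, and the kernel.
Proof of `Bf_symm12`: differentiate `br (ub w b) (ub w d) = 0` (on the open set U, `br_ub`) by
`∂̄_c`: `br (uu2 b c) (ub d) + br (ub b) (uu2 d c) = 0`, so by antisymmetry
`Bf b d c = br (ub d) (uu2 b c) = Bf d b c`. `Bf_symm23` is `uu2_symm` near `z` (`br_congr`).
`Cf_symm`: differentiate `br (ub w b) (ub w d) = 0` by `∂_m`: `∂_m u_d = Lf w m d`.
-/

open scoped ContDiff ComplexConjugate Topology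
open Complex

namespace Pool.Agent.SKF

open Pool.Agent.DTW

variable {n : ℕ} {U : Set (E n)} {w : E n → ℝ} {z : E n}

theorem Bf_symm12 (L : Loc w U) (hz : z ∈ U) (b c d : E n) : Bf w b c d z = Bf w c b d z := by
  have h0 : d01 (br (ub w b) (ub w c)) z d = 0 := by
    have h : br (ub w b) (ub w c) =ᶠ[𝓝 z] fun _ => (0 : ℂ) := by
      filter_upwards [L.op.mem_nhds hz] with y hy
      exact br_ub L hy b c
    rw [d01_congr h, d01_const]
  rw [br_d01 L.op (smooth_ub L b) (smooth_ub L c) hz] at h0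
  have h1 : br (fun y => d01 (ub w b) y d) (ub w c) z = -br (ub w c) (uu2 w b d) z :=
    br_anti _ _ _
  rw [h1] at h0
  have h2 : br (ub w b) (fun y => d01 (ub w c) y d) z = Bf w b c d z := rfl
  have h3 : br (ub w c) (uu2 w b d) z = Bf w c b d z := rfl
  rw [h2, h3] at h0
  linear_combination h0

theorem Bf_symm23 (L : Loc w U) (hz : z ∈ U) (b c d : E n) : Bf w b c d z = Bf w b d c z := by
  have h : uu2 w c d =ᶠ[𝓝 z] uu2 w d c := by
    filter_upwards [L.op.mem_nhds hz] with y hy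
    exact uu2_symm L hy c d
  exact br_congr (Filter.EventuallyEq.refl _ _) h

/-- `C(b,m,d) = w_(X_b m d̄)` is symmetric in `b`, `d`. -/
theorem Cf_symm (L : Loc w U) (hz : z ∈ U) (b m d : E n) :
    d10 (Lf w m d) z (XX w z b) = d10 (Lf w m b) z (XX w z d) := by
  have hw : ContDiffAt ℝ ∞ w z := L.sm.contDiffAt (L.op.mem_nhds hz)
  rw [d10_XX hw, d10_XX hw]
  have h0 : d10 (br (ub w b) (ub w d)) z m = 0 := by
    have h : br (ub w b) (ub w d) =ᶠ[𝓝 z] fun _ => (0 : ℂ) := by
      filter_upwards [L.op.mem_nhds hz] with y hy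
      exact br_ub L hy b d
    rw [d10_congr h, d10_const]
  rw [br_d10 L.op (smooth_ub L b) (smooth_ub L d) hz] at h0
  have h1 : br (fun y => d10 (ub w b) y m) (ub w d) z = -br (ub w d) (Lf w m b) z :=
    br_anti _ _ _
  have h2 : br (ub w b) (fun y => d10 (ub w d) y m) z = br (ub w b) (Lf w m d) z := rfl
  rw [h1, h2] at h0
  linear_combination h0

/-- if `l` is in the kernel then `∂ u_l = 0` at the point -/
theorem d10_ub_ker (L : Loc w U) (hz : z ∈ U) {l : E n} (hl : ∀ c, levi w z l c = 0) (a : E n) :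
    d10 (ub w l) z a = 0 := by
  have h1 : d10 (ub w l) z a = levi w z a l := rfl
  rw [h1, ← levi_conj L hz l a, hl a, map_zero]

theorem XX_ker (L : Loc w U) (hz : z ∈ U) {l : E n} (hl : ∀ c, levi w z l c = 0) :
    XX w z l = 0 := by
  have hw : ContDiffAt ℝ ∞ w z := L.sm.contDiffAt (L.op.mem_nhds hz)
  funext k
  rw [XX_apply hw]
  have h1 : levi w z (e k.swap) l = 0 := by
    rw [← levi_conj L hz l (e k.swap), hl, map_zero]
  rw [h1, mul_zero]
  rfl

theorem Bf_ker (L : Loc w U) (hz : z ∈ U) {l : E n} (hl : ∀ c, levi w z l c = 0) (c d : E n) :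
    Bf w l c d z = 0 := by
  exact br_zero_left (fun a => d10_ub_ker L hz hl a) _

theorem Cf_ker (L : Loc w U) (hz : z ∈ U) {l : E n} (hl : ∀ c, levi w z l c = 0) (b m : E n) :
    d10 (Lf w m l) z (XX w z b) = 0 := by
  rw [Cf_symm L hz b m l, XX_ker L hz hl, d10_zero_vec]

/-- `X_b` is in the kernel (`levi_XX` of DTW.Main) -/
theorem levi_XX_left (L : Loc w U) (hz : z ∈ U) (b c : E n) : levi w z (XX w z b) c = 0 := by
  have hw : ContDiffAt ℝ ∞ w z := L.sm.contDiffAt (L.op.mem_nhds hz)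
  have h := levi_XX hw (L.iso z hz) 1 b c
  rwa [one_smul] at h

theorem levi_XX_right (L : Loc w U) (hz : z ∈ U) (b c : E n) : levi w z c (XX w z b) = 0 := by
  rw [← levi_conj L hz (XX w z b) c, levi_XX_left L hz, map_zero]

end Pool.Agent.SKF
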